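import Mathlib

open Set Function MeasureTheory Filter Topology
open scoped ENNReal InnerProductSpace

namespace Pool.Agent.H17

/-- A continuous orthogonal representation. -/
structure OrthRep (G E : Type*) [Group G] [TopologicalSpace G] [NormedAddCommGroup E]
    [InnerProductSpace ℝ E] where
  ρ : G →* (E →ₗ[ℝ] E)
  norm_map : ∀ g v, ‖ρ g v‖ = ‖v‖
  cont : ∀ v, Continuous fun g => ρ g v

/-- rank semicontinuity and its first order consequence -/
lemma tangent_rank {E F : Type*} [NormedAddCommGroup E] [InnerProductSpace ℝ E]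
    [FiniteDimensional ℝ E] [NormedAddCommGroup F] [NormedSpace ℝ F] [FiniteDimensional ℝ F]
    (Φ₀ : E →L[ℝ] F) (Φ : ℕ → E →L[ℝ] F) (hΦ : Tendsto Φ atTop (𝓝 Φ₀))
    (hker : ∀ k, Module.finrank ℝ Φ₀.ker ≤ Module.finrank ℝ (Φ k).ker)
    (c : ℕ → ℝ) (D : E →L[ℝ] F) (hD : Tendsto (fun k => c k • (Φ k - Φ₀)) atTop (𝓝 D))
    {v : E} (hv : Φ₀ v = 0) : ∃ u, Φ₀ u = D v := by
  classical
  set N : Submodule ℝ E := Φ₀.ker with hN
  have hNmem : ∀ x, x ∈ N ↔ Φ₀ x = 0 := fun x => by simp [hN]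
  -- antilipschitz on the orthogonal complement
  obtain ⟨κ, hκ0, hκ⟩ : ∃ κ : ℝ, 0 < κ ∧ ∀ u ∈ Nᗮ, ‖u‖ ≤ κ * ‖Φ₀ u‖ := by
    have hinj : ((Φ₀ : E →ₗ[ℝ] F).domRestrict Nᗮ).ker = ⊥ := by
      rw [LinearMap.ker_eq_bot']
      intro m hm
      have h1 : (m : E) ∈ N := by
        rw [hNmem]
        simpa using hm
      have h2 := Submodule.inner_right_of_mem_orthogonal h1 m.2
      rw [real_inner_self_eq_norm_sq] at h2
      have : ‖(m : E)‖ = 0 := by simpa using h2
      ext
      simpa using this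
    obtain ⟨K, hK0, hK⟩ := ((Φ₀ : E →ₗ[ℝ] F).domRestrict Nᗮ).exists_antilipschitzWith hinj
    refine ⟨K, by exact_mod_cast hK0, ?_⟩
    intro u hu
    have := hK.le_mul_dist (⟨u, hu⟩ : Nᗮ) 0
    simpa using this
  have hδ : Tendsto (fun k => ‖Φ k - Φ₀‖) atTop (𝓝 0) := by
    have := (tendsto_iff_norm_sub_tendsto_zero).1 hΦ
    exact this
  -- for large k choose a kernel vector projecting onto v
  have hex : ∀ᶠ k in atTop, ∃ u, Φ k u = 0 ∧ ‖u - v‖ ≤ 2 * κ * ‖Φ k - Φ₀‖ * ‖v‖ := by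
    have hsmall : ∀ᶠ k in atTop, ‖Φ k - Φ₀‖ < 1 / (2 * κ) :=
      hδ.eventually_lt_const (by positivity)
    filter_upwards [hsmall] with k hk
    have hk' : κ * ‖Φ k - Φ₀‖ < 1 / 2 := by
      have := mul_lt_mul_of_pos_left hk hκ0
      calc κ * ‖Φ k - Φ₀‖ < κ * (1 / (2 * κ)) := this
        _ = 1 / 2 := by field_simp
    -- estimate on the kernel
    have hest : ∀ u, Φ k u = 0 → ‖u - N.starProjection u‖ ≤ κ * ‖Φ k - Φ₀‖ * ‖u‖ := by
      intro u hu
      have h1 : u - N.starProjection u ∈ Nᗮ := Submodule.sub_starProjection_mem_orthogonal u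
      have h2 := hκ _ h1
      have h3 : Φ₀ (u - N.starProjection u) = -((Φ k - Φ₀) u) := by
        have h4 : Φ₀ (N.starProjection u) = 0 := by
          exact (hNmem _).1 (Submodule.starProjection_apply_mem N u)
        rw [map_sub, h4]
        simp [hu]
      rw [h3, norm_neg] at h2
      calc ‖u - N.starProjection u‖ ≤ κ * ‖(Φ k - Φ₀) u‖ := h2
        _ ≤ κ * (‖Φ k - Φ₀‖ * ‖u‖) := by
            gcongr
            exact (Φ k - Φ₀).le_opNorm u
        _ = _ := by ring
    -- the projection is injective on the kernel of Φ k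
    let P : (Φ k).ker →ₗ[ℝ] N :=
      (N.orthogonalProjectionOnto : E →ₗ[ℝ] N).domRestrict (Φ k).ker
    have hPinj : Injective P := by
      rw [injective_iff_map_eq_zero]
      intro u hu
      have h1 : N.starProjection (u : E) = 0 := by
        have : (P u : E) = 0 := by rw [hu]; rfl
        exact this
      have h2 := hest u (by simp)
      rw [h1, sub_zero] at h2
      have h3 : ‖(u : E)‖ ≤ 1 / 2 * ‖(u : E)‖ :=
        h2.trans (mul_le_mul_of_nonneg_right hk'.le (norm_nonneg _))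
      have h4 : ‖(u : E)‖ = 0 := by
        have := norm_nonneg (u : E)
        linarith
      ext
      simpa using h4
    have hfr : Module.finrank ℝ (Φ k).ker = Module.finrank ℝ N :=
      le_antisymm (LinearMap.finrank_le_finrank_of_injective hPinj) (hker k)
    have hPsurj : Surjective P := (LinearMap.injective_iff_surjective_of_finrank_eq_finrank hfr).1 hPinj
    obtain ⟨u, hu⟩ := hPsurj ⟨v, by rw [hNmem]; exact hv⟩
    have hu0 : Φ k (u : E) = 0 := by simp
    refine ⟨u, hu0, ?_⟩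
    have h1 : N.starProjection (u : E) = v := by
      have : (P u : E) = v := by rw [hu]
      exact this
    have h2 := hest u hu0
    rw [h1] at h2
    have h3 : ‖(u : E)‖ ≤ ‖(u : E) - v‖ + ‖v‖ := by
      calc ‖(u : E)‖ = ‖((u : E) - v) + v‖ := by rw [sub_add_cancel]
        _ ≤ _ := norm_add_le _ _
    have h4 : 0 ≤ κ * ‖Φ k - Φ₀‖ := by positivity
    have h5 : κ * ‖Φ k - Φ₀‖ * ‖(u : E)‖ ≤ κ * ‖Φ k - Φ₀‖ * (‖(u : E) - v‖ + ‖v‖) :=
      mul_le_mul_of_nonneg_left h3 h4
    have h6 : κ * ‖Φ k - Φ₀‖ * ‖(u : E) - v‖ ≤ 1 / 2 * ‖(u : E) - v‖ :=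
      mul_le_mul_of_nonneg_right hk'.le (norm_nonneg _)
    nlinarith
  obtain ⟨k0, hk0⟩ := eventually_atTop.1 hex
  choose! u hu0 hu1 using hk0
  -- u k → v
  have hulim : Tendsto (fun k => u (k + k0)) atTop (𝓝 v) := by
    rw [tendsto_iff_norm_sub_tendsto_zero]
    have h1 : Tendsto (fun k => 2 * κ * ‖Φ (k + k0) - Φ₀‖ * ‖v‖) atTop (𝓝 0) := by
      have := (hδ.comp (tendsto_add_atTop_nat k0)).const_mul (2 * κ)
      have := this.mul_const ‖v‖
      simpa using this
    exact squeeze_zero (fun k => norm_nonneg _) (fun k => hu1 (k + k0) (by omega)) h1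
  -- Φ₀ (c (v - u)) = c (Φ k - Φ₀) u → D v
  have hlim : Tendsto (fun k => Φ₀ (c (k + k0) • (v - u (k + k0)))) atTop (𝓝 (D v)) := by
    have h1 : Tendsto (fun k => (c (k + k0) • (Φ (k + k0) - Φ₀)) (u (k + k0))) atTop
        (𝓝 (D v)) := by
      have h2 := hD.comp (tendsto_add_atTop_nat k0)
      exact (isBoundedBilinearMap_apply.continuous.tendsto (D, v)).comp (h2.prodMk_nhds hulim)
    refine h1.congr fun k => ?_
    have h3 := hu0 (k + k0) (by omega)
    simp [hv, h3]
  have hclosed : IsClosed (Φ₀.range : Set F) := Submodule.closed_of_finiteDimensional _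
  have hmem : D v ∈ (Φ₀.range : Set F) :=
    hclosed.mem_of_tendsto hlim (Eventually.of_forall fun k => ⟨_, rfl⟩)
  exact hmem

end Pool.Agent.H17
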