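import Mathlib
import Pool.Agent.H17.Rep

open Set Function MeasureTheory Filter Topology
open scoped ENNReal InnerProductSpace

namespace Pool.Agent.H17

/-- dimension count -/
lemma dim_count {E : Type*} [NormedAddCommGroup E] [InnerProductSpace ℝ E]
    [FiniteDimensional ℝ E] (U V : E →ₗ[ℝ] E) (hU : ∀ x, ‖U x‖ = ‖x‖) (hV : ∀ x, ‖V x‖ = ‖x‖)
    (M : Submodule ℝ E) (hUM : ∀ m ∈ M, U m ∈ M) (hVM : ∀ m ∈ M, V m ∈ M)
    (h1 : ∀ m ∈ M, ∃ u, U u - u = m ∧ V u - u = 0)
    (h2 : ∀ m ∈ M, ∃ u, U u - u = 0 ∧ V u - u = m) : M = ⊥ := by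
  -- commutation with the projection
  have comm : ∀ W : E →ₗ[ℝ] E, (∀ x, ‖W x‖ = ‖x‖) → (∀ m ∈ M, W m ∈ M) →
      ∀ x, M.starProjection (W x) = W (M.starProjection x) := by
    intro W hW hWM x
    have hinner : ∀ x y, ⟪W x, W y⟫_ℝ = ⟪x, y⟫_ℝ :=
      fun x y => LinearIsometry.inner_map_map (⟨W, hW⟩ : E →ₗᵢ[ℝ] E) x y
    have hinj : Injective (W.restrict hWM) := by
      rw [injective_iff_map_eq_zero]
      intro m hm
      have h3 : ‖W (m : E)‖ = 0 := by
        have : W (m : E) = ((W.restrict hWM m : M) : E) := rfl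
        rw [this, hm]; simp
      rw [hW] at h3
      ext; simpa using h3
    have hsurj : Surjective (W.restrict hWM) :=
      LinearMap.injective_iff_surjective.1 hinj
    have horth : ∀ n ∈ Mᗮ, W n ∈ Mᗮ := by
      intro n hn
      rw [Submodule.mem_orthogonal]
      intro m hm
      obtain ⟨m', hm'⟩ := hsurj ⟨m, hm⟩
      have h4 : W (m' : E) = m := by
        have := congrArg (Subtype.val) hm'
        simpa using this
      rw [← h4, hinner]
      exact (Submodule.mem_orthogonal M n).1 hn _ m'.2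
    have hx : W x = W (M.starProjection x) + W (x - M.starProjection x) := by
      rw [← map_add]; congr 1; abel
    rw [hx, map_add]
    have e1 : M.starProjection (W (M.starProjection x)) = W (M.starProjection x) :=
      (Submodule.starProjection_eq_self_iff).2 (hWM _ (Submodule.starProjection_apply_mem M x))
    have e2 : M.starProjection (W (x - M.starProjection x)) = 0 :=
      (Submodule.starProjection_apply_eq_zero_iff M).2
        (horth _ (Submodule.sub_starProjection_mem_orthogonal x))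
    rw [e1, e2, add_zero]
  let Ψ : M →ₗ[ℝ] M × M :=
    (U.restrict hUM - LinearMap.id).prod (V.restrict hVM - LinearMap.id)
  have hΨ : Surjective Ψ := by
    rintro ⟨m1, m2⟩
    obtain ⟨u1, hu1, hu1'⟩ := h1 m1 m1.2
    obtain ⟨u2, hu2, hu2'⟩ := h2 m2 m2.2
    have hUu : U (u1 + u2) - (u1 + u2) = m1 := by
      rw [map_add]
      calc U u1 + U u2 - (u1 + u2) = (U u1 - u1) + (U u2 - u2) := by abel
        _ = m1 := by rw [hu1, hu2, add_zero]
    have hVu : V (u1 + u2) - (u1 + u2) = m2 := by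
      rw [map_add]
      calc V u1 + V u2 - (u1 + u2) = (V u1 - u1) + (V u2 - u2) := by abel
        _ = m2 := by rw [hu1', hu2', zero_add]
    refine ⟨⟨M.starProjection (u1 + u2), Submodule.starProjection_apply_mem M _⟩, ?_⟩
    ext
    · change U (M.starProjection (u1 + u2)) - M.starProjection (u1 + u2) = m1
      rw [← comm U hU hUM, ← map_sub, hUu]
      exact (Submodule.starProjection_eq_self_iff).2 m1.2
    · change V (M.starProjection (u1 + u2)) - M.starProjection (u1 + u2) = m2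
      rw [← comm V hV hVM, ← map_sub, hVu]
      exact (Submodule.starProjection_eq_self_iff).2 m2.2
  have hfr := LinearMap.finrank_le_finrank_of_surjective hΨ
  rw [Module.finrank_prod] at hfr
  exact Submodule.finrank_eq_zero.1 (by omega)

namespace OrthRep

variable {G E : Type*} [Group G] [TopologicalSpace G] [NormedAddCommGroup E]
    [InnerProductSpace ℝ E] (R : OrthRep G E)

/-- common fixed space of two elements -/
def fix2 (a b : G) : Submodule ℝ E := (R.ρ a - LinearMap.id).ker ⊓ (R.ρ b - LinearMap.id).ker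

lemma mem_fix2 {a b : G} {v : E} : v ∈ R.fix2 a b ↔ R.ρ a v = v ∧ R.ρ b v = v := by
  simp [fix2, sub_eq_zero]

lemma fix2_comm (a b : G) : R.fix2 a b = R.fix2 b a := by
  ext v; rw [mem_fix2, mem_fix2, and_comm]

lemma inner_map (g : G) (x y : E) : ⟪R.ρ g x, R.ρ g y⟫_ℝ = ⟪x, y⟫_ℝ :=
  LinearIsometry.inner_map_map (⟨R.ρ g, R.norm_map g⟩ : E →ₗᵢ[ℝ] E) x y

lemma map_mul_apply (g h : G) (v : E) : R.ρ (g * h) v = R.ρ g (R.ρ h v) := by
  rw [map_mul]; rfl

lemma map_one_apply (v : E) : R.ρ 1 v = v := by rw [map_one]; rfl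

lemma inv_apply_self (g : G) (v : E) : R.ρ g⁻¹ (R.ρ g v) = v := by
  rw [← map_mul_apply, inv_mul_cancel, map_one_apply]

lemma self_apply_inv (g : G) (v : E) : R.ρ g (R.ρ g⁻¹ v) = v := by
  rw [← map_mul_apply, mul_inv_cancel, map_one_apply]

variable [FiniteDimensional ℝ E]

/-- the operator as continuous linear map -/
noncomputable def A (g : G) : E →L[ℝ] E := LinearMap.toContinuousLinearMap (R.ρ g)

@[simp] lemma A_apply (g : G) (v : E) : R.A g v = R.ρ g v := rfl

lemma A_mul (g h : G) : R.A (g * h) = R.A g * R.A h := by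
  ext v; simp

lemma A_one : R.A 1 = 1 := by
  ext v; simp

lemma continuous_A : Continuous R.A := continuous_clm_apply.2 fun v => R.cont v

/-- tangent directions of the image of `G` at the identity -/
def IsTangent (Y : E →L[ℝ] E) : Prop :=
  ∃ (g : ℕ → G) (c : ℕ → ℝ), Tendsto (fun k => R.A (g k)) atTop (𝓝 1) ∧
    Tendsto (fun k => c k • (R.A (g k) - 1)) atTop (𝓝 Y)

lemma IsTangent.conj {Y : E →L[ℝ] E} (hY : R.IsTangent Y) (h : G) :
    R.IsTangent (R.A h * Y * R.A h⁻¹) := by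
  obtain ⟨g, c, h1, h2⟩ := hY
  have hcont : Continuous fun X : E →L[ℝ] E => R.A h * X * R.A h⁻¹ := by fun_prop
  have hinv : R.A h * R.A h⁻¹ = 1 := by rw [← A_mul, mul_inv_cancel, A_one]
  refine ⟨fun k => h * g k * h⁻¹, c, ?_, ?_⟩
  · have := (hcont.tendsto 1).comp h1
    simp only [mul_one, hinv] at this
    refine this.congr fun k => ?_
    simp [A_mul]
  · have := (hcont.tendsto Y).comp h2
    refine this.congr fun k => ?_
    simp only [Function.comp, A_mul]
    rw [mul_smul_comm, smul_mul_assoc, mul_sub, sub_mul, mul_one, hinv]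

/-- the map whose kernel is `fix2` -/
noncomputable def Phi (a b : G) : E →L[ℝ] E × E :=
  (ContinuousLinearMap.inl ℝ E E).comp (R.A a - 1) +
    (ContinuousLinearMap.inr ℝ E E).comp (R.A b - 1)

lemma Phi_apply (a b : G) (v : E) : R.Phi a b v = (R.ρ a v - v, R.ρ b v - v) := by
  simp [Phi]

lemma ker_Phi (a b : G) : ((R.Phi a b : E →L[ℝ] E × E)).ker = R.fix2 a b := by
  ext v
  rw [mem_fix2]
  simp [Phi_apply, sub_eq_zero]

lemma tangent_range {a b : G}
    (hmin : ∀ a' b', Module.finrank ℝ (R.fix2 a b) ≤ Module.finrank ℝ (R.fix2 a' b'))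
    {Y : E →L[ℝ] E} (hY : R.IsTangent Y) {v : E} (hv : v ∈ R.fix2 a b) :
    ∃ u, R.ρ a u - u = Y v ∧ R.ρ b u - u = 0 := by
  obtain ⟨g, c, h1, h2⟩ := hY
  have hv' := R.mem_fix2.1 hv
  have e : ∀ k, R.Phi (g k * a) b - R.Phi a b =
      (ContinuousLinearMap.inl ℝ E E).comp ((R.A (g k) - 1) * R.A a) := by
    intro k
    simp only [Phi, A_mul]
    ext w <;> simp
  have hcont : Continuous fun X : E →L[ℝ] E =>
      (ContinuousLinearMap.inl ℝ E E).comp (X * R.A a) := by fun_prop
  have hΦ : Tendsto (fun k => R.Phi (g k * a) b) atTop (𝓝 (R.Phi a b)) := by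
    have h3 : Tendsto (fun k => (ContinuousLinearMap.inl ℝ E E).comp ((R.A (g k) - 1) * R.A a))
        atTop (𝓝 0) := by
      have h4 : Tendsto (fun k => R.A (g k) - 1) atTop (𝓝 0) := by
        have := h1.sub_const (1 : E →L[ℝ] E)
        simpa using this
      have := (hcont.tendsto 0).comp h4
      simpa [Function.comp_def] using this
    have h5 := h3.add_const (R.Phi a b)
    simp only [zero_add] at h5
    refine h5.congr fun k => ?_
    rw [← e k]; abel
  have hD : Tendsto (fun k => c k • (R.Phi (g k * a) b - R.Phi a b)) atTop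
      (𝓝 ((ContinuousLinearMap.inl ℝ E E).comp (Y * R.A a))) := by
    have := (hcont.tendsto Y).comp h2
    refine this.congr fun k => ?_
    rw [e k]
    simp only [Function.comp]
    rw [smul_mul_assoc, ContinuousLinearMap.comp_smul]
  obtain ⟨u, hu⟩ := tangent_rank (R.Phi a b) (fun k => R.Phi (g k * a) b) hΦ
    (fun k => by rw [ker_Phi, ker_Phi]; exact hmin _ _) c _ hD (v := v)
    (by rw [Phi_apply, hv'.1, hv'.2]; simp)
  refine ⟨u, ?_⟩
  rw [Phi_apply] at hu
  have h6 : (Y * R.A a) v = Y v := by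
    change Y (R.ρ a v) = Y v
    rw [hv'.1]
  simp only [ContinuousLinearMap.coe_comp, comp_apply, ContinuousLinearMap.inl_apply,
    Prod.mk.injEq, h6] at hu
  exact hu

lemma tangent_zero {a b : G}
    (hmin : ∀ a' b', Module.finrank ℝ (R.fix2 a b) ≤ Module.finrank ℝ (R.fix2 a' b'))
    {Y : E →L[ℝ] E} (hY : R.IsTangent Y) {v : E} (hv : v ∈ R.fix2 a b) : Y v = 0 := by
  set M : Submodule ℝ E := Submodule.span ℝ {m | ∃ Y' : E →L[ℝ] E, R.IsTangent Y' ∧ m = Y' v}
    with hM
  have hv' := R.mem_fix2.1 hv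
  have hinv : ∀ h : G, R.ρ h v = v → ∀ m ∈ M, R.ρ h m ∈ M := by
    intro h hh m hm
    induction hm using Submodule.span_induction with
    | mem x hx =>
      obtain ⟨Y', hY', rfl⟩ := hx
      refine Submodule.subset_span ⟨_, hY'.conj R h, ?_⟩
      have : R.ρ h⁻¹ v = v := by
        conv_lhs => rw [← hh]
        exact R.inv_apply_self h v
      simp [this]
    | zero => simp
    | add x y _ _ hx hy => rw [map_add]; exact M.add_mem hx hy
    | smul c x _ hx => rw [map_smul]; exact M.smul_mem c hx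
  have hmin' : ∀ a' b', Module.finrank ℝ (R.fix2 b a) ≤ Module.finrank ℝ (R.fix2 a' b') := by
    intro a' b'
    rw [R.fix2_comm b a]
    exact hmin a' b'
  have key : ∀ a b : G, v ∈ R.fix2 a b →
      (∀ a' b', Module.finrank ℝ (R.fix2 a b) ≤ Module.finrank ℝ (R.fix2 a' b')) →
      ∀ m ∈ M, ∃ u, R.ρ a u - u = m ∧ R.ρ b u - u = 0 := by
    intro a b hv hmin m hm
    induction hm using Submodule.span_induction with
    | mem x hx =>
      obtain ⟨Y', hY', rfl⟩ := hx
      exact R.tangent_range hmin hY' hv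
    | zero => exact ⟨0, by simp, by simp⟩
    | add x y _ _ hx hy =>
      obtain ⟨u, hu1, hu2⟩ := hx
      obtain ⟨u', hu1', hu2'⟩ := hy
      refine ⟨u + u', ?_, ?_⟩
      · rw [map_add, ← hu1, ← hu1']; abel
      · rw [map_add]
        calc R.ρ b u + R.ρ b u' - (u + u') = (R.ρ b u - u) + (R.ρ b u' - u') := by abel
          _ = 0 := by rw [hu2, hu2', add_zero]
    | smul c x _ hx =>
      obtain ⟨u, hu1, hu2⟩ := hx
      refine ⟨c • u, ?_, ?_⟩
      · rw [map_smul, ← smul_sub, hu1]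
      · rw [map_smul, ← smul_sub, hu2, smul_zero]
  have hM0 : M = ⊥ := by
    refine dim_count (R.ρ a) (R.ρ b) (R.norm_map a) (R.norm_map b) M (hinv a hv'.1)
      (hinv b hv'.2) (key a b hv hmin) ?_
    intro m hm
    obtain ⟨u, hu1, hu2⟩ := key b a (by rw [R.fix2_comm]; exact hv) hmin' m hm
    exact ⟨u, hu2, hu1⟩
  have : Y v ∈ M := Submodule.subset_span ⟨Y, hY, rfl⟩
  rw [hM0] at this
  simpa using this

/-- existence of a unit tangent vector -/
lemma exists_tangent [ConnectedSpace G] (hnt : ∃ g v, R.ρ g v ≠ v) :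
    ∃ Y : E →L[ℝ] E, R.IsTangent Y ∧ ‖Y‖ = 1 := by
  obtain ⟨g0, v0, hg0⟩ := hnt
  have hA0 : 0 < ‖R.A g0 - 1‖ := by
    rw [norm_pos_iff]
    intro h
    apply hg0
    have := congrArg (fun X : E →L[ℝ] E => X v0) h
    simpa [sub_eq_zero] using this
  have hcont : Continuous fun g => ‖R.A g - 1‖ := (R.continuous_A.sub continuous_const).norm
  have hval : ∀ k : ℕ, ∃ g : G, ‖R.A g - 1‖ = ‖R.A g0 - 1‖ / (k + 1) := by
    intro k
    have h1 : ‖R.A g0 - 1‖ / (k + 1) ∈ Set.Icc (‖R.A 1 - 1‖) (‖R.A g0 - 1‖) := by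
      rw [A_one, sub_self, norm_zero]
      refine ⟨by positivity, ?_⟩
      rw [div_le_iff₀ (by positivity)]
      nlinarith [hA0.le, Nat.cast_nonneg (α := ℝ) k]
    obtain ⟨g, hg⟩ := intermediate_value_univ (1 : G) g0 hcont h1
    exact ⟨g, hg⟩
  choose g hg using hval
  have hgpos : ∀ k, 0 < ‖R.A (g k) - 1‖ := by
    intro k; rw [hg]; positivity
  -- normalised differences
  set Y : ℕ → E →L[ℝ] E := fun k => (‖R.A (g k) - 1‖)⁻¹ • (R.A (g k) - 1) with hYdef
  have hYmem : ∀ k, Y k ∈ Metric.sphere (0 : E →L[ℝ] E) 1 := by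
    intro k
    simp only [hYdef, mem_sphere_zero_iff_norm, norm_smul, norm_inv, norm_norm]
    exact inv_mul_cancel₀ (hgpos k).ne'
  have : ProperSpace (E →L[ℝ] E) := FiniteDimensional.proper ℝ _
  obtain ⟨Y0, hY0, ψ, hψ, hlim⟩ := (isCompact_sphere (0 : E →L[ℝ] E) 1).tendsto_subseq hYmem
  refine ⟨Y0, ⟨fun k => g (ψ k), fun k => (‖R.A (g (ψ k)) - 1‖)⁻¹, ?_, hlim⟩, by simpa using hY0⟩
  rw [tendsto_iff_norm_sub_tendsto_zero]
  have h1 : Tendsto (fun k : ℕ => ‖R.A (g k) - 1‖) atTop (𝓝 0) := by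
    simp_rw [hg]
    exact tendsto_const_nhds.div_atTop
      (tendsto_atTop_add_const_right _ _ tendsto_natCast_atTop_atTop)
  exact h1.comp hψ.tendsto_atTop

/-- For a nontrivial irreducible representation of a connected group there is a pair
without common fixed vector. -/
theorem exists_pair [ConnectedSpace G] (hnt : ∃ g v, R.ρ g v ≠ v)
    (hirr : ∀ U : Submodule ℝ E, (∀ g, ∀ v ∈ U, R.ρ g v ∈ U) → U = ⊥ ∨ U = ⊤) :
    ∃ a b : G, R.fix2 a b = ⊥ := by
  classical
  -- a minimizer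
  have hne : (Set.range fun p : G × G => Module.finrank ℝ (R.fix2 p.1 p.2)).Nonempty :=
    ⟨_, (1, 1), rfl⟩
  obtain ⟨⟨a, b⟩, hab⟩ := Nat.sInf_mem hne
  have hmin : ∀ a' b', Module.finrank ℝ (R.fix2 a b) ≤ Module.finrank ℝ (R.fix2 a' b') := by
    intro a' b'
    have h0 : Module.finrank ℝ (R.fix2 a' b') ∈
      (Set.range fun p : G × G => Module.finrank ℝ (R.fix2 p.1 p.2)) := ⟨(a', b'), rfl⟩
    have h1 := Nat.sInf_le h0
    rw [← hab] at h1
    exact h1
  refine ⟨a, b, ?_⟩
  by_contra hbot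
  obtain ⟨Y0, hY0, hY0n⟩ := R.exists_tangent hnt
  -- the common kernel of all tangent vectors
  set U : Submodule ℝ E := ⨅ Y : {Y : E →L[ℝ] E // R.IsTangent Y}, (Y.1 : E →L[ℝ] E).ker with hU
  have hUmem : ∀ v, v ∈ U ↔ ∀ Y : E →L[ℝ] E, R.IsTangent Y → Y v = 0 := by
    intro v
    simp [hU, Submodule.mem_iInf]
  have hUinv : ∀ g, ∀ v ∈ U, R.ρ g v ∈ U := by
    intro g v hv
    rw [hUmem] at hv ⊢
    intro Y hY
    have h1 : R.ρ g⁻¹ (Y (R.ρ g v)) = 0 := by simpa using hv _ (hY.conj R g⁻¹)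
    have h2 := congrArg (R.ρ g) h1
    rw [self_apply_inv, map_zero] at h2
    exact h2
  have hle : R.fix2 a b ≤ U := by
    intro v hv
    rw [hUmem]
    intro Y hY
    exact R.tangent_zero hmin hY hv
  rcases hirr U hUinv with h | h
  · rw [h] at hle
    exact hbot (le_bot_iff.1 hle)
  · have : Y0 = 0 := by
      ext v
      have hv : v ∈ U := by rw [h]; trivial
      exact (hUmem v).1 hv Y0 hY0
    rw [this] at hY0n
    simp at hY0n

end OrthRep

end Pool.Agent.H17
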