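import Mathlib
import Pool.Agent.H17.Pair

open Set Function MeasureTheory Filter Topology
open scoped ENNReal InnerProductSpace

namespace Pool.Agent.H17

variable {H : Type*} [Group H] [TopologicalSpace H] [IsTopologicalGroup H]

/-- right translation of functions -/
def rtr (h : H) : (H → ℝ) →ₗ[ℝ] (H → ℝ) where
  toFun f := fun x => f (x * h)
  map_add' _ _ := rfl
  map_smul' _ _ := rfl

omit [TopologicalSpace H] [IsTopologicalGroup H] in
@[simp] lemma rtr_apply (h : H) (f : H → ℝ) (x : H) : rtr h f x = f (x * h) := rfl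

omit [TopologicalSpace H] [IsTopologicalGroup H] in
lemma rtr_rtr (h k : H) (f : H → ℝ) : rtr h (rtr k f) = rtr (h * k) f := by
  funext x; simp [mul_assoc]

omit [TopologicalSpace H] [IsTopologicalGroup H] in
lemma rtr_one (f : H → ℝ) : rtr 1 f = f := by
  funext x; simp

/-- representative functions -/
def IsRepr (f : H → ℝ) : Prop :=
  ∃ L : Submodule ℝ (H → ℝ), FiniteDimensional ℝ L ∧ (∀ h, ∀ u ∈ L, rtr h u ∈ L) ∧
    (∀ u ∈ L, Continuous u) ∧ f ∈ L

/-- common zero set -/
def zeros (U : Submodule ℝ (H → ℝ)) : Set H := {x | ∀ u ∈ U, u x = 0}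

omit [Group H] [IsTopologicalGroup H] in
lemma isClosed_zeros {U : Submodule ℝ (H → ℝ)} (hU : ∀ u ∈ U, Continuous u) :
    IsClosed (zeros U) := by
  have : zeros U = ⋂ u : U, (u : H → ℝ) ⁻¹' {0} := by
    ext x
    simp [zeros]
  rw [this]
  exact isClosed_iInter fun u => isClosed_singleton.preimage (hU _ u.2)

omit [TopologicalSpace H] [IsTopologicalGroup H] in
lemma mem_zeros_map {U : Submodule ℝ (H → ℝ)} {h x : H} :
    x ∈ zeros (U.map (rtr h)) ↔ x * h ∈ zeros U := by
  constructor
  · intro hx u hu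
    exact hx (rtr h u) ⟨u, hu, rfl⟩
  · rintro hx _ ⟨u, hu, rfl⟩
    exact hx u hu

/-- Zero-one law for representative functions on a compact connected group. -/
theorem repr_zero_one [ConnectedSpace H] [MeasurableSpace H] [BorelSpace H]
    (μ : Measure H) [IsFiniteMeasure μ] [μ.IsMulRightInvariant] {f : H → ℝ}
    (hf : IsRepr f) (hf0 : f ≠ 0) : μ {x | f x = 0} = 0 := by
  classical
  obtain ⟨L, hLfin, hLinv, hLcont, hfL⟩ := hf
  by_contra hpos
  -- the family of good subspaces
  let good : Submodule ℝ (H → ℝ) → Prop := fun U => U ≤ L ∧ f ∈ U ∧ μ (zeros U) ≠ 0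
  have hgood0 : good (Submodule.span ℝ {f}) := by
    refine ⟨?_, Submodule.mem_span_singleton_self f, ?_⟩
    · rw [Submodule.span_singleton_le_iff_mem]; exact hfL
    · have : zeros (Submodule.span ℝ {f}) = {x | f x = 0} := by
        ext x
        constructor
        · intro hx
          exact hx f (Submodule.mem_span_singleton_self f)
        · intro hx u hu
          obtain ⟨c, rfl⟩ := Submodule.mem_span_singleton.1 hu
          have : f x = 0 := hx
          simp [this]
      rw [this]; exact hpos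
  -- maximal finrank
  have hbound : ∀ U, good U → Module.finrank ℝ U ≤ Module.finrank ℝ L := by
    intro U hU
    exact Submodule.finrank_mono hU.1
  obtain ⟨U, hU, hmax⟩ : ∃ U, good U ∧ ∀ U', good U' → Module.finrank ℝ U' ≤ Module.finrank ℝ U := by
    have hne : ({n | ∃ U, good U ∧ Module.finrank ℝ U = n} : Set ℕ).Nonempty :=
      ⟨_, _, hgood0, rfl⟩
    have hbdd : BddAbove ({n | ∃ U, good U ∧ Module.finrank ℝ U = n} : Set ℕ) := by
      refine ⟨Module.finrank ℝ L, ?_⟩
      rintro n ⟨U, hU, rfl⟩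
      exact hbound U hU
    obtain ⟨U, hU, hUn⟩ := Nat.sSup_mem hne hbdd
    refine ⟨U, hU, fun U' hU' => ?_⟩
    rw [hUn]
    exact le_csSup hbdd ⟨U', hU', rfl⟩
  have hfinU : FiniteDimensional ℝ U := Submodule.finiteDimensional_of_le hU.1
  have hcontU : ∀ (h : H), ∀ u ∈ U.map (rtr h), Continuous u := by
    rintro h _ ⟨u, hu, rfl⟩
    exact hLcont _ (hLinv h u (hU.1 hu))
  have hzeros_pre : ∀ h, zeros (U.map (rtr h)) = (fun x => x * h) ⁻¹' (zeros U) := by
    intro h; ext x; exact mem_zeros_map
  have hzm : ∀ h, μ (zeros (U.map (rtr h))) = μ (zeros U) := by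
    intro h
    rw [hzeros_pre h]
    exact measure_preimage_mul_right μ h _
  -- intersections of different translates are null
  have hleL : ∀ h, U.map (rtr h) ≤ L := by
    rintro h _ ⟨u, hu, rfl⟩
    exact hLinv h u (hU.1 hu)
  have hmapmap : ∀ h k : H, (U.map (rtr h)).map (rtr k) = U.map (rtr (k * h)) := by
    intro h k
    rw [← Submodule.map_comp]
    congr 1
    ext u x
    simp [mul_assoc]
  have hmapone : U.map (rtr (1 : H)) = U := by
    have : (rtr (1 : H)) = LinearMap.id := by ext u x; simp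
    rw [this, Submodule.map_id]
  have hfr : ∀ h, Module.finrank ℝ (U.map (rtr h)) = Module.finrank ℝ U := by
    intro h
    have hinj : Injective (rtr h) := by
      intro u v huv
      have := congrArg (rtr h⁻¹) huv
      rwa [rtr_rtr, rtr_rtr, inv_mul_cancel, rtr_one, rtr_one] at this
    exact (LinearEquiv.finrank_eq (Submodule.equivMapOfInjective (rtr h) hinj U)).symm
  have hdisj : ∀ h k : H, U.map (rtr h) ≠ U.map (rtr k) →
      μ (zeros (U.map (rtr h)) ∩ zeros (U.map (rtr k))) = 0 := by
    intro h k hhk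
    by_contra hne
    have hinter : zeros (U.map (rtr h)) ∩ zeros (U.map (rtr k)) =
        zeros (U.map (rtr h) ⊔ U.map (rtr k)) := by
      ext x
      constructor
      · rintro ⟨h1, h2⟩ u hu
        obtain ⟨y, hy, z, hz, rfl⟩ := Submodule.mem_sup.1 hu
        simp [h1 y hy, h2 z hz]
      · intro hx
        exact ⟨fun u hu => hx u (Submodule.mem_sup_left hu),
          fun u hu => hx u (Submodule.mem_sup_right hu)⟩
    have hgood' : good (U ⊔ U.map (rtr (h⁻¹ * k))) := by
      refine ⟨sup_le hU.1 (hleL _), Submodule.mem_sup_left hU.2.1, ?_⟩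
      have e : U ⊔ U.map (rtr (h⁻¹ * k)) = (U.map (rtr h) ⊔ U.map (rtr k)).map (rtr h⁻¹) := by
        rw [Submodule.map_sup, hmapmap, hmapmap, inv_mul_cancel, hmapone]
      rw [e]
      have e2 : zeros ((U.map (rtr h) ⊔ U.map (rtr k)).map (rtr h⁻¹)) =
          (fun x => x * h⁻¹) ⁻¹' (zeros (U.map (rtr h) ⊔ U.map (rtr k))) := by
        ext x; exact mem_zeros_map
      rw [e2, measure_preimage_mul_right, ← hinter]
      exact hne
    have h1 := hmax _ hgood'
    have hfin' : FiniteDimensional ℝ (U ⊔ U.map (rtr (h⁻¹ * k)) : Submodule ℝ (H → ℝ)) :=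
      Submodule.finiteDimensional_of_le hgood'.1
    have h2 : U = U ⊔ U.map (rtr (h⁻¹ * k)) :=
      Submodule.eq_of_le_of_finrank_le le_sup_left h1
    have h3 : U.map (rtr (h⁻¹ * k)) ≤ U := sup_eq_left.1 h2.symm
    have h4 : U.map (rtr (h⁻¹ * k)) = U :=
      Submodule.eq_of_le_of_finrank_eq h3 (hfr _)
    apply hhk
    have h5 := congrArg (Submodule.map (rtr h)) h4
    rw [hmapmap, mul_inv_cancel_left] at h5
    exact h5.symm
  -- finitely many translates
  set 𝒱 : Set (Submodule ℝ (H → ℝ)) := Set.range fun h : H => U.map (rtr h) with h𝒱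
  have hfinite : 𝒱.Finite := by
    have h1 : Set.Finite {V : 𝒱 | μ (zeros U) ≤ μ (zeros V.1)} := by
      refine Measure.finite_const_le_meas_of_disjoint_iUnion₀ μ
        (pos_iff_ne_zero.2 hU.2.2) (As := fun V : 𝒱 => zeros V.1) ?_ ?_ (measure_ne_top _ _)
      · rintro ⟨V, h, rfl⟩
        exact (isClosed_zeros (hcontU h)).measurableSet.nullMeasurableSet
      · rintro ⟨V, h, rfl⟩ ⟨V', k, rfl⟩ hne
        exact hdisj h k (fun e => hne (Subtype.ext e))
    have h2 : {V : 𝒱 | μ (zeros U) ≤ μ (zeros V.1)} = Set.univ := by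
      ext ⟨V, h, rfl⟩
      simp [hzm h]
    rw [h2] at h1
    exact Set.finite_coe_iff.1 (Set.finite_univ_iff.1 h1)
  -- fibres are closed
  have hfib : ∀ V ∈ 𝒱, IsClosed {h : H | U.map (rtr h) = V} := by
    rintro V ⟨k, rfl⟩
    have e : {h : H | U.map (rtr h) = U.map (rtr k)} =
        ⋂ u : U, {h : H | rtr h (u : H → ℝ) ∈ U.map (rtr k)} := by
      ext h
      simp only [mem_ofPred_eq, mem_iInter]
      constructor
      · intro e u
        rw [← e]
        exact ⟨u, u.2, rfl⟩
      · intro hu
        apply Submodule.eq_of_le_of_finrank_eq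
        · rintro _ ⟨u, hu', rfl⟩
          exact hu ⟨u, hu'⟩
        · rw [hfr, hfr]
    simp only at e ⊢
    rw [e]
    refine isClosed_iInter fun u => ?_
    have hc : Continuous fun h : H => rtr h (u : H → ℝ) := by
      refine continuous_pi fun x => ?_
      exact (hLcont _ (hU.1 u.2)).comp (continuous_const.mul continuous_id)
    have hcl : IsClosed ((U.map (rtr k) : Submodule ℝ (H → ℝ)) : Set (H → ℝ)) :=
      Submodule.closed_of_finiteDimensional _
    exact hcl.preimage hc
  -- hence the fibre of 1 is everything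
  have hall : ∀ h : H, U.map (rtr h) = U := by
    have hclopen : IsClopen {h : H | U.map (rtr h) = U.map (rtr 1)} := by
      refine ⟨hfib _ ⟨1, rfl⟩, ?_⟩
      rw [← isClosed_compl_iff]
      have e : {h : H | U.map (rtr h) = U.map (rtr 1)}ᶜ =
          ⋃ V ∈ (𝒱 \ {U.map (rtr 1)}), {h : H | U.map (rtr h) = V} := by
        ext h
        simp only [mem_compl_iff, mem_ofPred_eq, mem_iUnion, Set.mem_sdiff, mem_singleton_iff,
          exists_prop]
        constructor
        · intro hne
          exact ⟨_, ⟨⟨h, rfl⟩, hne⟩, rfl⟩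
        · rintro ⟨V, ⟨_, hV⟩, rfl⟩
          exact hV
      rw [e]
      refine Set.Finite.isClosed_biUnion (hfinite.subset sdiff_subset) ?_
      intro V hV
      exact hfib V hV.1
    rcases isClopen_iff.1 hclopen with h | h
    · exfalso
      have : (1 : H) ∈ {h : H | U.map (rtr h) = U.map (rtr 1)} := rfl
      rw [h] at this
      exact this
    · intro k
      have : k ∈ {h : H | U.map (rtr h) = U.map (rtr 1)} := by rw [h]; trivial
      have h2 : U.map (rtr k) = U.map (rtr 1) := this
      rw [h2, hmapone]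
  -- conclusion
  have hne : (zeros U).Nonempty := nonempty_of_measure_ne_zero hU.2.2
  obtain ⟨x0, hx0⟩ := hne
  apply hf0
  funext x
  have h1 : rtr (x0⁻¹ * x) f ∈ U := by
    rw [← hall (x0⁻¹ * x)]
    exact ⟨f, hU.2.1, rfl⟩
  have h2 := hx0 _ h1
  simpa using h2

end Pool.Agent.H17
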