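import Mathlib
import Pool.Agent.H17.ZeroOne

open Set Function MeasureTheory Filter Topology
open scoped ENNReal InnerProductSpace

namespace Pool.Agent.H17

section alg

variable (H : Type*) [Group H] [TopologicalSpace H]

/-- the algebra of representative functions -/
def reprAlg : Subalgebra ℝ (H → ℝ) where
  carrier := {f | IsRepr f}
  mul_mem' := by
    rintro f g ⟨L1, h1, h2, h3, h4⟩ ⟨M1, k1, k2, k3, k4⟩
    refine ⟨L1 * M1, ?_, ?_, ?_, Submodule.mul_mem_mul h4 k4⟩
    · have a1 : L1.FG := (Submodule.fg_iff_finiteDimensional L1).2 h1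
      have a2 : M1.FG := (Submodule.fg_iff_finiteDimensional M1).2 k1
      exact (Submodule.fg_iff_finiteDimensional _).1 (a1.mul a2)
    · intro h u hu
      refine Submodule.mul_induction_on hu ?_ ?_
      · intro m hm n hn
        have : rtr h (m * n) = rtr h m * rtr h n := rfl
        rw [this]
        exact Submodule.mul_mem_mul (h2 h m hm) (k2 h n hn)
      · intro x y hx hy
        rw [map_add]
        exact Submodule.add_mem _ hx hy
    · intro u hu
      refine Submodule.mul_induction_on hu ?_ ?_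
      · intro m hm n hn
        exact (h3 m hm).mul (k3 n hn)
      · intro x y hx hy
        exact hx.add hy
  add_mem' := by
    rintro f g ⟨L1, h1, h2, h3, h4⟩ ⟨M1, k1, k2, k3, k4⟩
    refine ⟨L1 ⊔ M1, inferInstance, ?_, ?_,
      Submodule.add_mem_sup h4 k4⟩
    · intro h u hu
      obtain ⟨y, hy, z, hz, rfl⟩ := Submodule.mem_sup.1 hu
      rw [map_add]
      exact Submodule.add_mem_sup (h2 h y hy) (k2 h z hz)
    · intro u hu
      obtain ⟨y, hy, z, hz, rfl⟩ := Submodule.mem_sup.1 hu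
      exact (h3 y hy).add (k3 z hz)
  algebraMap_mem' := by
    intro r
    refine ⟨Submodule.span ℝ {1}, inferInstance, ?_, ?_, ?_⟩
    · intro h u hu
      obtain ⟨c, rfl⟩ := Submodule.mem_span_singleton.1 hu
      exact Submodule.mem_span_singleton.2 ⟨c, rfl⟩
    · intro u hu
      obtain ⟨c, rfl⟩ := Submodule.mem_span_singleton.1 hu
      exact continuous_const.smul continuous_const
    · exact Submodule.mem_span_singleton.2 ⟨r, by funext x; simp⟩

end alg

namespace OrthRep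

variable {G E : Type*} [Group G] [TopologicalSpace G] [NormedAddCommGroup E]
    [InnerProductSpace ℝ E] (R : OrthRep G E)

lemma continuous_action : Continuous fun p : G × E => R.ρ p.1 p.2 := by
  rw [continuous_iff_continuousAt]
  rintro ⟨g, v⟩
  rw [ContinuousAt, tendsto_iff_norm_sub_tendsto_zero]
  have h1 : Tendsto (fun p : G × E => ‖p.2 - v‖ + ‖R.ρ p.1 v - R.ρ g v‖) (𝓝 (g, v))
      (𝓝 (‖v - v‖ + ‖R.ρ g v - R.ρ g v‖)) := by
    have hc : Continuous fun p : G × E => ‖p.2 - v‖ + ‖R.ρ p.1 v - R.ρ g v‖ :=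
      (continuous_snd.sub continuous_const).norm.add
        (((R.cont v).comp continuous_fst).sub continuous_const).norm
    exact hc.tendsto (g, v)
  simp only [sub_self, norm_zero, add_zero] at h1
  refine squeeze_zero (fun _ => norm_nonneg _) (fun p => ?_) h1
  calc ‖R.ρ p.1 p.2 - R.ρ g v‖ = ‖R.ρ p.1 (p.2 - v) + (R.ρ p.1 v - R.ρ g v)‖ := by
        rw [map_sub]; congr 1; abel
    _ ≤ ‖R.ρ p.1 (p.2 - v)‖ + ‖R.ρ p.1 v - R.ρ g v‖ := norm_add_le _ _
    _ = _ := by rw [R.norm_map]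

variable [FiniteDimensional ℝ E]

/-- Gram matrix of the defect from being fixed by the pair `p`. -/
noncomputable def gram (p : G × G) :
    Matrix (Fin (Module.finrank ℝ E)) (Fin (Module.finrank ℝ E)) ℝ := fun i j =>
  ⟪R.ρ p.1 (stdOrthonormalBasis ℝ E i) - stdOrthonormalBasis ℝ E i,
    R.ρ p.1 (stdOrthonormalBasis ℝ E j) - stdOrthonormalBasis ℝ E j⟫_ℝ +
  ⟪R.ρ p.2 (stdOrthonormalBasis ℝ E i) - stdOrthonormalBasis ℝ E i,
    R.ρ p.2 (stdOrthonormalBasis ℝ E j) - stdOrthonormalBasis ℝ E j⟫_ℝ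

/-- determinant of the Gram matrix -/
noncomputable def detf (p : G × G) : ℝ := (R.gram p).det

lemma continuous_detf : Continuous R.detf := by
  unfold detf
  refine Continuous.matrix_det ?_
  refine continuous_matrix fun i j => ?_
  unfold gram
  have h1 : ∀ k, Continuous fun p : G × G =>
      R.ρ p.1 (stdOrthonormalBasis ℝ E k) - stdOrthonormalBasis ℝ E k := fun k =>
    ((R.cont _).comp continuous_fst).sub continuous_const
  have h2 : ∀ k, Continuous fun p : G × G =>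
      R.ρ p.2 (stdOrthonormalBasis ℝ E k) - stdOrthonormalBasis ℝ E k := fun k =>
    ((R.cont _).comp continuous_snd).sub continuous_const
  exact ((h1 i).inner (h1 j)).add ((h2 i).inner (h2 j))

lemma gram_quadratic (p : G × G) (x : Fin (Module.finrank ℝ E) → ℝ) :
    x ⬝ᵥ ((R.gram p).mulVec x) =
      ‖R.ρ p.1 (∑ i, x i • stdOrthonormalBasis ℝ E i) - ∑ i, x i • stdOrthonormalBasis ℝ E i‖ ^ 2 +
      ‖R.ρ p.2 (∑ i, x i • stdOrthonormalBasis ℝ E i) - ∑ i, x i • stdOrthonormalBasis ℝ E i‖ ^ 2 := by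
  have key : ∀ g : G,
      ‖R.ρ g (∑ i, x i • stdOrthonormalBasis ℝ E i) - ∑ i, x i • stdOrthonormalBasis ℝ E i‖ ^ 2 =
      ∑ i, ∑ j, x i * (⟪R.ρ g (stdOrthonormalBasis ℝ E i) - stdOrthonormalBasis ℝ E i,
        R.ρ g (stdOrthonormalBasis ℝ E j) - stdOrthonormalBasis ℝ E j⟫_ℝ * x j) := by
    intro g
    have e : R.ρ g (∑ i, x i • stdOrthonormalBasis ℝ E i) - ∑ i, x i • stdOrthonormalBasis ℝ E i =
        ∑ i, x i • (R.ρ g (stdOrthonormalBasis ℝ E i) - stdOrthonormalBasis ℝ E i) := by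
      rw [map_sum, ← Finset.sum_sub_distrib]
      refine Finset.sum_congr rfl fun i _ => ?_
      rw [map_smul, smul_sub]
    rw [e, ← real_inner_self_eq_norm_sq, sum_inner]
    refine Finset.sum_congr rfl fun i _ => ?_
    rw [inner_sum]
    refine Finset.sum_congr rfl fun j _ => ?_
    rw [real_inner_smul_left, real_inner_smul_right]
    ring
  rw [key p.1, key p.2, ← Finset.sum_add_distrib]
  simp only [dotProduct, Matrix.mulVec, gram]
  refine Finset.sum_congr rfl fun i _ => ?_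
  rw [← Finset.sum_add_distrib, Finset.mul_sum]
  refine Finset.sum_congr rfl fun j _ => ?_
  ring

lemma detf_ne_zero_iff (p : G × G) : R.detf p ≠ 0 ↔ R.fix2 p.1 p.2 = ⊥ := by
  unfold detf
  rw [Ne, ← Matrix.exists_mulVec_eq_zero_iff]
  constructor
  · intro h
    rw [eq_bot_iff]
    intro v hv
    rw [mem_fix2] at hv
    by_contra hv0
    apply h
    refine ⟨fun i => ⟪stdOrthonormalBasis ℝ E i, v⟫_ℝ, ?_, ?_⟩
    · intro h0
      apply hv0
      have := (stdOrthonormalBasis ℝ E).sum_repr' v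
      rw [← this]
      have h1 : ∀ i, ⟪stdOrthonormalBasis ℝ E i, v⟫_ℝ = 0 := fun i => congrFun h0 i
      simp [h1]
    · funext i
      have h2 : ∀ g : G, R.ρ g v = v → ∑ j,
          ⟪R.ρ g (stdOrthonormalBasis ℝ E i) - stdOrthonormalBasis ℝ E i,
          R.ρ g (stdOrthonormalBasis ℝ E j) - stdOrthonormalBasis ℝ E j⟫_ℝ *
          ⟪stdOrthonormalBasis ℝ E j, v⟫_ℝ = 0 := by
        intro g hg
        have h3 : ∀ j, ⟪R.ρ g (stdOrthonormalBasis ℝ E i) - stdOrthonormalBasis ℝ E i,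
          R.ρ g (stdOrthonormalBasis ℝ E j) - stdOrthonormalBasis ℝ E j⟫_ℝ *
          ⟪stdOrthonormalBasis ℝ E j, v⟫_ℝ =
          ⟪R.ρ g (stdOrthonormalBasis ℝ E i) - stdOrthonormalBasis ℝ E i,
            ⟪stdOrthonormalBasis ℝ E j, v⟫_ℝ •
            (R.ρ g (stdOrthonormalBasis ℝ E j) - stdOrthonormalBasis ℝ E j)⟫_ℝ := by
          intro j
          rw [real_inner_smul_right]; ring
        simp_rw [h3]
        rw [← inner_sum]
        have h4 : ∑ j, ⟪stdOrthonormalBasis ℝ E j, v⟫_ℝ •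
            (R.ρ g (stdOrthonormalBasis ℝ E j) - stdOrthonormalBasis ℝ E j) = 0 := by
          have h5 := (stdOrthonormalBasis ℝ E).sum_repr' v
          calc ∑ j, ⟪stdOrthonormalBasis ℝ E j, v⟫_ℝ •
              (R.ρ g (stdOrthonormalBasis ℝ E j) - stdOrthonormalBasis ℝ E j)
              = R.ρ g (∑ j, ⟪stdOrthonormalBasis ℝ E j, v⟫_ℝ • stdOrthonormalBasis ℝ E j) -
                ∑ j, ⟪stdOrthonormalBasis ℝ E j, v⟫_ℝ • stdOrthonormalBasis ℝ E j := by
                rw [map_sum, ← Finset.sum_sub_distrib]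
                refine Finset.sum_congr rfl fun i _ => ?_
                rw [map_smul, smul_sub]
            _ = 0 := by rw [h5, hg, sub_self]
        rw [h4, inner_zero_right]
      simp only [Matrix.mulVec, dotProduct, gram, Pi.zero_apply]
      simp_rw [add_mul]
      rw [Finset.sum_add_distrib, h2 p.1 hv.1, h2 p.2 hv.2, add_zero]
  · rintro h ⟨x, hx0, hx⟩
    have h1 := R.gram_quadratic p x
    rw [hx, dotProduct_zero] at h1
    set v := ∑ i, x i • stdOrthonormalBasis ℝ E i with hv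
    have h2 : ‖R.ρ p.1 v - v‖ ^ 2 = 0 := by
      have := sq_nonneg ‖R.ρ p.1 v - v‖
      have := sq_nonneg ‖R.ρ p.2 v - v‖
      linarith
    have h3 : ‖R.ρ p.2 v - v‖ ^ 2 = 0 := by
      have := sq_nonneg ‖R.ρ p.1 v - v‖
      have := sq_nonneg ‖R.ρ p.2 v - v‖
      linarith
    have h4 : v ∈ R.fix2 p.1 p.2 := by
      rw [mem_fix2]
      constructor
      · rw [← sub_eq_zero, ← norm_eq_zero]; exact pow_eq_zero_iff (by norm_num) |>.1 h2
      · rw [← sub_eq_zero, ← norm_eq_zero]; exact pow_eq_zero_iff (by norm_num) |>.1 h3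
    rw [h, Submodule.mem_bot] at h4
    apply hx0
    funext i
    have h5 := (stdOrthonormalBasis ℝ E).toBasis.linearIndependent
    rw [Fintype.linearIndependent_iff] at h5
    refine h5 x ?_ i
    rw [← h4, hv]
    simp



lemma coeff_mem_reprAlg_fst (v w : E) :
    (fun p : G × G => ⟪w, R.ρ p.1 v⟫_ℝ) ∈ reprAlg (G × G) := by
  let ℓ : E →ₗ[ℝ] (G × G → ℝ) :=
    { toFun := fun v p => ⟪w, R.ρ p.1 v⟫_ℝ
      map_add' := fun x y => by funext p; simp [inner_add_right]
      map_smul' := fun c x => by funext p; simp [inner_smul_right] }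
  refine ⟨LinearMap.range ℓ, inferInstance, ?_, ?_, ⟨v, rfl⟩⟩
  · rintro h _ ⟨u, rfl⟩
    refine ⟨R.ρ h.1 u, ?_⟩
    funext p
    change ⟪w, R.ρ p.1 (R.ρ h.1 u)⟫_ℝ = ⟪w, R.ρ (p * h).1 u⟫_ℝ
    rw [Prod.fst_mul, map_mul_apply]
  · rintro _ ⟨u, rfl⟩
    exact continuous_const.inner ((R.cont u).comp continuous_fst)

lemma coeff_mem_reprAlg_snd (v w : E) :
    (fun p : G × G => ⟪w, R.ρ p.2 v⟫_ℝ) ∈ reprAlg (G × G) := by
  let ℓ : E →ₗ[ℝ] (G × G → ℝ) :=
    { toFun := fun v p => ⟪w, R.ρ p.2 v⟫_ℝ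
      map_add' := fun x y => by funext p; simp [inner_add_right]
      map_smul' := fun c x => by funext p; simp [inner_smul_right] }
  refine ⟨LinearMap.range ℓ, inferInstance, ?_, ?_, ⟨v, rfl⟩⟩
  · rintro h _ ⟨u, rfl⟩
    refine ⟨R.ρ h.2 u, ?_⟩
    funext p
    change ⟪w, R.ρ p.2 (R.ρ h.2 u)⟫_ℝ = ⟪w, R.ρ (p * h).2 u⟫_ℝ
    rw [Prod.snd_mul, map_mul_apply]
  · rintro _ ⟨u, rfl⟩
    exact continuous_const.inner ((R.cont u).comp continuous_snd)

lemma detf_mem : R.detf ∈ reprAlg (G × G) := by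
  have hentry : ∀ i j, (fun p => R.gram p i j) ∈ reprAlg (G × G) := by
    intro i j
    have e : (fun p => R.gram p i j) =
        algebraMap ℝ (G × G → ℝ) (4 * ⟪stdOrthonormalBasis ℝ E i, stdOrthonormalBasis ℝ E j⟫_ℝ)
        - (fun p => ⟪stdOrthonormalBasis ℝ E j, R.ρ p.1 (stdOrthonormalBasis ℝ E i)⟫_ℝ)
        - (fun p => ⟪stdOrthonormalBasis ℝ E i, R.ρ p.1 (stdOrthonormalBasis ℝ E j)⟫_ℝ)
        - (fun p => ⟪stdOrthonormalBasis ℝ E j, R.ρ p.2 (stdOrthonormalBasis ℝ E i)⟫_ℝ)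
        - (fun p => ⟪stdOrthonormalBasis ℝ E i, R.ρ p.2 (stdOrthonormalBasis ℝ E j)⟫_ℝ) := by
      funext p
      simp only [gram, inner_sub_left, inner_sub_right, R.inner_map, Pi.sub_apply,
        Pi.algebraMap_apply, Algebra.algebraMap_self, RingHom.id_apply]
      rw [real_inner_comm (stdOrthonormalBasis ℝ E j) (R.ρ p.1 (stdOrthonormalBasis ℝ E i)),
        real_inner_comm (stdOrthonormalBasis ℝ E j) (R.ρ p.2 (stdOrthonormalBasis ℝ E i))]
      ring
    rw [e]
    refine Subalgebra.sub_mem _ (Subalgebra.sub_mem _ (Subalgebra.sub_mem _ (Subalgebra.sub_mem _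
      (Subalgebra.algebraMap_mem _ _) ?_) ?_) ?_) ?_
    · exact R.coeff_mem_reprAlg_fst _ _
    · exact R.coeff_mem_reprAlg_fst _ _
    · exact R.coeff_mem_reprAlg_snd _ _
    · exact R.coeff_mem_reprAlg_snd _ _
  have e : R.detf = ∑ σ : Equiv.Perm (Fin (Module.finrank ℝ E)),
      (Equiv.Perm.sign σ : ℤ) • ∏ i, (fun p => R.gram p (σ i) i) := by
    funext p
    simp only [detf, Matrix.det_apply, Finset.sum_apply, Pi.smul_apply, Finset.prod_apply]
    rfl
  rw [e]
  refine Subalgebra.sum_mem _ fun σ _ => ?_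
  refine zsmul_mem ?_ _
  exact Subalgebra.prod_mem _ fun i _ => hentry _ _

end OrthRep

end Pool.Agent.H17
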