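import Mathlib
import Pool.Agent.H17.Generic

open Set Function MeasureTheory Filter Topology
open scoped ENNReal InnerProductSpace

namespace Pool.Agent.H17

namespace OrthRep

universe u v

variable {G : Type u} [Group G] [TopologicalSpace G]

section restrict

variable {E : Type v} [NormedAddCommGroup E]
    [InnerProductSpace ℝ E] (R : OrthRep G E)

/-- restriction to an invariant subspace -/
def restrict (U : Submodule ℝ E) (hU : ∀ g, ∀ v ∈ U, R.ρ g v ∈ U) : OrthRep G U where
  ρ :=
    { toFun := fun g => (R.ρ g).restrict (hU g)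
      map_one' := by ext x; simp
      map_mul' := by intro g h; ext x; simp }
  norm_map g v := R.norm_map g v
  cont v := Continuous.subtype_mk (R.cont (v : E)) _

@[simp] lemma restrict_apply (U : Submodule ℝ E) (hU : ∀ g, ∀ v ∈ U, R.ρ g v ∈ U) (g : G) (v : U) :
    (((R.restrict U hU).ρ g v : U) : E) = R.ρ g v := rfl

lemma orthogonal_invariant (U : Submodule ℝ E) (hU : ∀ g, ∀ v ∈ U, R.ρ g v ∈ U) :
    ∀ g, ∀ v ∈ Uᗮ, R.ρ g v ∈ Uᗮ := by
  intro g v hv
  rw [Submodule.mem_orthogonal]
  intro u hu
  have h1 : u = R.ρ g (R.ρ g⁻¹ u) := (R.self_apply_inv g u).symm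
  rw [h1, R.inner_map]
  exact (Submodule.mem_orthogonal U v).1 hv _ (hU _ _ hu)

lemma proj_comm [FiniteDimensional ℝ E] (U : Submodule ℝ E)
    (hU : ∀ g, ∀ v ∈ U, R.ρ g v ∈ U) (g : G) (x : E) :
    U.starProjection (R.ρ g x) = R.ρ g (U.starProjection x) := by
  have hx : R.ρ g x = R.ρ g (U.starProjection x) + R.ρ g (x - U.starProjection x) := by
    rw [← map_add]; congr 1; abel
  rw [hx, map_add]
  have e1 : U.starProjection (R.ρ g (U.starProjection x)) = R.ρ g (U.starProjection x) :=
    (Submodule.starProjection_eq_self_iff).2 (hU g _ (Submodule.starProjection_apply_mem U x))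
  have e2 : U.starProjection (R.ρ g (x - U.starProjection x)) = 0 :=
    (Submodule.starProjection_apply_eq_zero_iff U).2
      (R.orthogonal_invariant U hU g _ (Submodule.sub_starProjection_mem_orthogonal x))
  rw [e1, e2, add_zero]

end restrict

variable [IsTopologicalGroup G] [ConnectedSpace G] [MeasurableSpace G]
  [BorelSpace G] [SecondCountableTopology G]

/-- generic pairs have no common fixed vector -/
theorem ae_fix2_aux (μ : Measure G) [IsFiniteMeasure μ] [μ.IsMulRightInvariant] (n : ℕ) :
    ∀ (E : Type v) [NormedAddCommGroup E] [InnerProductSpace ℝ E] [FiniteDimensional ℝ E]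
      (R : OrthRep G E), Module.finrank ℝ E = n → (∀ v, (∀ g, R.ρ g v = v) → v = 0) →
      ∀ᵐ p ∂(μ.prod μ), R.fix2 p.1 p.2 = ⊥ := by
  induction n using Nat.strong_induction_on with
  | _ n ih =>
    intro E _ _ _ R hn hfix
    by_cases hE : Subsingleton E
    · refine Eventually.of_forall fun p => ?_
      rw [eq_bot_iff]
      intro v _
      exact Subsingleton.elim v 0
    have hE' : Nontrivial E := not_subsingleton_iff_nontrivial.1 hE
    by_cases hirr : ∀ U : Submodule ℝ E, (∀ g, ∀ v ∈ U, R.ρ g v ∈ U) → U = ⊥ ∨ U = ⊤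
    · -- irreducible case
      have hnt : ∃ g v, R.ρ g v ≠ v := by
        obtain ⟨v, hv⟩ := exists_ne (0 : E)
        by_contra hcon
        push Not at hcon
        exact hv (hfix v fun g => hcon g v)
      obtain ⟨a, b, hab⟩ := R.exists_pair hnt hirr
      have h1 : R.detf ≠ 0 := by
        intro h0
        have h2 := (R.detf_ne_zero_iff (a, b)).2 hab
        exact h2 (congrFun h0 (a, b))
      have h2 := repr_zero_one (μ.prod μ) R.detf_mem h1
      rw [← compl_compl {x | R.detf x = 0}] at h2
      have h3 : ∀ᵐ p ∂(μ.prod μ), p ∈ {x | R.detf x = 0}ᶜ := h2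
      filter_upwards [h3] with p hp
      exact (R.detf_ne_zero_iff p).1 hp
    · -- reducible case
      push Not at hirr
      obtain ⟨U, hU, hU1, hU2⟩ := hirr
      have hUo := R.orthogonal_invariant U hU
      have hlt1 : Module.finrank ℝ U < n := by
        rw [← hn]; exact Submodule.finrank_lt hU2
      have hlt2 : Module.finrank ℝ Uᗮ < n := by
        rw [← hn]
        refine Submodule.finrank_lt ?_
        intro h
        apply hU1
        rw [Submodule.orthogonal_eq_top_iff] at h
        exact h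
      have i1 := ih _ hlt1 U (R.restrict U hU) rfl (by
        intro v hv
        have := hfix v (fun g => by
          have := congrArg (Subtype.val) (hv g)
          simpa using this)
        exact Subtype.ext this)
      have i2 := ih _ hlt2 (Uᗮ : Submodule ℝ E) (R.restrict Uᗮ hUo) rfl (by
        intro v hv
        have := hfix v (fun g => by
          have := congrArg (Subtype.val) (hv g)
          simpa using this)
        exact Subtype.ext this)
      filter_upwards [i1, i2] with p hp1 hp2
      rw [eq_bot_iff]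
      intro v hv
      rw [mem_fix2] at hv
      have h1 : U.starProjection v = 0 := by
        have hmem : (⟨U.starProjection v, Submodule.starProjection_apply_mem U v⟩ : U) ∈
            (R.restrict U hU).fix2 p.1 p.2 := by
          rw [mem_fix2]
          constructor
          · apply Subtype.ext
            rw [restrict_apply]
            change R.ρ p.1 (U.starProjection v) = U.starProjection v
            rw [← R.proj_comm U hU, hv.1]
          · apply Subtype.ext
            rw [restrict_apply]
            change R.ρ p.2 (U.starProjection v) = U.starProjection v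
            rw [← R.proj_comm U hU, hv.2]
        rw [hp1, Submodule.mem_bot] at hmem
        exact congrArg Subtype.val hmem
      have hvU : v ∈ Uᗮ := (Submodule.starProjection_apply_eq_zero_iff U).1 h1
      have hmem : (⟨v, hvU⟩ : (Uᗮ : Submodule ℝ E)) ∈ (R.restrict Uᗮ hUo).fix2 p.1 p.2 := by
        rw [mem_fix2]
        exact ⟨Subtype.ext hv.1, Subtype.ext hv.2⟩
      rw [hp2, Submodule.mem_bot] at hmem
      exact congrArg Subtype.val hmem

theorem ae_detf_ne_zero (μ : Measure G) [IsFiniteMeasure μ] [μ.IsMulRightInvariant]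
    {E : Type v} [NormedAddCommGroup E] [InnerProductSpace ℝ E] [FiniteDimensional ℝ E]
    (R : OrthRep G E) (hfix : ∀ v, (∀ g, R.ρ g v = v) → v = 0) :
    ∀ᵐ p ∂(μ.prod μ), R.detf p ≠ 0 := by
  filter_upwards [ae_fix2_aux μ _ E R rfl hfix] with p hp
  exact (R.detf_ne_zero_iff p).2 hp

/-- quantitative version -/
lemma exists_lower_bound [CompactSpace G] {E : Type v} [NormedAddCommGroup E]
    [InnerProductSpace ℝ E] [FiniteDimensional ℝ E] (R : OrthRep G E) {δ : ℝ} (hδ : 0 < δ) :
    ∃ c : ℝ, 0 < c ∧ ∀ p : G × G, δ ≤ |R.detf p| → ∀ v : E,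
      c * ‖v‖ ≤ ‖R.ρ p.1 v - v‖ + ‖R.ρ p.2 v - v‖ := by
  set S : Set ((G × G) × E) := {p | δ ≤ |R.detf p|} ×ˢ Metric.sphere (0 : E) 1 with hS
  have hclosed : IsClosed {p : G × G | δ ≤ |R.detf p|} :=
    isClosed_le continuous_const R.continuous_detf.abs
  have hcomp : IsCompact S := hclosed.isCompact.prod (isCompact_sphere _ _)
  set f : (G × G) × E → ℝ := fun q => ‖R.ρ q.1.1 q.2 - q.2‖ + ‖R.ρ q.1.2 q.2 - q.2‖ with hf
  have hfc : Continuous f := by
    have h1 : Continuous fun q : (G × G) × E => R.ρ q.1.1 q.2 :=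
      R.continuous_action.comp
        (Continuous.prodMk (continuous_fst.comp continuous_fst) continuous_snd)
    have h2 : Continuous fun q : (G × G) × E => R.ρ q.1.2 q.2 :=
      R.continuous_action.comp
        (Continuous.prodMk (continuous_snd.comp continuous_fst) continuous_snd)
    exact (h1.sub continuous_snd).norm.add (h2.sub continuous_snd).norm
  have hpos : ∀ q ∈ S, 0 < f q := by
    rintro ⟨p, v⟩ ⟨hp, hv⟩
    have hp' : δ ≤ |R.detf p| := hp
    have hv' : ‖v‖ = 1 := by simpa using hv
    have hne : R.detf p ≠ 0 := by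
      intro h
      rw [h, abs_zero] at hp'
      linarith
    have hbot := (R.detf_ne_zero_iff p).1 hne
    by_contra hcon
    have h0 : ‖R.ρ p.1 v - v‖ + ‖R.ρ p.2 v - v‖ ≤ 0 := not_lt.1 hcon
    have h1 : ‖R.ρ p.1 v - v‖ = 0 := by
      have := norm_nonneg (R.ρ p.1 v - v)
      have := norm_nonneg (R.ρ p.2 v - v)
      linarith
    have h2 : ‖R.ρ p.2 v - v‖ = 0 := by
      have := norm_nonneg (R.ρ p.1 v - v)
      have := norm_nonneg (R.ρ p.2 v - v)
      linarith
    have h3 : v ∈ R.fix2 p.1 p.2 := by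
      rw [mem_fix2]
      exact ⟨sub_eq_zero.1 (norm_eq_zero.1 h1), sub_eq_zero.1 (norm_eq_zero.1 h2)⟩
    rw [hbot, Submodule.mem_bot] at h3
    rw [h3] at hv'
    simp at hv'
  obtain ⟨c, hc0, hc⟩ : ∃ c : ℝ, 0 < c ∧ ∀ q ∈ S, c ≤ f q := by
    rcases S.eq_empty_or_nonempty with h | h
    · exact ⟨1, one_pos, by simp [h]⟩
    · obtain ⟨q, hq, hmin⟩ := hcomp.exists_isMinOn h hfc.continuousOn
      exact ⟨f q, hpos q hq, fun q' hq' => hmin hq'⟩
  refine ⟨c, hc0, fun p hp v => ?_⟩
  by_cases hv : v = 0
  · subst hv; simp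
  have hv' : 0 < ‖v‖ := norm_pos_iff.2 hv
  have h1 := hc (p, ‖v‖⁻¹ • v) ⟨hp, by
    rw [mem_sphere_zero_iff_norm, norm_smul, norm_inv, norm_norm]
    exact inv_mul_cancel₀ hv'.ne'⟩
  simp only [hf, map_smul, ← smul_sub, norm_smul, norm_inv, norm_norm] at h1
  rw [← mul_add] at h1
  calc c * ‖v‖ ≤ (‖v‖⁻¹ * (‖R.ρ p.1 v - v‖ + ‖R.ρ p.2 v - v‖)) * ‖v‖ := by gcongr
    _ = _ := by field_simp

end OrthRep

end Pool.Agent.H17
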