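import Mathlib

set_option linter.unusedSectionVars false

open Set Function MeasureTheory Filter Topology
open scoped ENNReal InnerProductSpace

namespace Pool.Agent.H17

universe u v

section single

variable {Z : Type v} [MeasurableSpace Z] (m : Measure Z) [IsProbabilityMeasure m]

/-- Birkhoff averages of an indicator function -/
noncomputable def avg (S : Z → Z) (A : Set Z) (N : ℕ) (z : Z) : ℝ :=
  (N : ℝ)⁻¹ * ∑ k ∈ Finset.range N, A.indicator (fun _ => (1 : ℝ)) (S^[k] z)

lemma measurable_avg {S : Z → Z} (hS : Measurable S) {A : Set Z} (hA : MeasurableSet A) (N : ℕ) :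
    Measurable (avg S A N) := by
  unfold avg
  refine Measurable.const_mul ?_ _
  refine Finset.measurable_fun_sum _ fun k _ => ?_
  exact (measurable_const.indicator hA).comp (hS.iterate k)

lemma avg_integral {S : Z → Z} (hS : MeasurePreserving S m m) {A E : Set Z}
    (hA : MeasurableSet A) (hE : MeasurableSet E) (hinv : S ⁻¹' E = E) {N : ℕ} (hN : 1 ≤ N) :
    ∫ z in E, avg S A N z ∂m = m.real (A ∩ E) := by
  unfold avg
  rw [integral_const_mul]
  have hk : ∀ k, ∫ z in E, A.indicator (fun _ => (1 : ℝ)) (S^[k] z) ∂m = m.real (A ∩ E) := by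
    intro k
    rw [← integral_indicator hE]
    have h1 : ∀ z, E.indicator (fun z => A.indicator (fun _ => (1 : ℝ)) (S^[k] z)) z =
        (A ∩ E).indicator (fun _ => (1 : ℝ)) (S^[k] z) := by
      intro z
      have h2 : S^[k] z ∈ E ↔ z ∈ E := by
        have : (S^[k]) ⁻¹' E = E := IsFixedPt.preimage_iterate hinv k
        constructor
        · intro h
          rw [← this]
          exact h
        · intro h
          rw [← this] at h
          exact h
      by_cases hz : z ∈ E
      · rw [indicator_of_mem hz]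
        by_cases hz2 : S^[k] z ∈ A
        · have h5 : S^[k] z ∈ A ∩ E := ⟨hz2, h2.2 hz⟩
          rw [indicator_of_mem hz2, indicator_of_mem h5]
        · have h5 : S^[k] z ∉ A ∩ E := fun h => hz2 h.1
          rw [indicator_of_notMem hz2, indicator_of_notMem h5]
      · have h5 : S^[k] z ∉ A ∩ E := fun h => hz (h2.1 h.2)
        rw [indicator_of_notMem hz, indicator_of_notMem h5]
    simp_rw [h1]
    have hmk := hS.iterate k
    have h3 : ∫ z, (A ∩ E).indicator (fun _ => (1 : ℝ)) (S^[k] z) ∂m =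
        ∫ z, (A ∩ E).indicator (fun _ => (1 : ℝ)) z ∂(m.map (S^[k])) := by
      rw [integral_map hmk.aemeasurable]
      exact (measurable_const.indicator (hA.inter hE)).aestronglyMeasurable
    rw [h3, hmk.map_eq, integral_indicator (hA.inter hE)]
    simp
  rw [integral_finsetSum]
  · simp_rw [hk]
    rw [Finset.sum_const, Finset.card_range, nsmul_eq_mul, ← mul_assoc, inv_mul_cancel₀, one_mul]
    exact_mod_cast (by omega : N ≠ 0)
  · intro k _
    refine Integrable.integrableOn ?_
    have h4 : Integrable (A.indicator (fun _ => (1 : ℝ))) m :=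
      (integrable_const _).indicator hA
    exact (hS.iterate k).integrable_comp_of_integrable h4

lemma ergodic_of_avg (C : Set (Set Z)) (hCgen : ‹MeasurableSpace Z› = MeasurableSpace.generateFrom C)
    (hCpi : IsPiSystem C) {S : Z → Z} (hS : MeasurePreserving S m m)
    (h : ∀ A ∈ C, liminf (fun N : ℕ => ∫⁻ z, ‖avg S A N z - m.real A‖ₑ ∂m) atTop = 0) :
    Ergodic S m := by
  refine ⟨hS, ⟨fun E hE hinv => ?_⟩⟩
  have hCm : ∀ A ∈ C, MeasurableSet A := by
    intro A hA
    rw [hCgen]
    exact MeasurableSpace.measurableSet_generateFrom hA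
  have hind : ∀ A ∈ C, m (A ∩ E) = m E * m A := by
    intro A hA
    have h1 : ∀ N : ℕ, 1 ≤ N → ‖m.real (A ∩ E) - m.real A * m.real E‖ₑ ≤
        ∫⁻ z, ‖avg S A N z - m.real A‖ₑ ∂m := by
      intro N hN
      have h2 : ∫ z in E, (avg S A N z - m.real A) ∂m =
          m.real (A ∩ E) - m.real A * m.real E := by
        rw [integral_sub, avg_integral m hS (hCm A hA) hE hinv hN]
        · simp [mul_comm]
        · by_contra hcon
          -- boundedness of the averages
          apply hcon
          refine Integrable.integrableOn ?_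
          unfold avg
          refine Integrable.const_mul ?_ _
          refine integrable_finsetSum _ fun k _ => ?_
          have h4 : Integrable (A.indicator (fun _ => (1 : ℝ))) m :=
            (integrable_const _).indicator (hCm A hA)
          exact (hS.iterate k).integrable_comp_of_integrable h4
        · exact integrable_const _
      rw [← h2]
      calc ‖∫ z in E, (avg S A N z - m.real A) ∂m‖ₑ
          ≤ ∫⁻ z in E, ‖avg S A N z - m.real A‖ₑ ∂m := enorm_integral_le_lintegral_enorm _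
        _ ≤ ∫⁻ z, ‖avg S A N z - m.real A‖ₑ ∂m := setLIntegral_le_lintegral _ _
    have h3 : ‖m.real (A ∩ E) - m.real A * m.real E‖ₑ ≤ 0 := by
      rw [← h A hA]
      refine le_liminf_of_le (by isBoundedDefault) ?_
      filter_upwards [eventually_ge_atTop 1] with N hN
      exact h1 N hN
    have h4 : m.real (A ∩ E) - m.real A * m.real E = 0 := by
      simpa using h3
    have h5 : m.real (A ∩ E) = m.real E * m.real A := by linarith
    rw [measureReal_def, measureReal_def, measureReal_def, ← ENNReal.toReal_mul] at h5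
    exact (ENNReal.toReal_eq_toReal_iff' (measure_ne_top _ _)
      (ENNReal.mul_ne_top (measure_ne_top _ _) (measure_ne_top _ _))).1 h5
  have hfin : IsFiniteMeasure (m.restrict E) := inferInstance
  have heq : m.restrict E = m E • m := by
    refine ext_of_generate_finite C hCgen hCpi ?_ ?_
    · intro A hA
      rw [Measure.restrict_apply (hCm A hA), hind A hA]
      simp
    · simp
  have h6 : m E = m E * m E := by
    have := congrArg (fun ν : Measure Z => ν E) heq
    simpa [Measure.restrict_apply hE] using this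
  rcases eq_or_ne (m E) 0 with h0 | h0
  · rw [eventuallyConst_set']
    left
    exact ae_eq_empty.2 h0
  · rw [eventuallyConst_set']
    right
    have h7 : m E = 1 := by
      have h8 : m E * 1 = m E * m E := by rw [mul_one]; exact h6
      exact ((ENNReal.mul_right_inj h0 (measure_ne_top _ _)).1 h8).symm
    rw [ae_eq_univ, prob_compl_eq_zero_iff hE]
    exact h7

end single

section family

variable {Θ : Type u} {Z : Type v} [MeasurableSpace Θ] [MeasurableSpace Z]
  (θ : Measure Θ) [IsProbabilityMeasure θ] (m : Measure Z) [IsProbabilityMeasure m]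
  {S : Θ → Z → Z}

/-- the total map -/
def tot (S : Θ → Z → Z) (z : Θ × Z) : Θ × Z := (z.1, S z.1 z.2)

lemma tot_iterate (S : Θ → Z → Z) (k : ℕ) (z : Θ × Z) :
    (tot S)^[k] z = (z.1, (S z.1)^[k] z.2) := by
  induction k with
  | zero => rfl
  | succ k ih =>
    rw [iterate_succ_apply', ih, iterate_succ_apply']
    rfl

lemma tot_mp (hSm : Measurable (uncurry S)) (hS : ∀ g, MeasurePreserving (S g) m m) :
    MeasurePreserving (tot S) (θ.prod m) (θ.prod m) :=
  MeasurePreserving.skew_product (MeasurePreserving.id θ) hSm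
    (Eventually.of_forall fun g => (hS g).map_eq)

lemma tendsto_avg (hSm : Measurable (uncurry S)) (hS : ∀ g, MeasurePreserving (S g) m m)
    (hinv : ∀ Ψ : Θ × Z → ℝ, StronglyMeasurable Ψ → MemLp Ψ 2 (θ.prod m) →
      (∀ᵐ z ∂(θ.prod m), Ψ (z.1, S z.1 z.2) = Ψ z) →
      ∃ c : Θ → ℝ, Measurable c ∧ ∀ᵐ z ∂(θ.prod m), Ψ z = c z.1)
    {A : Set Z} (hA : MeasurableSet A) :
    Tendsto (fun N : ℕ => ∫⁻ z, ‖avg (S z.1) A N z.2 - m.real A‖ₑ ∂(θ.prod m)) atTop (𝓝 0) := by
  have htot := tot_mp θ m hSm hS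
  set K : Lp ℝ 2 (θ.prod m) →ₗᵢ[ℝ] Lp ℝ 2 (θ.prod m) :=
    Lp.compMeasurePreservingₗᵢ ℝ (tot S) htot with hK
  have hind : MemLp (A.indicator (fun _ => (1 : ℝ))) 2 m :=
    (memLp_const (1 : ℝ)).indicator hA
  have hu : MemLp (fun z : Θ × Z => A.indicator (fun _ => (1 : ℝ)) z.2) 2 (θ.prod m) :=
    hind.comp_measurePreserving measurePreserving_snd
  set û : Lp ℝ 2 (θ.prod m) := hu.toLp with hû
  set c₀ : Lp ℝ 2 (θ.prod m) := Lp.const 2 (θ.prod m) (m.real A) with hc₀
  have hc₀ae : (c₀ : Θ × Z → ℝ) =ᵐ[θ.prod m] fun _ => m.real A := Lp.coeFn_const _ _ _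
  -- iterates
  have hiter : ∀ k : ℕ, ((K : Lp ℝ 2 (θ.prod m) → Lp ℝ 2 (θ.prod m))^[k] û : Θ × Z → ℝ)
      =ᵐ[θ.prod m] fun z => A.indicator (fun _ => (1 : ℝ)) ((S z.1)^[k] z.2) := by
    intro k
    have h1 : (K : Lp ℝ 2 (θ.prod m) → Lp ℝ 2 (θ.prod m))^[k] û =
        Lp.compMeasurePreserving ((tot S)^[k]) (htot.iterate k) û := by
      have := Lp.compMeasurePreserving_iterate (E := ℝ) (p := 2) htot k
      exact congrFun this û
    rw [h1]
    have h2 := Lp.coeFn_compMeasurePreserving û (htot.iterate k)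
    have h3 : (û : Θ × Z → ℝ) ∘ (tot S)^[k] =ᵐ[θ.prod m]
        (fun z : Θ × Z => A.indicator (fun _ => (1 : ℝ)) z.2) ∘ (tot S)^[k] :=
      (htot.iterate k).quasiMeasurePreserving.ae_eq_comp hu.coeFn_toLp
    filter_upwards [h2, h3] with z h4 h5
    rw [h4, h5]
    simp only [comp_apply]
    rw [tot_iterate]
  have hbirk : ∀ N : ℕ, ((birkhoffAverage ℝ (K : Lp ℝ 2 (θ.prod m) → Lp ℝ 2 (θ.prod m))
      _root_.id N û : Lp ℝ 2 (θ.prod m)) : Θ × Z → ℝ) =ᵐ[θ.prod m]
      fun z => avg (S z.1) A N z.2 := by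
    intro N
    unfold birkhoffAverage birkhoffSum avg
    have h1 := Lp.coeFn_smul ((N : ℝ)⁻¹) (∑ k ∈ Finset.range N,
      _root_.id ((K : Lp ℝ 2 (θ.prod m) → Lp ℝ 2 (θ.prod m))^[k] û))
    have h2 := Lp.coeFn_finsetSum (Finset.range N)
      (fun k => _root_.id ((K : Lp ℝ 2 (θ.prod m) → Lp ℝ 2 (θ.prod m))^[k] û))
    filter_upwards [h1, h2, ae_all_iff.2 hiter] with z h3 h4 h5
    rw [h3, Pi.smul_apply, h4, Finset.sum_apply, smul_eq_mul]
    congr 1
    refine Finset.sum_congr rfl fun k _ => h5 k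
  -- the limit
  have hfix : ∀ w : Lp ℝ 2 (θ.prod m), w ∈ (K.toContinuousLinearMap).eqLocus
      (1 : Lp ℝ 2 (θ.prod m) →L[ℝ] Lp ℝ 2 (θ.prod m)) ↔ K w = w := by
    intro w
    simp
  have hmean := ContinuousLinearMap.tendsto_birkhoffAverage_orthogonalProjection
    (K.toContinuousLinearMap) (K.norm_toContinuousLinearMap_le) û
  have hlim : ((K.toContinuousLinearMap).eqLocus
      (1 : Lp ℝ 2 (θ.prod m) →L[ℝ] Lp ℝ 2 (θ.prod m))).starProjection û = c₀ := by
    refine Submodule.eq_starProjection_of_mem_of_inner_eq_zero ?_ ?_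
    · rw [hfix]
      apply Lp.ext
      have h1 := Lp.coeFn_compMeasurePreserving c₀ htot
      have h2 : (c₀ : Θ × Z → ℝ) ∘ (tot S) =ᵐ[θ.prod m] (fun _ => m.real A) ∘ (tot S) :=
        htot.quasiMeasurePreserving.ae_eq_comp hc₀ae
      change (Lp.compMeasurePreserving (tot S) htot c₀ : Θ × Z → ℝ) =ᵐ[θ.prod m] c₀
      filter_upwards [h1, h2, hc₀ae] with z h3 h4 h5
      rw [h3, h4, h5]
      rfl
    · intro w hw
      rw [hfix] at hw
      have hwinv : ∀ᵐ z ∂(θ.prod m), (w : Θ × Z → ℝ) (z.1, S z.1 z.2) = w z := by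
        have h1 := Lp.coeFn_compMeasurePreserving w htot
        have h2 : Lp.compMeasurePreserving (tot S) htot w = w := hw
        rw [h2] at h1
        filter_upwards [h1] with z hz
        rw [hz]
        rfl
      obtain ⟨c, hcm, hc⟩ := hinv w (Lp.stronglyMeasurable w) (Lp.memLp w) hwinv
      rw [L2.inner_def]
      have h3 : ∫ z, ⟪(û - c₀ : Lp ℝ 2 (θ.prod m)) z, w z⟫_ℝ ∂(θ.prod m) =
          ∫ z, c z.1 * (A.indicator (fun _ => (1 : ℝ)) z.2 - m.real A) ∂(θ.prod m) := by
        refine integral_congr_ae ?_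
        filter_upwards [Lp.coeFn_sub û c₀, hu.coeFn_toLp, hc₀ae, hc] with z h4 h5 h6 h7
        rw [h4, Pi.sub_apply, h5, h6, h7]
        simp
      rw [h3, integral_prod_mul (f := c)
        (g := fun z => A.indicator (fun _ => (1 : ℝ)) z - m.real A)]
      have h8 : ∫ z, (A.indicator (fun _ => (1 : ℝ)) z - m.real A) ∂m = 0 := by
        rw [integral_sub ((integrable_const _).indicator hA) (integrable_const _),
          integral_indicator hA]
        simp
      rw [h8, mul_zero]
  have hmean' : Tendsto (fun N : ℕ => birkhoffAverage ℝ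
      (K : Lp ℝ 2 (θ.prod m) → Lp ℝ 2 (θ.prod m)) _root_.id N û) atTop (𝓝 c₀) := by
    rw [← hlim]
    exact hmean
  rw [tendsto_iff_edist_tendsto_0] at hmean'
  refine tendsto_of_tendsto_of_tendsto_of_le_of_le tendsto_const_nhds hmean'
    (fun N => by positivity) (fun N => ?_)
  have h1 : ∫⁻ z, ‖avg (S z.1) A N z.2 - m.real A‖ₑ ∂(θ.prod m) =
      eLpNorm (fun z : Θ × Z => avg (S z.1) A N z.2 - m.real A) 1 (θ.prod m) := by
    rw [eLpNorm_one_eq_lintegral_enorm]
  have h2 : (fun z : Θ × Z => avg (S z.1) A N z.2 - m.real A) =ᵐ[θ.prod m]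
      (birkhoffAverage ℝ (K : Lp ℝ 2 (θ.prod m) → Lp ℝ 2 (θ.prod m)) _root_.id N û :
        Lp ℝ 2 (θ.prod m)) - (c₀ : Θ × Z → ℝ) := by
    filter_upwards [hbirk N, hc₀ae] with z h3 h4
    rw [Pi.sub_apply, h3, h4]
  rw [h1, Lp.edist_def, eLpNorm_congr_ae h2]
  refine eLpNorm_le_eLpNorm_of_exponent_le (by norm_num) ?_
  exact (Lp.aestronglyMeasurable _).sub (Lp.aestronglyMeasurable _)

/-- Ergodicity for almost every parameter, from the description of the invariant functions of
the total system. -/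
theorem ae_ergodic_of_total [MeasurableSpace.CountablyGenerated Z]
    (hSm : Measurable (uncurry S)) (hS : ∀ g, MeasurePreserving (S g) m m)
    (hinv : ∀ Ψ : Θ × Z → ℝ, StronglyMeasurable Ψ → MemLp Ψ 2 (θ.prod m) →
      (∀ᵐ z ∂(θ.prod m), Ψ (z.1, S z.1 z.2) = Ψ z) →
      ∃ c : Θ → ℝ, Measurable c ∧ ∀ᵐ z ∂(θ.prod m), Ψ z = c z.1) :
    ∀ᵐ g ∂θ, Ergodic (S g) m := by
  set C : Set (Set Z) := generateSetAlgebra (MeasurableSpace.countableGeneratingSet Z) with hC
  have hCc : C.Countable :=
    countable_generateSetAlgebra (MeasurableSpace.countable_countableGeneratingSet (α := Z))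
  have hCgen : ‹MeasurableSpace Z› = MeasurableSpace.generateFrom C := by
    rw [hC, generateFrom_generateSetAlgebra_eq,
      MeasurableSpace.generateFrom_countableGeneratingSet]
  have hCpi : IsPiSystem C := by
    intro s hs t ht _
    exact isSetAlgebra_generateSetAlgebra.inter_mem hs ht
  have hCm : ∀ A ∈ C, MeasurableSet A := by
    intro A hA
    rw [hCgen]
    exact MeasurableSpace.measurableSet_generateFrom hA
  have hall : ∀ᵐ g ∂θ, ∀ A ∈ C,
      liminf (fun N : ℕ => ∫⁻ z, ‖avg (S g) A N z - m.real A‖ₑ ∂m) atTop = 0 := by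
    rw [ae_ball_iff hCc]
    intro A hA
    have hmeas : ∀ N : ℕ, Measurable fun z : Θ × Z => ‖avg (S z.1) A N z.2 - m.real A‖ₑ := by
      intro N
      refine (Measurable.sub_const ?_ _).enorm
      unfold avg
      refine Measurable.const_mul ?_ _
      refine Finset.measurable_fun_sum _ fun k _ => ?_
      have h1 : Measurable fun z : Θ × Z => (S z.1)^[k] z.2 := by
        have h2 : (fun z : Θ × Z => (S z.1)^[k] z.2) = fun z => ((tot S)^[k] z).2 := by
          funext z
          rw [tot_iterate]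
        rw [h2]
        exact measurable_snd.comp ((tot_mp θ m hSm hS).measurable.iterate k)
      exact (measurable_const.indicator (hCm A hA)).comp h1
    have hDm : ∀ N : ℕ, Measurable fun g : Θ =>
        ∫⁻ z, ‖avg (S g) A N z - m.real A‖ₑ ∂m := fun N =>
      Measurable.lintegral_prod_right' (hmeas N)
    have hfatou : ∫⁻ g, liminf (fun N : ℕ => ∫⁻ z, ‖avg (S g) A N z - m.real A‖ₑ ∂m) atTop ∂θ
        = 0 := by
      have h1 := lintegral_liminf_le (μ := θ) (u := atTop) hDm
      have h2 : liminf (fun N : ℕ => ∫⁻ g, ∫⁻ z, ‖avg (S g) A N z - m.real A‖ₑ ∂m ∂θ) atTop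
          = 0 := by
        have h3 := tendsto_avg θ m hSm hS hinv (hCm A hA)
        have h4 : ∀ N : ℕ, ∫⁻ g, ∫⁻ z, ‖avg (S g) A N z - m.real A‖ₑ ∂m ∂θ =
            ∫⁻ z, ‖avg (S z.1) A N z.2 - m.real A‖ₑ ∂(θ.prod m) := by
          intro N
          rw [lintegral_prod _ (hmeas N).aemeasurable]
        simp_rw [h4]
        exact h3.liminf_eq
      rw [h2] at h1
      exact le_antisymm h1 (by positivity)
    rw [lintegral_eq_zero_iff (Measurable.liminf hDm)] at hfatou
    exact hfatou
  filter_upwards [hall] with g hg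
  exact ergodic_of_avg m C hCgen hCpi (hS g) hg

end family

end Pool.Agent.H17
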