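import Mathlib

open Set Function MeasureTheory
open scoped ENNReal

namespace Pool.Agent.H17

lemma image_iterate_measurable {T : ℝ → ℝ} (hT : Measurable T) (hinj : Injective T) (k : ℕ)
    {A : Set ℝ} (hA : MeasurableSet A) : MeasurableSet (T^[k] '' A) :=
  hA.image_of_measurable_injOn (hT.iterate k) (hinj.iterate k).injOn

lemma measure_image_iterate {T : ℝ → ℝ} {ν : Measure ℝ} (hT : MeasurePreserving T ν ν)
    (hinj : Injective T) (k : ℕ) {A : Set ℝ} (hA : MeasurableSet A) :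
    ν (T^[k] '' A) = ν A := by
  have h1 := (hT.iterate k).measure_preimage
    (image_iterate_measurable hT.measurable hinj k hA).nullMeasurableSet
  rw [← h1, preimage_image_eq _ (hinj.iterate k)]

/-- The tower lemma. -/
lemma tower_area {T : ℝ → ℝ} {ν : Measure ℝ} [IsProbabilityMeasure ν] (hT : Ergodic T ν)
    (hinj : Injective T) {ι : Type*} (s : Finset ι) (A : ι → Set ℝ)
    (hA : ∀ i ∈ s, MeasurableSet (A i)) (h : ι → ℕ) (hh : ∀ i ∈ s, 1 ≤ h i) (B : Set ℝ)
    (hB : ∀ i ∈ s, ∀ x ∈ A i, T^[h i] x ∈ B) (hBA : ν (B \ ⋃ i ∈ s, A i) = 0)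
    (hpos : ν (⋃ i ∈ s, A i) ≠ 0) : 1 ≤ ∑ i ∈ s, (h i : ℝ≥0∞) * ν (A i) := by
  set E : Set ℝ := ⋃ i ∈ s, ⋃ k ∈ Finset.range (h i), T^[k] '' (A i) with hE
  have hEm : MeasurableSet E := by
    refine Finset.measurableSet_biUnion _ fun i hi => ?_
    exact Finset.measurableSet_biUnion _ fun k _ =>
      image_iterate_measurable hT.measurable hinj k (hA i hi)
  have hAE : (⋃ i ∈ s, A i) ⊆ E := by
    intro x hx
    simp only [mem_iUnion] at hx
    obtain ⟨i, hi, hx⟩ := hx
    simp only [hE, mem_iUnion]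
    exact ⟨i, hi, 0, Finset.mem_range.2 (hh i hi), x, hx, rfl⟩
  have hle : E ≤ᵐ[ν] T ⁻¹' E := by
    have hnull : ν (T ⁻¹' (B \ ⋃ i ∈ s, A i)) = 0 := by
      exact hT.toMeasurePreserving.quasiMeasurePreserving.preimage_null hBA
    have : ∀ᵐ y ∂ν, y ∉ T ⁻¹' (B \ ⋃ i ∈ s, A i) := measure_eq_zero_iff_ae_notMem.1 hnull
    filter_upwards [this] with y hy hyE
    change T y ∈ E
    have hyE' : y ∈ E := hyE
    simp only [hE, mem_iUnion] at hyE'
    obtain ⟨i, hi, k, hk, x, hx, rfl⟩ := hyE'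
    rw [Finset.mem_range] at hk
    rcases Nat.lt_or_ge (k + 1) (h i) with hk1 | hk1
    · simp only [hE, mem_iUnion]
      refine ⟨i, hi, k + 1, Finset.mem_range.2 hk1, x, hx, ?_⟩
      rw [iterate_succ_apply']
    · have hk2 : h i = k + 1 := by omega
      have hx' := hB i hi x hx
      rw [hk2, iterate_succ_apply'] at hx'
      apply hAE
      by_contra hcon
      exact hy ⟨hx', hcon⟩
  have h01 := hT.ae_empty_or_univ_of_ae_le_preimage hEm.nullMeasurableSet hle
  have hE1 : ν E = 1 := by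
    rcases h01 with h0 | h1
    · exfalso
      apply hpos
      have : ν E = 0 := by rw [measure_congr h0]; simp
      exact measure_mono_null hAE this
    · rw [measure_congr h1]; simp
  calc (1 : ℝ≥0∞) = ν E := hE1.symm
    _ ≤ ∑ i ∈ s, ν (⋃ k ∈ Finset.range (h i), T^[k] '' (A i)) := measure_biUnion_finset_le _ _
    _ ≤ ∑ i ∈ s, ∑ k ∈ Finset.range (h i), ν (T^[k] '' (A i)) :=
        Finset.sum_le_sum fun i _ => measure_biUnion_finset_le _ _
    _ = ∑ i ∈ s, ∑ k ∈ Finset.range (h i), ν (A i) := by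
        refine Finset.sum_congr rfl fun i hi => Finset.sum_congr rfl fun k _ => ?_
        exact measure_image_iterate hT.toMeasurePreserving hinj k (hA i hi)
    _ = ∑ i ∈ s, (h i : ℝ≥0∞) * ν (A i) := by
        simp

/-- Lebesgue measure on `[0,1)`. -/
noncomputable abbrev leb01 : Measure ℝ := volume.restrict (Ico 0 1)

instance : IsProbabilityMeasure leb01 := ⟨by simp⟩

lemma leb01_Ico {a b : ℝ} (ha : 0 ≤ a) (hb : b ≤ 1) : leb01 (Ico a b) = ENNReal.ofReal (b - a) := by
  rw [Measure.restrict_apply measurableSet_Ico, inter_eq_self_of_subset_left]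
  · simp
  · exact Ico_subset_Ico ha hb

/-- aperiodicity -/
lemma no_fixed {T : ℝ → ℝ} (hT : Ergodic T leb01) (hinj : Injective T) {l r : ℝ} (h0 : 0 ≤ l)
    (hlr : l < r) (h1 : r ≤ 1) {h : ℕ} (hh : 1 ≤ h) (hfix : ∀ x, l ≤ x → x < r → T^[h] x = x) :
    False := by
  obtain ⟨δ, hδ0, hδ1, hδ2⟩ : ∃ δ : ℝ, 0 < δ ∧ l + δ ≤ r ∧ h * δ < 1 := by
    refine ⟨min (r - l) (1 / (2 * h)), ?_, ?_, ?_⟩
    · have : (0 : ℝ) < h := by exact_mod_cast hh
      exact lt_min (by linarith) (by positivity)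
    · have := min_le_left (r - l) (1 / (2 * (h : ℝ)))
      linarith
    · have hh' : (0 : ℝ) < h := by exact_mod_cast hh
      have := min_le_right (r - l) (1 / (2 * (h : ℝ)))
      calc (h : ℝ) * min (r - l) (1 / (2 * h)) ≤ h * (1 / (2 * h)) := by gcongr
        _ = 1 / 2 := by field_simp
        _ < 1 := by norm_num
  have key := tower_area hT hinj (s := {(0 : ℕ)}) (A := fun _ => Ico l (l + δ))
    (by intros; exact measurableSet_Ico) (h := fun _ => h) (by intros; exact hh)
    (B := Ico l (l + δ))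
    (by
      intro i _ x hx
      rw [hfix x hx.1 (by linarith [hx.2])]
      exact hx)
    (by simp)
    (by
      simp only [Finset.mem_singleton, iUnion_iUnion_eq_left]
      rw [leb01_Ico h0 (by linarith)]
      simp [hδ0])
  simp only [Finset.sum_singleton] at key
  rw [leb01_Ico h0 (by linarith)] at key
  have h3 : (h : ℝ≥0∞) * ENNReal.ofReal (l + δ - l) = ENNReal.ofReal (h * δ) := by
    rw [ENNReal.ofReal_mul (by positivity)]
    simp
  rw [h3] at key
  have : ENNReal.ofReal (h * δ) < 1 := by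
    rw [← ENNReal.ofReal_one]
    exact (ENNReal.ofReal_lt_ofReal_iff (by norm_num)).2 hδ2
  exact absurd key (not_le.2 this)

end Pool.Agent.H17
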