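import Mathlib
import Pool.Agent.H17.Tower

open Set Function MeasureTheory Filter Topology
open scoped ENNReal

namespace Pool.Agent.H17

lemma lebesgue_avg (D : ℝ → ℝ≥0∞) (hD : Measurable D) (hfin : ∫⁻ x in Ico (0 : ℝ) 1, D x ≠ ∞) :
    ∀ᵐ x₀ ∂leb01, ∀ (p q : ℕ → ℝ), (∀ n, 0 ≤ p n ∧ q n ≤ 1 ∧ p n ≤ x₀ ∧ x₀ < q n) →
      Tendsto (fun n => q n - p n) atTop (𝓝 0) →
      Tendsto (fun n => (∫⁻ x in Ico (p n) (q n), D x) / ENNReal.ofReal (q n - p n)) atTop
        (𝓝 (D x₀)) := by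
  set D' : ℝ → ℝ≥0∞ := (Ico (0 : ℝ) 1).indicator D with hD'
  have hD'm : Measurable D' := hD.indicator measurableSet_Ico
  have hD'fin : ∫⁻ x, D' x ≠ ∞ := by
    rw [hD', lintegral_indicator measurableSet_Ico]; exact hfin
  have h1 := (IsUnifLocDoublingMeasure.vitaliFamily (volume : Measure ℝ) 1).ae_tendsto_lintegral_div'
    hD'm hD'fin
  have h2 : ∀ᵐ x ∂leb01, x ∈ Ico (0 : ℝ) 1 := ae_restrict_mem measurableSet_Ico
  filter_upwards [ae_restrict_of_ae h1, h2] with x₀ hx₀ hx₀mem p q hpq hlim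
  have h3 := IsUnifLocDoublingMeasure.tendsto_closedBall_filterAt (μ := (volume : Measure ℝ))
    (K := 1) (x := x₀) (l := atTop) (fun n => (p n + q n) / 2) (fun n => (q n - p n) / 2)
    (by
      rw [tendsto_nhdsWithin_iff]
      refine ⟨by simpa using hlim.div_const 2, Eventually.of_forall fun n => ?_⟩
      have := hpq n
      simp only [mem_Ioi]
      linarith)
    (Eventually.of_forall fun n => by
      have := hpq n
      rw [Real.closedBall_eq_Icc]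
      constructor <;> linarith)
  have h4 := hx₀.comp h3
  have h5 : D' x₀ = D x₀ := by simp [hD', indicator_of_mem hx₀mem]
  rw [h5] at h4
  refine h4.congr fun n => ?_
  have hn := hpq n
  simp only [Function.comp]
  rw [Real.closedBall_eq_Icc]
  have e1 : (p n + q n) / 2 - (q n - p n) / 2 = p n := by ring
  have e2 : (p n + q n) / 2 + (q n - p n) / 2 = q n := by ring
  rw [e1, e2, Real.volume_Icc]
  congr 1
  rw [← restrict_Ico_eq_restrict_Icc]
  refine setLIntegral_congr_fun measurableSet_Ico fun x hx => ?_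
  simp only [hD']
  rw [indicator_of_mem]
  exact ⟨le_trans hn.1 hx.1, lt_of_lt_of_le hx.2 hn.2.1⟩

/-- Lebesgue differentiation for `L¹(θ;E)`-valued functions, in terms of the joint function. -/
theorem lebesgue_L1 {Θ : Type*} [MeasurableSpace Θ] [MeasurableSpace.CountablyGenerated Θ]
    (θ : Measure Θ) [IsProbabilityMeasure θ]
    {E : Type*} [NormedAddCommGroup E] [TopologicalSpace.SeparableSpace E]
    (F : ℝ × Θ → E) (hF : StronglyMeasurable F) (hint : Integrable F (leb01.prod θ)) :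
    ∀ᵐ x₀ ∂leb01, ∀ (p q : ℕ → ℝ), (∀ n, 0 ≤ p n ∧ q n ≤ 1 ∧ p n ≤ x₀ ∧ x₀ < q n) →
      Tendsto (fun n => q n - p n) atTop (𝓝 0) →
      Tendsto (fun n => (∫⁻ x in Ico (p n) (q n), ∫⁻ g, ‖F (x, g) - F (x₀, g)‖ₑ ∂θ) /
        ENNReal.ofReal (q n - p n)) atTop (𝓝 0) := by
  have : Fact ((1 : ℝ≥0∞) ≠ ∞) := ⟨ENNReal.one_ne_top⟩
  set u : ℕ → Lp E 1 θ := TopologicalSpace.denseSeq (Lp E 1 θ) with hu
  set D : ℕ → ℝ → ℝ≥0∞ := fun i x => ∫⁻ g, ‖F (x, g) - u i g‖ₑ ∂θ with hD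
  have hjm : ∀ i, Measurable fun z : ℝ × Θ => ‖F z - u i z.2‖ₑ := by
    intro i
    have h1 : StronglyMeasurable fun z : ℝ × Θ => F z - u i z.2 :=
      hF.sub ((Lp.stronglyMeasurable (u i)).comp_measurable measurable_snd)
    exact h1.enorm
  have hDm : ∀ i, Measurable (D i) := fun i => (hjm i).lintegral_prod_right'
  have hfinF : ∫⁻ z, ‖F z‖ₑ ∂(leb01.prod θ) ≠ ∞ := hint.2.ne
  have hDfin : ∀ i, ∫⁻ x in Ico (0 : ℝ) 1, D i x ≠ ∞ := by
    intro i
    have h1 : ∫⁻ x in Ico (0 : ℝ) 1, D i x ≤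
        ∫⁻ z, ‖F z‖ₑ ∂(leb01.prod θ) + ∫⁻ g, ‖u i g‖ₑ ∂θ := by
      have h2 : ∀ x, D i x ≤ ∫⁻ g, ‖F (x, g)‖ₑ ∂θ + ∫⁻ g, ‖u i g‖ₑ ∂θ := by
        intro x
        simp only [hD]
        rw [← lintegral_add_left]
        · exact lintegral_mono fun g => enorm_sub_le
        · exact (hF.enorm).comp measurable_prodMk_left
      calc ∫⁻ x in Ico (0 : ℝ) 1, D i x
          ≤ ∫⁻ x, (∫⁻ g, ‖F (x, g)‖ₑ ∂θ + ∫⁻ g, ‖u i g‖ₑ ∂θ) ∂leb01 := lintegral_mono h2
        _ = ∫⁻ x, (∫⁻ g, ‖F (x, g)‖ₑ ∂θ) ∂leb01 + ∫⁻ g, ‖u i g‖ₑ ∂θ := by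
            rw [lintegral_add_right _ measurable_const, lintegral_const, measure_univ, mul_one]
        _ = _ := by rw [lintegral_prod _ hF.enorm.aemeasurable]
    refine ne_top_of_le_ne_top ?_ h1
    refine ENNReal.add_ne_top.2 ⟨hfinF, ?_⟩
    have := (L1.integrable_coeFn (u i)).2
    exact this.ne
  have hall : ∀ᵐ x₀ ∂leb01, ∀ i, ∀ (p q : ℕ → ℝ),
      (∀ n, 0 ≤ p n ∧ q n ≤ 1 ∧ p n ≤ x₀ ∧ x₀ < q n) →
      Tendsto (fun n => q n - p n) atTop (𝓝 0) →
      Tendsto (fun n => (∫⁻ x in Ico (p n) (q n), D i x) / ENNReal.ofReal (q n - p n)) atTop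
        (𝓝 (D i x₀)) := ae_all_iff.2 fun i => lebesgue_avg (D i) (hDm i) (hDfin i)
  have hfin : ∀ᵐ x₀ ∂leb01, Integrable (fun g => F (x₀, g)) θ := hint.prod_right_ae
  filter_upwards [hall, hfin] with x₀ hx₀ hx₀fin p q hpq hlim
  rw [ENNReal.tendsto_nhds_zero]
  intro ε hε
  -- choose i
  have hε2 : 0 < ε / 2 / 2 := by
    simp only [ENNReal.div_pos_iff]
    simp [hε.ne']
  obtain ⟨i, hi⟩ : ∃ i, D i x₀ < ε / 2 / 2 := by
    have hdense := TopologicalSpace.denseRange_denseSeq (Lp E 1 θ)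
    set f0 : Lp E 1 θ := hx₀fin.toL1 _ with hf0
    obtain ⟨i, hi⟩ := hdense.exists_mem_open (s := Metric.eball f0 (ε / 2 / 2))
      Metric.isOpen_eball ⟨f0, Metric.mem_eball_self hε2⟩
    refine ⟨i, ?_⟩
    rw [Metric.mem_eball, edist_comm] at hi
    have e : D i x₀ = edist f0 (u i) := by
      rw [Lp.edist_def]
      simp only [hD]
      rw [eLpNorm_one_eq_lintegral_enorm]
      refine lintegral_congr_ae ?_
      filter_upwards [hx₀fin.coeFn_toL1] with g hg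
      simp only [Pi.sub_apply, hf0, hg]
    rw [e]; exact hi
  have h1 := hx₀ i p q hpq hlim
  have h2 : ∀ᶠ n in atTop, (∫⁻ x in Ico (p n) (q n), D i x) / ENNReal.ofReal (q n - p n) < ε / 2 :=
    h1.eventually_lt_const (lt_of_lt_of_le hi (ENNReal.half_le_self))
  filter_upwards [h2] with n hn
  have hlen : ENNReal.ofReal (q n - p n) ≠ 0 := by
    have := hpq n
    simp only [ne_eq, ENNReal.ofReal_eq_zero, not_le]
    linarith
  have hle : ∀ x, ∫⁻ g, ‖F (x, g) - F (x₀, g)‖ₑ ∂θ ≤ D i x + D i x₀ := by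
    intro x
    simp only [hD]
    have hm : Measurable fun g => ‖F (x, g) - u i g‖ₑ := (hjm i).comp measurable_prodMk_left
    rw [← lintegral_add_left hm]
    refine lintegral_mono fun g => ?_
    have e : F (x, g) - F (x₀, g) = (F (x, g) - u i g) - (F (x₀, g) - u i g) := by abel
    rw [e]
    exact enorm_sub_le
  calc (∫⁻ x in Ico (p n) (q n), ∫⁻ g, ‖F (x, g) - F (x₀, g)‖ₑ ∂θ) / ENNReal.ofReal (q n - p n)
      ≤ (∫⁻ x in Ico (p n) (q n), (D i x + D i x₀)) / ENNReal.ofReal (q n - p n) := by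
        gcongr
        exact hle _
    _ = (∫⁻ x in Ico (p n) (q n), D i x) / ENNReal.ofReal (q n - p n) + D i x₀ := by
        rw [lintegral_add_right _ measurable_const, ENNReal.add_div, setLIntegral_const,
          Real.volume_Ico, ENNReal.mul_div_cancel_right hlen ENNReal.ofReal_ne_top]
    _ ≤ ε / 2 + ε / 2 := by
        refine add_le_add hn.le (hi.le.trans ENNReal.half_le_self)
    _ = ε := ENNReal.add_halves ε

end Pool.Agent.H17
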