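import Mathlib

open Set Function

namespace Pool.Agent.H17

/-- Core interval data: an exchange of `d` (possibly empty) half-open intervals on `[p,q)`. -/
structure Core (d : ℕ) where
  p : ℝ
  q : ℝ
  l : Fin d → ℝ
  r : Fin d → ℝ
  t : Fin d → ℝ
  hpq : p < q
  hlr : ∀ j, l j ≤ r j
  cover : ∀ x, (p ≤ x ∧ x < q) ↔ ∃ j, l j ≤ x ∧ x < r j
  uniq : ∀ x i j, (l i ≤ x ∧ x < r i) → (l j ≤ x ∧ x < r j) → i = j
  cover' : ∀ x, (p ≤ x ∧ x < q) ↔ ∃ j, l j + t j ≤ x ∧ x < r j + t j
  uniq' : ∀ x i j, (l i + t i ≤ x ∧ x < r i + t i) → (l j + t j ≤ x ∧ x < r j + t j) → i = j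

namespace Core

variable {d : ℕ} (S : Core d)

/-- Specification of one cut. The letter `ls` (the loser) gets the composite of `b` then `a`,
the letter `w` (winner) is shortened by the length of `ls`. -/
structure Cut (S S' : Core d) (a b w ls : Fin d) : Prop where
  hab : a ≠ b
  hwl : (w = a ∧ ls = b) ∨ (w = b ∧ ls = a)
  lpos : S.l ls < S.r ls
  lsub : ∀ x, (S'.l ls ≤ x ∧ x < S'.r ls) → (S.l b ≤ x ∧ x < S.r b)
  lmap : ∀ x, (S'.l ls ≤ x ∧ x < S'.r ls) → (S.l a ≤ x + S.t b ∧ x + S.t b < S.r a)
  lt : S'.t ls = S.t b + S.t a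
  llen : S'.r ls - S'.l ls = S.r ls - S.l ls
  wl : S.l w ≤ S'.l w
  wr : S'.r w ≤ S.r w
  wt : S'.t w = S.t w
  wlen : S'.r w - S'.l w = (S.r w - S.l w) - (S.r ls - S.l ls)
  other : ∀ j, j ≠ w → j ≠ ls → S'.l j = S.l j ∧ S'.r j = S.r j ∧ S'.t j = S.t j
  Klen : S'.q - S'.p = (S.q - S.p) - (S.r ls - S.l ls)
  Kp : S.p ≤ S'.p
  Kq : S'.q ≤ S.q

/-- cut of the first type : the image of `b` is removed, it is contained in `a`. -/
def cut1 (a b : Fin d) (hab : a ≠ b) (p' q' la' ra' : ℝ) (hpq' : p' < q') (hla : la' ≤ ra')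
    (H1 : ∀ x, (S.l b + S.t b ≤ x ∧ x < S.r b + S.t b) → (S.l a ≤ x ∧ x < S.r a))
    (H2 : ∀ x, (p' ≤ x ∧ x < q') ↔
      ((S.p ≤ x ∧ x < S.q) ∧ ¬ (S.l b + S.t b ≤ x ∧ x < S.r b + S.t b)))
    (H3 : ∀ x, (la' ≤ x ∧ x < ra') ↔
      ((S.l a ≤ x ∧ x < S.r a) ∧ ¬ (S.l b + S.t b ≤ x ∧ x < S.r b + S.t b))) : Core d where
  p := p'
  q := q'
  l := update S.l a la'
  r := update S.r a ra'
  t := update S.t b (S.t b + S.t a)
  hpq := hpq'
  hlr := by
    intro j
    by_cases hj : j = a
    · subst hj; simpa using hla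
    · simpa [hj] using S.hlr j
  cover := by
    intro x
    rw [H2, S.cover]
    constructor
    · rintro ⟨⟨j, hj⟩, hC⟩
      refine ⟨j, ?_⟩
      by_cases hja : j = a
      · subst hja
        simpa using (H3 x).2 ⟨hj, hC⟩
      · simpa [hja] using hj
    · rintro ⟨j, hj⟩
      by_cases hja : j = a
      · subst hja
        simp only [update_self] at hj
        have := (H3 x).1 hj
        exact ⟨⟨j, this.1⟩, this.2⟩
      · simp only [update_of_ne hja] at hj
        refine ⟨⟨j, hj⟩, fun hC => hja (S.uniq x j a hj (H1 x hC))⟩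
  uniq := by
    intro x i j hi hj
    have key : ∀ k, (update S.l a la' k ≤ x ∧ x < update S.r a ra' k) →
        (S.l k ≤ x ∧ x < S.r k) := by
      intro k hk
      by_cases hka : k = a
      · subst hka
        simp only [update_self] at hk
        exact ((H3 x).1 hk).1
      · simpa [hka] using hk
    exact S.uniq x i j (key i hi) (key j hj)
  cover' := by
    intro x
    rw [H2, S.cover']
    constructor
    · rintro ⟨⟨j, hj⟩, hC⟩
      by_cases hja : j = a
      · subst hja
        by_cases hx : (S.l b + S.t b ≤ x - S.t j ∧ x - S.t j < S.r b + S.t b)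
        · refine ⟨b, ?_⟩
          simp only [update_self, update_of_ne (Ne.symm hab)]
          constructor <;> linarith [hx.1, hx.2]
        · refine ⟨j, ?_⟩
          have := (H3 (x - S.t j)).2 ⟨⟨by linarith [hj.1], by linarith [hj.2]⟩, hx⟩
          simp only [update_self, update_of_ne hab]
          constructor <;> linarith [this.1, this.2]
      · by_cases hjb : j = b
        · subst hjb
          exact absurd hj hC
        · refine ⟨j, ?_⟩
          simpa [hja, hjb] using hj
    · rintro ⟨j, hj⟩
      have : ∃ k, k ≠ b ∧ (S.l k + S.t k ≤ x ∧ x < S.r k + S.t k) := by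
        by_cases hja : j = a
        · subst hja
          refine ⟨j, hab, ?_⟩
          simp only [update_self, update_of_ne hab] at hj
          have := (H3 (x - S.t j)).1 ⟨by linarith [hj.1], by linarith [hj.2]⟩
          constructor <;> linarith [this.1.1, this.1.2]
        · by_cases hjb : j = b
          · subst hjb
            refine ⟨a, hab, ?_⟩
            simp only [update_self, update_of_ne hja] at hj
            have := H1 (x - S.t a) ⟨by linarith [hj.1], by linarith [hj.2]⟩
            constructor <;> linarith [this.1, this.2]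
          · refine ⟨j, hjb, ?_⟩
            simpa [hja, hjb] using hj
      obtain ⟨k, hkb, hk⟩ := this
      exact ⟨⟨k, hk⟩, fun hC => hkb (S.uniq' x k b hk hC)⟩
  uniq' := by
    intro x i j hi hj
    -- describe each new image
    have key : ∀ k, (update S.l a la' k + update S.t b (S.t b + S.t a) k ≤ x ∧
        x < update S.r a ra' k + update S.t b (S.t b + S.t a) k) →
        (k = b ∧ (S.l a + S.t a ≤ x ∧ x < S.r a + S.t a) ∧
          (S.l b + S.t b ≤ x - S.t a ∧ x - S.t a < S.r b + S.t b)) ∨
        (k ≠ b ∧ (S.l k + S.t k ≤ x ∧ x < S.r k + S.t k) ∧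
          (k = a → ¬ (S.l b + S.t b ≤ x - S.t a ∧ x - S.t a < S.r b + S.t b))) := by
      intro k hk
      by_cases hkb : k = b
      · left
        subst hkb
        simp only [update_self, update_of_ne (Ne.symm hab)] at hk
        have h1 : (S.l k + S.t k ≤ x - S.t a ∧ x - S.t a < S.r k + S.t k) :=
          ⟨by linarith [hk.1], by linarith [hk.2]⟩
        have h2 := H1 _ h1
        exact ⟨rfl, ⟨by linarith [h2.1], by linarith [h2.2]⟩, h1⟩
      · right
        refine ⟨hkb, ?_⟩
        by_cases hka : k = a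
        · subst hka
          simp only [update_self, update_of_ne hab] at hk
          have := (H3 (x - S.t k)).1 ⟨by linarith [hk.1], by linarith [hk.2]⟩
          exact ⟨⟨by linarith [this.1.1], by linarith [this.1.2]⟩, fun _ => this.2⟩
        · simp only [update_of_ne hka, update_of_ne hkb] at hk
          exact ⟨hk, fun h => absurd h hka⟩
    rcases key i hi with ⟨hi1, hi2, hi3⟩ | ⟨hi1, hi2, hi3⟩ <;>
    rcases key j hj with ⟨hj1, hj2, hj3⟩ | ⟨hj1, hj2, hj3⟩
    · rw [hi1, hj1]
    · exact absurd hi3 (hj3 (S.uniq' x j a hj2 hi2))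
    · exact absurd hj3 (hi3 (S.uniq' x i a hi2 hj2))
    · exact S.uniq' x i j hi2 hj2

/-- cut of the second type : the interval `a` is removed, it is contained in the image of `b`. -/
def cut2 (a b : Fin d) (hab : a ≠ b) (p' q' lb' rb' : ℝ) (hpq' : p' < q') (hlb : lb' ≤ rb')
    (H1 : ∀ x, (S.l a ≤ x ∧ x < S.r a) → (S.l b + S.t b ≤ x ∧ x < S.r b + S.t b))
    (H2 : ∀ x, (p' ≤ x ∧ x < q') ↔
      ((S.p ≤ x ∧ x < S.q) ∧ ¬ (S.l a ≤ x ∧ x < S.r a)))
    (H3 : ∀ x, (lb' ≤ x ∧ x < rb') ↔
      ((S.l b ≤ x ∧ x < S.r b) ∧ ¬ (S.l a ≤ x + S.t b ∧ x + S.t b < S.r a))) : Core d where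
  p := p'
  q := q'
  l := update (update S.l b lb') a (S.l a - S.t b)
  r := update (update S.r b rb') a (S.r a - S.t b)
  t := update S.t a (S.t b + S.t a)
  hpq := hpq'
  hlr := by
    intro j
    by_cases hja : j = a
    · subst hja; simpa using S.hlr j
    · by_cases hjb : j = b
      · subst hjb; simpa [hja] using hlb
      · simpa [hja, hjb] using S.hlr j
  cover := by
    intro x
    rw [H2, S.cover]
    constructor
    · rintro ⟨⟨j, hj⟩, hC⟩
      by_cases hjb : j = b
      · subst hjb
        by_cases hx : (S.l a ≤ x + S.t j ∧ x + S.t j < S.r a)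
        · refine ⟨a, ?_⟩
          simp only [update_self]
          constructor <;> linarith [hx.1, hx.2]
        · refine ⟨j, ?_⟩
          simpa [Ne.symm hab] using (H3 x).2 ⟨hj, hx⟩
      · have hja : j ≠ a := by
          rintro rfl
          exact hC hj
        refine ⟨j, ?_⟩
        simpa [hja, hjb] using hj
    · rintro ⟨j, hj⟩
      have : ∃ k, k ≠ a ∧ (S.l k ≤ x ∧ x < S.r k) := by
        by_cases hja : j = a
        · subst hja
          refine ⟨b, Ne.symm hab, ?_⟩
          simp only [update_self] at hj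
          have := H1 (x + S.t b) ⟨by linarith [hj.1], by linarith [hj.2]⟩
          constructor <;> linarith [this.1, this.2]
        · by_cases hjb : j = b
          · subst hjb
            refine ⟨j, hja, ?_⟩
            simp only [update_self, update_of_ne hja] at hj
            exact ((H3 x).1 hj).1
          · refine ⟨j, hja, ?_⟩
            simpa [hja, hjb] using hj
      obtain ⟨k, hka, hk⟩ := this
      exact ⟨⟨k, hk⟩, fun hC => hka (S.uniq x k a hk hC)⟩
  uniq := by
    intro x i j hi hj
    have key : ∀ k, (update (update S.l b lb') a (S.l a - S.t b) k ≤ x ∧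
        x < update (update S.r b rb') a (S.r a - S.t b) k) →
        (k = a ∧ (S.l b ≤ x ∧ x < S.r b) ∧
          (S.l a ≤ x + S.t b ∧ x + S.t b < S.r a)) ∨
        (k ≠ a ∧ (S.l k ≤ x ∧ x < S.r k) ∧
          (k = b → ¬ (S.l a ≤ x + S.t b ∧ x + S.t b < S.r a))) := by
      intro k hk
      by_cases hka : k = a
      · left
        subst hka
        simp only [update_self] at hk
        have h1 : (S.l k ≤ x + S.t b ∧ x + S.t b < S.r k) :=
          ⟨by linarith [hk.1], by linarith [hk.2]⟩
        have h2 := H1 _ h1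
        exact ⟨rfl, ⟨by linarith [h2.1], by linarith [h2.2]⟩, h1⟩
      · right
        refine ⟨hka, ?_⟩
        by_cases hkb : k = b
        · subst hkb
          simp only [update_self, update_of_ne hka] at hk
          have := (H3 x).1 hk
          exact ⟨this.1, fun _ => this.2⟩
        · simp only [update_of_ne hka, update_of_ne hkb] at hk
          exact ⟨hk, fun h => absurd h hkb⟩
    rcases key i hi with ⟨hi1, hi2, hi3⟩ | ⟨hi1, hi2, hi3⟩ <;>
    rcases key j hj with ⟨hj1, hj2, hj3⟩ | ⟨hj1, hj2, hj3⟩
    · rw [hi1, hj1]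
    · exact absurd hi3 (hj3 (S.uniq x j b hj2 hi2))
    · exact absurd hj3 (hi3 (S.uniq x i b hi2 hj2))
    · exact S.uniq x i j hi2 hj2
  cover' := by
    intro x
    rw [H2, S.cover']
    constructor
    · rintro ⟨⟨j, hj⟩, hC⟩
      by_cases hja : j = a
      · subst hja
        refine ⟨j, ?_⟩
        simp only [update_self]
        constructor <;> linarith [hj.1, hj.2]
      · by_cases hjb : j = b
        · subst hjb
          refine ⟨j, ?_⟩
          have := (H3 (x - S.t j)).2 ⟨⟨by linarith [hj.1], by linarith [hj.2]⟩, by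
            rw [sub_add_cancel]; exact hC⟩
          simp only [update_self, update_of_ne hja]
          constructor <;> linarith [this.1, this.2]
        · refine ⟨j, ?_⟩
          simpa [hja, hjb] using hj
    · rintro ⟨j, hj⟩
      by_cases hja : j = a
      · subst hja
        simp only [update_self] at hj
        have h1 : S.l j + S.t j ≤ x ∧ x < S.r j + S.t j :=
          ⟨by linarith [hj.1], by linarith [hj.2]⟩
        exact ⟨⟨j, h1⟩, fun hC => hab (S.uniq' x j b h1 (H1 x hC))⟩
      · by_cases hjb : j = b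
        · subst hjb
          simp only [update_self, update_of_ne hja] at hj
          have := (H3 (x - S.t j)).1 ⟨by linarith [hj.1], by linarith [hj.2]⟩
          refine ⟨⟨j, ⟨by linarith [this.1.1], by linarith [this.1.2]⟩⟩, fun hC => this.2 ?_⟩
          rw [sub_add_cancel]; exact hC
        · simp only [update_of_ne hja, update_of_ne hjb] at hj
          exact ⟨⟨j, hj⟩, fun hC => hjb (S.uniq' x j b hj (H1 x hC))⟩
  uniq' := by
    intro x i j hi hj
    have key : ∀ k, (update (update S.l b lb') a (S.l a - S.t b) k +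
        update S.t a (S.t b + S.t a) k ≤ x ∧
        x < update (update S.r b rb') a (S.r a - S.t b) k + update S.t a (S.t b + S.t a) k) →
        (S.l k + S.t k ≤ x ∧ x < S.r k + S.t k) := by
      intro k hk
      by_cases hka : k = a
      · subst hka
        simp only [update_self] at hk
        constructor <;> linarith [hk.1, hk.2]
      · by_cases hkb : k = b
        · subst hkb
          simp only [update_self, update_of_ne hka] at hk
          have := (H3 (x - S.t k)).1 ⟨by linarith [hk.1], by linarith [hk.2]⟩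
          constructor <;> linarith [this.1.1, this.1.2]
        · simpa [hka, hkb] using hk
    exact S.uniq' x i j (key i hi) (key j hj)

lemma sub_of_nonempty {j : Fin d} (hj : S.l j < S.r j) : S.p ≤ S.l j ∧ S.r j ≤ S.q := by
  have h1 := (S.cover (S.l j)).2 ⟨j, le_refl _, hj⟩
  refine ⟨h1.1, ?_⟩
  by_contra h
  push Not at h
  -- the point max (l j) q is in K_j but not in K
  have h2 := (S.cover (max (S.l j) S.q)).2 ⟨j, le_max_left _ _, max_lt hj h⟩
  exact absurd h2.2 (not_lt.2 (le_max_right _ _))

lemma sub_of_nonempty' {j : Fin d} (hj : S.l j < S.r j) :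
    S.p ≤ S.l j + S.t j ∧ S.r j + S.t j ≤ S.q := by
  have h1 := (S.cover' (S.l j + S.t j)).2 ⟨j, le_refl _, by linarith⟩
  refine ⟨h1.1, ?_⟩
  by_contra h
  push Not at h
  have h2 := (S.cover' (max (S.l j + S.t j) S.q)).2
    ⟨j, le_max_left _ _, max_lt (by linarith) h⟩
  exact absurd h2.2 (not_lt.2 (le_max_right _ _))

/-- there is a leftmost interval -/
lemma exists_left : ∃ a, S.l a = S.p ∧ S.l a < S.r a := by
  obtain ⟨a, ha1, ha2⟩ := (S.cover S.p).1 ⟨le_refl _, S.hpq⟩
  have h : S.l a < S.r a := lt_of_le_of_lt ha1 ha2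
  exact ⟨a, le_antisymm ha1 (S.sub_of_nonempty h).1, h⟩

lemma exists_left' : ∃ b, S.l b + S.t b = S.p ∧ S.l b < S.r b := by
  obtain ⟨a, ha1, ha2⟩ := (S.cover' S.p).1 ⟨le_refl _, S.hpq⟩
  have h : S.l a < S.r a := by linarith
  exact ⟨a, le_antisymm ha1 (S.sub_of_nonempty' h).1, h⟩

/-- there is a rightmost interval -/
lemma exists_right : ∃ a, S.r a = S.q ∧ S.l a < S.r a := by
  classical
  obtain ⟨a0, ha0⟩ := S.exists_left
  obtain ⟨a, ha, hmax⟩ := Finset.exists_max_image
    (Finset.univ.filter (fun j => S.l j < S.r j)) S.r ⟨a0, by simp [ha0.2]⟩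
  simp only [Finset.mem_filter, Finset.mem_univ, true_and] at ha hmax
  refine ⟨a, ?_, ha⟩
  have hs := S.sub_of_nonempty ha
  by_contra hne
  have hlt : S.r a < S.q := lt_of_le_of_ne hs.2 hne
  obtain ⟨k, hk1, hk2⟩ := (S.cover (S.r a)).1 ⟨by linarith, hlt⟩
  have := hmax k (lt_of_le_of_lt hk1 hk2)
  linarith

lemma exists_right' : ∃ a, S.r a + S.t a = S.q ∧ S.l a < S.r a := by
  classical
  obtain ⟨a0, ha0⟩ := S.exists_left
  obtain ⟨a, ha, hmax⟩ := Finset.exists_max_image
    (Finset.univ.filter (fun j => S.l j < S.r j)) (fun j => S.r j + S.t j) ⟨a0, by simp [ha0.2]⟩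
  simp only [Finset.mem_filter, Finset.mem_univ, true_and] at ha hmax
  refine ⟨a, ?_, ha⟩
  have hs := S.sub_of_nonempty' ha
  by_contra hne
  have hlt : S.r a + S.t a < S.q := lt_of_le_of_ne hs.2 hne
  obtain ⟨k, hk1, hk2⟩ := (S.cover' (S.r a + S.t a)).1 ⟨by linarith, hlt⟩
  have := hmax k (by linarith)
  linarith

/-- The right cut. -/
lemma exists_cut_right (ht : ∀ j, S.l j < S.r j → S.t j ≠ 0) :
    ∃ (a : Fin d), S.r a = S.q ∧ S.l a < S.r a ∧
    ∃ (S' : Core d) (a b w ls : Fin d), Cut S S' a b w ls ∧ S'.p = S.p ∧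
      S.l a ≤ S'.q ∧ S.r a = S.q := by
  obtain ⟨a, ha, hla⟩ := S.exists_right
  obtain ⟨b, hb, hlb⟩ := S.exists_right'
  have hab : a ≠ b := by
    rintro rfl
    exact ht a hla (by linarith)
  refine ⟨a, ha, hla, ?_⟩
  rcases le_total (S.r b - S.l b) (S.r a - S.l a) with h | h
  · -- type 1
    have hsa := S.sub_of_nonempty hla
    refine ⟨S.cut1 a b hab S.p (S.q - (S.r b - S.l b)) (S.l a) (S.r a - (S.r b - S.l b))
      ?_ ?_ ?_ ?_ ?_, a, b, a, b, ?_, rfl, ?_, ha⟩
    · -- p' < q'
      by_contra hcon
      push Not at hcon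
      -- then `l a ≤ p`, so K_a = K, and b is empty
      have h1 : S.l a ≤ S.p := by linarith
      have hsb := S.sub_of_nonempty hlb
      have := S.uniq (S.l b) a b ⟨by linarith, by linarith⟩ ⟨le_refl _, hlb⟩
      exact hab this
    · linarith
    · rintro x ⟨h1, h2⟩; constructor <;> linarith
    · intro x
      constructor
      · rintro ⟨h1, h2⟩
        exact ⟨⟨h1, by linarith⟩, fun hc => by linarith [hc.1, hc.2]⟩
      · rintro ⟨⟨h1, h2⟩, h3⟩
        refine ⟨h1, ?_⟩
        by_contra hc
        exact h3 ⟨by linarith, by linarith⟩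
    · intro x
      constructor
      · rintro ⟨h1, h2⟩
        exact ⟨⟨h1, by linarith⟩, fun hc => by linarith [hc.1, hc.2]⟩
      · rintro ⟨⟨h1, h2⟩, h3⟩
        refine ⟨h1, ?_⟩
        by_contra hc
        exact h3 ⟨by linarith, by linarith⟩
    · constructor
      · exact hab
      · left; exact ⟨rfl, rfl⟩
      · exact hlb
      · intro x hx
        simpa [cut1, Ne.symm hab] using hx
      · intro x hx
        simp only [cut1, update_of_ne (Ne.symm hab)] at hx
        constructor <;> linarith [hx.1, hx.2]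
      · simp [cut1]
      · simp [cut1, Ne.symm hab]
      · simp [cut1]
      · simp only [cut1, update_self]; linarith
      · simp [cut1, hab]
      · simp only [cut1, update_self]; ring
      · intro j hj1 hj2
        simp [cut1, hj1, hj2]
      · simp only [cut1]; ring
      · simp [cut1]
      · simp only [cut1]; linarith
    · simp only [cut1]; linarith
  · -- type 2
    have hsa := S.sub_of_nonempty hla
    have hsb := S.sub_of_nonempty hlb
    refine ⟨S.cut2 a b hab S.p (S.l a) (S.l b) (S.r b - (S.r a - S.l a))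
      ?_ ?_ ?_ ?_ ?_, a, b, b, a, ?_, rfl, ?_, ha⟩
    · by_contra hcon
      push Not at hcon
      have := S.uniq (S.l b) a b ⟨by linarith, by linarith⟩ ⟨le_refl _, hlb⟩
      exact hab this
    · linarith
    · rintro x ⟨h1, h2⟩; constructor <;> linarith
    · intro x
      constructor
      · rintro ⟨h1, h2⟩
        exact ⟨⟨h1, by linarith⟩, fun hc => by linarith [hc.1, hc.2]⟩
      · rintro ⟨⟨h1, h2⟩, h3⟩
        refine ⟨h1, ?_⟩
        by_contra hc
        exact h3 ⟨by linarith, by linarith⟩
    · intro x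
      constructor
      · rintro ⟨h1, h2⟩
        exact ⟨⟨h1, by linarith⟩, fun hc => by linarith [hc.1, hc.2]⟩
      · rintro ⟨⟨h1, h2⟩, h3⟩
        refine ⟨h1, ?_⟩
        by_contra hc
        exact h3 ⟨by linarith, by linarith⟩
    · constructor
      · exact hab
      · right; exact ⟨rfl, rfl⟩
      · exact hla
      · intro x hx
        simp only [cut2, update_self] at hx
        constructor <;> linarith [hx.1, hx.2]
      · intro x hx
        simp only [cut2, update_self] at hx
        constructor <;> linarith [hx.1, hx.2]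
      · simp [cut2]
      · simp only [cut2, update_self]; ring
      · simp [cut2, Ne.symm hab]
      · simp only [cut2, update_self, update_of_ne (Ne.symm hab)]; linarith
      · simp [cut2, Ne.symm hab]
      · simp only [cut2, update_self, update_of_ne (Ne.symm hab)]; ring
      · intro j hj1 hj2
        simp [cut2, hj1, hj2]
      · simp only [cut2]; linarith
      · simp [cut2]
      · simp only [cut2]; linarith
    · simp only [cut2]; exact le_refl _

/-- The left cut. -/
lemma exists_cut_left (ht : ∀ j, S.l j < S.r j → S.t j ≠ 0) :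
    ∃ (S' : Core d) (a b w ls : Fin d), Cut S S' a b w ls ∧ S'.q = S.q ∧
      S'.p ≤ S.r a ∧ S.l a = S.p ∧ S.l a < S.r a := by
  obtain ⟨a, ha, hla⟩ := S.exists_left
  obtain ⟨b, hb, hlb⟩ := S.exists_left'
  have hab : a ≠ b := by
    rintro rfl
    exact ht a hla (by linarith)
  rcases le_total (S.r b - S.l b) (S.r a - S.l a) with h | h
  · -- type 1
    have hsa := S.sub_of_nonempty hla
    refine ⟨S.cut1 a b hab (S.p + (S.r b - S.l b)) S.q (S.l a + (S.r b - S.l b)) (S.r a)
      ?_ ?_ ?_ ?_ ?_, a, b, a, b, ?_, rfl, ?_, ha, hla⟩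
    · by_contra hcon
      push Not at hcon
      have h1 : S.q ≤ S.r a := by linarith
      have hsb := S.sub_of_nonempty hlb
      have := S.uniq (S.l b) a b ⟨by linarith, by linarith⟩ ⟨le_refl _, hlb⟩
      exact hab this
    · linarith
    · rintro x ⟨h1, h2⟩; constructor <;> linarith
    · intro x
      constructor
      · rintro ⟨h1, h2⟩
        exact ⟨⟨by linarith, h2⟩, fun hc => by linarith [hc.1, hc.2]⟩
      · rintro ⟨⟨h1, h2⟩, h3⟩
        refine ⟨?_, h2⟩
        by_contra hc
        exact h3 ⟨by linarith, by linarith⟩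
    · intro x
      constructor
      · rintro ⟨h1, h2⟩
        exact ⟨⟨by linarith, h2⟩, fun hc => by linarith [hc.1, hc.2]⟩
      · rintro ⟨⟨h1, h2⟩, h3⟩
        refine ⟨?_, h2⟩
        by_contra hc
        exact h3 ⟨by linarith, by linarith⟩
    · constructor
      · exact hab
      · left; exact ⟨rfl, rfl⟩
      · exact hlb
      · intro x hx
        simpa [cut1, Ne.symm hab] using hx
      · intro x hx
        simp only [cut1, update_of_ne (Ne.symm hab)] at hx
        constructor <;> linarith [hx.1, hx.2]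
      · simp [cut1]
      · simp [cut1, Ne.symm hab]
      · simp only [cut1, update_self]; linarith
      · simp [cut1]
      · simp [cut1, hab]
      · simp only [cut1, update_self]; ring
      · intro j hj1 hj2
        simp [cut1, hj1, hj2]
      · simp only [cut1]; ring
      · simp only [cut1]; linarith
      · simp [cut1]
    · simp only [cut1]; linarith
  · -- type 2
    have hsa := S.sub_of_nonempty hla
    have hsb := S.sub_of_nonempty hlb
    refine ⟨S.cut2 a b hab (S.r a) S.q (S.l b + (S.r a - S.l a)) (S.r b)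
      ?_ ?_ ?_ ?_ ?_, a, b, b, a, ?_, rfl, ?_, ha, hla⟩
    · by_contra hcon
      push Not at hcon
      have := S.uniq (S.l b) a b ⟨by linarith, by linarith⟩ ⟨le_refl _, hlb⟩
      exact hab this
    · linarith
    · rintro x ⟨h1, h2⟩; constructor <;> linarith
    · intro x
      constructor
      · rintro ⟨h1, h2⟩
        exact ⟨⟨by linarith, h2⟩, fun hc => by linarith [hc.1, hc.2]⟩
      · rintro ⟨⟨h1, h2⟩, h3⟩
        refine ⟨?_, h2⟩
        by_contra hc
        exact h3 ⟨by linarith, by linarith⟩
    · intro x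
      constructor
      · rintro ⟨h1, h2⟩
        exact ⟨⟨by linarith, h2⟩, fun hc => by linarith [hc.1, hc.2]⟩
      · rintro ⟨⟨h1, h2⟩, h3⟩
        refine ⟨?_, h2⟩
        by_contra hc
        exact h3 ⟨by linarith, by linarith⟩
    · constructor
      · exact hab
      · right; exact ⟨rfl, rfl⟩
      · exact hla
      · intro x hx
        simp only [cut2, update_self] at hx
        constructor <;> linarith [hx.1, hx.2]
      · intro x hx
        simp only [cut2, update_self] at hx
        constructor <;> linarith [hx.1, hx.2]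
      · simp [cut2]
      · simp only [cut2, update_self]; ring
      · simp only [cut2, update_self, update_of_ne (Ne.symm hab)]; linarith
      · simp [cut2, Ne.symm hab]
      · simp [cut2, Ne.symm hab]
      · simp only [cut2, update_self, update_of_ne (Ne.symm hab)]; ring
      · intro j hj1 hj2
        simp [cut2, hj1, hj2]
      · simp only [cut2]; linarith
      · simp only [cut2]; linarith
      · simp [cut2]
    · simp only [cut2]; exact le_refl _

end Core

end Pool.Agent.H17

namespace Pool.Agent.H17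

namespace Core

variable {d : ℕ} (S : Core d)

lemma exists_cut (ht : ∀ j, S.l j < S.r j → S.t j ≠ 0) {x₀ : ℝ} (hx₀ : S.p ≤ x₀ ∧ x₀ < S.q) :
    ∃ (S' : Core d) (a b w ls : Fin d), Cut S S' a b w ls ∧ S'.p ≤ x₀ ∧ x₀ < S'.q := by
  obtain ⟨-, -, -, S', a, b, w, ls, hcut, hp, haq, har⟩ := S.exists_cut_right ht
  rcases lt_or_ge x₀ S'.q with h | h
  · exact ⟨S', a, b, w, ls, hcut, by linarith [hx₀.1], h⟩
  · obtain ⟨S'', a', b', w', ls', hcut', hq, hpa, hla, hlra⟩ := S.exists_cut_left ht
    refine ⟨S'', a', b', w', ls', hcut', ?_, by linarith [hx₀.2]⟩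
    by_contra hcon
    push Not at hcon
    have haa : a = a' := S.uniq x₀ a a' ⟨by linarith, by linarith [hx₀.2]⟩
      ⟨by linarith [hx₀.1], by linarith⟩
    subst haa
    -- now `K_a = K`, contradiction with two distinct nonempty letters
    have hw : S.l w < S.r w := by
      have h1 := hcut.wlen
      have h2 := S'.hlr w
      have h3 := hcut.lpos
      linarith
    have hls := hcut.lpos
    have e1 : a = w := by
      have := S.sub_of_nonempty hw
      exact S.uniq (S.l w) a w ⟨by linarith, by linarith⟩ ⟨le_refl _, hw⟩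
    have e2 : a = ls := by
      have := S.sub_of_nonempty hls
      exact S.uniq (S.l ls) a ls ⟨by linarith, by linarith⟩ ⟨le_refl _, hls⟩
    have hab := hcut.hab
    rcases hcut.hwl with ⟨h1, h2⟩ | ⟨h1, h2⟩
    · exact hab (by rw [← h1, ← h2, ← e1, ← e2])
    · exact hab (by rw [← h1, ← h2, ← e1, ← e2])

open MeasureTheory in
/-- total length -/
lemma sum_len : ∑ j, (S.r j - S.l j) = S.q - S.p := by
  have hU : (⋃ j, Ico (S.l j) (S.r j)) = Ico S.p S.q := by
    ext x
    simp only [mem_iUnion, mem_Ico]
    exact (S.cover x).symm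
  have hd : Pairwise (Disjoint on (fun j => Ico (S.l j) (S.r j))) := by
    intro i j hij
    rw [Function.onFun, Set.disjoint_left]
    intro x hxi hxj
    exact hij (S.uniq x i j hxi hxj)
  have h1 : volume (Ico S.p S.q) = ∑ j, volume (Ico (S.l j) (S.r j)) := by
    rw [← hU, measure_iUnion hd (fun j => measurableSet_Ico), tsum_fintype]
  simp only [Real.volume_Ico] at h1
  rw [← ENNReal.ofReal_sum_of_nonneg (fun j _ => sub_nonneg.2 (S.hlr j))] at h1
  have h2 := (ENNReal.ofReal_eq_ofReal_iff (by linarith [S.hpq])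
    (Finset.sum_nonneg fun j _ => sub_nonneg.2 (S.hlr j))).1 h1
  exact h2.symm

/-- translation length is bounded by the complement of the interval -/
lemma abs_t_le {j : Fin d} (hj : S.l j < S.r j) :
    |S.t j| ≤ (S.q - S.p) - (S.r j - S.l j) := by
  have h1 := S.sub_of_nonempty hj
  have h2 := S.sub_of_nonempty' hj
  rw [abs_le]
  constructor <;> linarith

end Core

end Pool.Agent.H17
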