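import Mathlib

open Set Function MeasureTheory
open scoped ENNReal

namespace Pool.Agent.H17

lemma measurePreserving_update {n : ℕ} {G : Type*} [MeasurableSpace G] (μ : Measure G)
    [SigmaFinite μ] (i : Fin (n + 1)) (θ : (Fin n → G) → G → G) (hθm : Measurable (uncurry θ))
    (hθ : ∀ y, Measure.map (θ y) μ = μ) :
    MeasurePreserving (fun v : Fin (n + 1) → G =>
      update v i (θ (fun j => v (i.succAbove j)) (v i)))
      (Measure.pi fun _ => μ) (Measure.pi fun _ => μ) := by
  have he := measurePreserving_piFinSuccAbove (fun _ : Fin (n + 1) => μ) i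
  have hskew : MeasurePreserving (fun p : (Fin n → G) × G => (p.1, θ p.1 p.2))
      ((Measure.pi fun _ : Fin n => μ).prod μ) ((Measure.pi fun _ : Fin n => μ).prod μ) :=
    MeasurePreserving.skew_product (MeasurePreserving.id _) hθm
      (Filter.Eventually.of_forall hθ)
  have hswap1 : MeasurePreserving (Prod.swap : G × (Fin n → G) → (Fin n → G) × G)
      (μ.prod (Measure.pi fun _ : Fin n => μ)) ((Measure.pi fun _ : Fin n => μ).prod μ) :=
    Measure.measurePreserving_swap
  have hswap2 : MeasurePreserving (Prod.swap : (Fin n → G) × G → G × (Fin n → G))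
      ((Measure.pi fun _ : Fin n => μ).prod μ) (μ.prod (Measure.pi fun _ : Fin n => μ)) :=
    Measure.measurePreserving_swap
  have hsymm := he.symm (MeasurableEquiv.piFinSuccAbove (fun _ : Fin (n + 1) => G) i)
  have hcomp := hsymm.comp (hswap2.comp (hskew.comp (hswap1.comp he)))
  convert hcomp using 1
  funext v
  simp only [Function.comp, MeasurableEquiv.piFinSuccAbove]
  funext k
  by_cases hk : k = i
  · subst hk
    simp [Fin.insertNthEquiv]
    rfl
  · obtain ⟨m, rfl⟩ := Fin.exists_succAbove_eq hk
    simp [Fin.insertNthEquiv, Fin.removeNth, Fin.succAbove_ne]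

lemma nielsen_left {d : ℕ} {G : Type*} [Group G] [MeasurableSpace G] [MeasurableMul₂ G]
    (μ : Measure G) [SigmaFinite μ] [μ.IsMulLeftInvariant] {a b : Fin d} (hab : a ≠ b) :
    MeasurePreserving (fun v : Fin d → G => update v b (v a * v b))
      (Measure.pi fun _ => μ) (Measure.pi fun _ => μ) := by
  obtain ⟨n, rfl⟩ : ∃ n, d = n + 1 := ⟨d - 1, by have := a.2; omega⟩
  obtain ⟨m, hm⟩ := Fin.exists_succAbove_eq hab
  have := measurePreserving_update μ b (fun y x => y m * x)
    (by
      unfold Function.uncurry
      exact ((measurable_pi_apply m).comp measurable_fst).mul measurable_snd)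
    (fun y => map_mul_left_eq_self μ (y m))
  convert this using 1
  funext v
  simp [hm]

lemma nielsen_right {d : ℕ} {G : Type*} [Group G] [MeasurableSpace G] [MeasurableMul₂ G]
    (μ : Measure G) [SigmaFinite μ] [μ.IsMulRightInvariant] {a b : Fin d} (hab : a ≠ b) :
    MeasurePreserving (fun v : Fin d → G => update v a (v a * v b))
      (Measure.pi fun _ => μ) (Measure.pi fun _ => μ) := by
  obtain ⟨n, rfl⟩ : ∃ n, d = n + 1 := ⟨d - 1, by have := a.2; omega⟩
  obtain ⟨m, hm⟩ := Fin.exists_succAbove_eq (Ne.symm hab)
  have := measurePreserving_update μ a (fun y x => x * y m)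
    (by
      unfold Function.uncurry
      exact measurable_snd.mul ((measurable_pi_apply m).comp measurable_fst))
    (fun y => map_mul_right_eq_self μ (y m))
  convert this using 1
  funext v
  simp [hm]

/-- two coordinates of a Haar random tuple form a Haar random pair -/
lemma pair_mp {d : ℕ} {G : Type*} [MeasurableSpace G] (μ : Measure G)
    [IsProbabilityMeasure μ] {a b : Fin d} (hab : a ≠ b) :
    MeasurePreserving (fun v : Fin d → G => (v a, v b))
      (Measure.pi fun _ => μ) (μ.prod μ) := by
  obtain ⟨n, rfl⟩ : ∃ n, d = n + 1 := ⟨d - 1, by have := a.2; omega⟩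
  obtain ⟨m, hm⟩ := Fin.exists_succAbove_eq (Ne.symm hab)
  have he := measurePreserving_piFinSuccAbove (fun _ : Fin (n + 1) => μ) a
  have h2 : MeasurePreserving (fun y : Fin n → G => y m) (Measure.pi fun _ : Fin n => μ) μ :=
    measurePreserving_eval (fun _ : Fin n => μ) m
  have h3 := (MeasurePreserving.prod (MeasurePreserving.id μ) h2).comp he
  convert h3 using 1
  funext v
  simp [MeasurableEquiv.piFinSuccAbove, Fin.insertNthEquiv, Fin.removeNth, hm]

end Pool.Agent.H17
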