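import Mathlib
import Pool.Agent.H17.Core
import Pool.Agent.H17.Tower
import Pool.Agent.H17.Nielsen

open Set Function MeasureTheory
open scoped ENNReal

namespace Pool.Agent.H17

/-- skew product map -/
def skew {X G : Type*} [Mul G] (T : X → X) (φ : X → G) (z : X × G) : X × G :=
  (T z.1, φ z.1 * z.2)

lemma skew_iterate_fst {X G : Type*} [Mul G] (T : X → X) (φ : X → G) (n : ℕ) (z : X × G) :
    ((skew T φ)^[n] z).1 = T^[n] z.1 := by
  induction n with
  | zero => rfl
  | succ n ih => rw [iterate_succ_apply', iterate_succ_apply']; simp [skew, ih]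

/-- An induced exchange on an interval around `x₀` together with its return words. -/
structure Stage {d : ℕ} {G : Type*} [Group G] [MeasurableSpace G] (T : ℝ → ℝ)
    (φ : (Fin d → G) → ℝ → G) (μ : Measure G) (x₀ : ℝ) extends Core d where
  h : Fin d → ℕ
  W : Fin d → (Fin d → G) → G
  hp0 : 0 ≤ p
  hq1 : q ≤ 1
  mem : p ≤ x₀ ∧ x₀ < q
  hpos : ∀ j, 1 ≤ h j
  iter : ∀ (g : Fin d → G) (x : ℝ) (y : G) (j : Fin d), (l j ≤ x ∧ x < r j) →
    (skew T (φ g))^[h j] (x, y) = (x + t j, W j g * y)
  area : ∑ j, (h j : ℝ) * (r j - l j) = 1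
  mp : MeasurePreserving (fun (g : Fin d → G) (j : Fin d) => W j g)
    (Measure.pi fun _ => μ) (Measure.pi fun _ => μ)

namespace Stage

variable {d : ℕ} {G : Type*} [Group G] [MeasurableSpace G] {T : ℝ → ℝ}
    {φ : (Fin d → G) → ℝ → G} {μ : Measure G} {x₀ : ℝ}

lemma iterT (S : Stage T φ μ x₀) {x : ℝ} {j : Fin d} (hx : S.l j ≤ x ∧ x < S.r j) :
    T^[S.h j] x = x + S.t j := by
  have h1 := S.iter (fun _ => 1) x 1 j hx
  have h2 := skew_iterate_fst T (φ (fun _ => 1)) (S.h j) (x, 1)
  rw [h1] at h2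
  exact h2.symm

lemma t_ne (S : Stage T φ μ x₀) (hT : Ergodic T leb01) (hinj : Injective T) {j : Fin d}
    (hj : S.l j < S.r j) : S.t j ≠ 0 := by
  intro h0
  have hs := S.toCore.sub_of_nonempty hj
  refine no_fixed hT hinj (l := S.l j) (r := S.r j) (by linarith [S.hp0, hs.1]) hj
    (by linarith [S.hq1, hs.2]) (S.hpos j) ?_
  intro x hx1 hx2
  rw [S.iterT ⟨hx1, hx2⟩, h0, add_zero]

/-- relation between consecutive stages -/
structure Next (S S' : Stage T φ μ x₀) (w ls : Fin d) : Prop where
  hwl : w ≠ ls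
  lpos : S.l ls < S.r ls
  llen : ∀ j, j ≠ w → S'.r j - S'.l j = S.r j - S.l j
  wlen : S'.r w - S'.l w = (S.r w - S.l w) - (S.r ls - S.l ls)
  const : ∀ j, j ≠ ls → S'.t j = S.t j ∧ S'.h j = S.h j ∧ S.l j ≤ S'.l j ∧ S'.r j ≤ S.r j
  Klen : S'.q - S'.p = (S.q - S.p) - (S.r ls - S.l ls)
  Kp : S.p ≤ S'.p
  Kq : S'.q ≤ S.q

lemma sum_eq_of_two {ι : Type*} [Fintype ι] [DecidableEq ι] {f f' : ι → ℝ} {w l : ι}
    (hwl : w ≠ l) (hsum : f' w + f' l = f w + f l) (ho : ∀ j, j ≠ w → j ≠ l → f' j = f j) :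
    ∑ j, f' j = ∑ j, f j := by
  have e : ∀ g : ι → ℝ, ∑ j, g j = g w + (g l + ∑ j ∈ (Finset.univ.erase w).erase l, g j) := by
    intro g
    rw [Finset.add_sum_erase _ _ (by simp [hwl.symm]), Finset.add_sum_erase _ _ (by simp)]
  rw [e f', e f]
  have : ∑ j ∈ (Finset.univ.erase w).erase l, f' j = ∑ j ∈ (Finset.univ.erase w).erase l, f j := by
    refine Finset.sum_congr rfl fun j hj => ?_
    simp only [Finset.mem_erase, Finset.mem_univ, and_true] at hj
    exact ho j hj.2 hj.1
  rw [this]
  linarith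

lemma exists_next [MeasurableMul₂ G] [IsProbabilityMeasure μ] [μ.IsMulLeftInvariant]
    [μ.IsMulRightInvariant]
    (S : Stage T φ μ x₀) (hT : Ergodic T leb01) (hinj : Injective T) :
    ∃ (S' : Stage T φ μ x₀) (w ls : Fin d), Next S S' w ls := by
  classical
  obtain ⟨C', a, b, w, ls, hcut, hx₀⟩ := S.toCore.exists_cut
    (fun j hj => S.t_ne hT hinj hj) S.mem
  have hwl : w ≠ ls := by
    rcases hcut.hwl with ⟨h1, h2⟩ | ⟨h1, h2⟩
    · rw [h1, h2]; exact hcut.hab
    · rw [h1, h2]; exact hcut.hab.symm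
  have hls : ls = a ∨ ls = b := by
    rcases hcut.hwl with ⟨h1, h2⟩ | ⟨h1, h2⟩
    · exact Or.inr h2
    · exact Or.inl h2
  have hsub : ∀ j, j ≠ ls → ∀ x, (C'.l j ≤ x ∧ x < C'.r j) → (S.l j ≤ x ∧ x < S.r j) := by
    intro j hj x hx
    by_cases hjw : j = w
    · subst hjw
      exact ⟨le_trans hcut.wl hx.1, lt_of_lt_of_le hx.2 hcut.wr⟩
    · have := hcut.other j hjw hj
      rw [this.1, this.2.1] at hx
      exact hx
  have ht : ∀ j, j ≠ ls → C'.t j = S.t j := by
    intro j hj
    by_cases hjw : j = w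
    · subst hjw; exact hcut.wt
    · exact (hcut.other j hjw hj).2.2
  refine ⟨{ C' with
      h := update S.h ls (S.h a + S.h b)
      W := update S.W ls (fun g => S.W a g * S.W b g)
      hp0 := le_trans S.hp0 hcut.Kp
      hq1 := le_trans hcut.Kq S.hq1
      mem := hx₀
      hpos := ?_
      iter := ?_
      area := ?_
      mp := ?_ }, w, ls, ?_⟩
  · intro j
    by_cases hj : j = ls
    · subst hj; simp only [update_self]; have := S.hpos a; omega
    · simp only [update_of_ne hj]; exact S.hpos j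
  · intro g x y j hx
    by_cases hj : j = ls
    · subst hj
      simp only [update_self]
      have h1 := hcut.lsub x hx
      have h2 := hcut.lmap x hx
      rw [iterate_add_apply, S.iter g x y b h1, S.iter g _ _ a h2, hcut.lt, mul_assoc, add_assoc]
    · simp only [update_of_ne hj]
      rw [S.iter g x y j (hsub j hj x hx), ht j hj]
  · rw [← S.area]
    refine sum_eq_of_two hwl ?_ ?_
    · simp only [update_self, update_of_ne hwl]
      have h1 := hcut.wlen
      have h2 := hcut.llen
      rw [h1, h2]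
      rcases hcut.hwl with ⟨e1, e2⟩ | ⟨e1, e2⟩
      · rw [e1, e2]; push_cast; ring
      · rw [e1, e2]; push_cast; ring
    · intro j hjw hjl
      simp only [update_of_ne hjl]
      have := hcut.other j hjw hjl
      rw [this.1, this.2.1]
  · have hN : MeasurePreserving (fun v : Fin d → G => update v ls (v a * v b))
        (Measure.pi fun _ => μ) (Measure.pi fun _ => μ) := by
      rcases hls with h | h
      · rw [h]; exact nielsen_right μ hcut.hab
      · rw [h]; exact nielsen_left μ hcut.hab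
    have := hN.comp S.mp
    convert this using 1
    funext g j
    by_cases hj : j = ls
    · subst hj; simp
    · simp [hj]
  · constructor
    · exact hwl
    · exact hcut.lpos
    · intro j hj
      by_cases hjl : j = ls
      · subst hjl; exact hcut.llen
      · have := hcut.other j hj hjl
        change C'.r j - C'.l j = _
        rw [this.1, this.2.1]
    · exact hcut.wlen
    · intro j hj
      refine ⟨ht j hj, by simp [hj], ?_⟩
      by_cases hjw : j = w
      · subst hjw; exact ⟨hcut.wl, hcut.wr⟩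
      · have := hcut.other j hjw hj
        change S.l j ≤ C'.l j ∧ C'.r j ≤ S.r j
        rw [this.1, this.2.1]
        exact ⟨le_refl _, le_refl _⟩
    · exact hcut.Klen
    · exact hcut.Kp
    · exact hcut.Kq

end Stage

end Pool.Agent.H17
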