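import Mathlib
import Pool.Agent.H17.Stage

open Set Function MeasureTheory Filter Topology
open scoped ENNReal

namespace Pool.Agent.H17

namespace Stage

variable {d : ℕ} {G : Type*} [Group G] [MeasurableSpace G] {T : ℝ → ℝ}
    {φ : (Fin d → G) → ℝ → G} {μ : Measure G} {x₀ : ℝ}

/-- length of the letter `j` -/
def len (S : Stage T φ μ x₀) (j : Fin d) : ℝ := S.r j - S.l j

/-- length of the interval -/
def K (S : Stage T φ μ x₀) : ℝ := S.q - S.p

lemma len_nonneg (S : Stage T φ μ x₀) (j : Fin d) : 0 ≤ S.len j := sub_nonneg.2 (S.hlr j)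

lemma K_pos (S : Stage T φ μ x₀) : 0 < S.K := sub_pos.2 S.hpq

lemma sum_len (S : Stage T φ μ x₀) : ∑ j, S.len j = S.K := S.toCore.sum_len

lemma len_le (S : Stage T φ μ x₀) (j : Fin d) : S.len j ≤ S.K := by
  rw [← S.sum_len]
  exact Finset.single_le_sum (fun i _ => S.len_nonneg i) (Finset.mem_univ j)

variable {S : ℕ → Stage T φ μ x₀} {w ls : ℕ → Fin d}

lemma antitone_len (hS : ∀ n, Next (S n) (S (n + 1)) (w n) (ls n)) (j : Fin d) :
    Antitone (fun n => (S n).len j) := by
  apply antitone_nat_of_succ_le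
  intro n
  by_cases hj : j = w n
  · have := (hS n).wlen
    have h2 := (hS n).lpos
    rw [hj]
    unfold len
    linarith
  · have := (hS n).llen j hj
    unfold len
    linarith

lemma antitone_K (hS : ∀ n, Next (S n) (S (n + 1)) (w n) (ls n)) :
    Antitone (fun n => (S n).K) := by
  apply antitone_nat_of_succ_le
  intro n
  have := (hS n).Klen
  have h2 := (hS n).lpos
  unfold K
  linarith

/-- The intervals shrink to a point. -/
lemma tendsto_K (hT : Ergodic T leb01) (hinj : Injective T)
    (hS : ∀ n, Next (S n) (S (n + 1)) (w n) (ls n)) :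
    Tendsto (fun n => (S n).K) atTop (𝓝 0) := by
  classical
  -- limits of the lengths
  set L : Fin d → ℝ := fun j => ⨅ n, (S n).len j with hL
  have hbdd : ∀ j, BddBelow (range (fun n => (S n).len j)) := fun j =>
    ⟨0, by rintro _ ⟨n, rfl⟩; exact (S n).len_nonneg j⟩
  have hlim : ∀ j, Tendsto (fun n => (S n).len j) atTop (𝓝 (L j)) := fun j =>
    tendsto_atTop_ciInf (antitone_len hS j) (hbdd j)
  have hLle : ∀ j n, L j ≤ (S n).len j := fun j n => ciInf_le (hbdd j) n
  have hL0 : ∀ j, 0 ≤ L j := fun j => le_ciInf fun n => (S n).len_nonneg j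
  have hKlim : Tendsto (fun n => (S n).K) atTop (𝓝 (∑ j, L j)) := by
    have h1 : Tendsto (fun n => ∑ j, (S n).len j) atTop (𝓝 (∑ j, L j)) :=
      tendsto_finsetSum _ fun j _ => hlim j
    refine h1.congr fun n => (S n).sum_len
  set ell : ℝ := ∑ j, L j with hell
  have hell0 : 0 ≤ ell := Finset.sum_nonneg fun j _ => hL0 j
  rcases hell0.eq_or_lt with h0 | hpos
  · rw [← h0] at hKlim; exact hKlim
  exfalso
  set F : Finset (Fin d) := Finset.univ.filter (fun j => 0 < L j) with hF
  have hLsum : ∑ j ∈ F, L j = ell := by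
    rw [hell, hF]
    rw [Finset.sum_filter]
    refine Finset.sum_congr rfl fun j _ => ?_
    split_ifs with h
    · rfl
    · exact le_antisymm (hL0 j) (not_lt.1 h)
  -- differences tend to zero
  have hdiff : Tendsto (fun n => (S n).K - (S (n + 1)).K) atTop (𝓝 0) := by
    have h1 := hKlim.sub (hKlim.comp (tendsto_add_atTop_nat 1))
    simpa using h1
  have hev : ∀ᶠ n in atTop, ls n ∉ F := by
    have h1 : ∀ j ∈ F, ∀ᶠ n in atTop, (S n).K - (S (n + 1)).K < L j := by
      intro j hj
      have hj' : 0 < L j := by simpa [hF] using hj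
      exact hdiff.eventually_lt_const hj'
    have h2 : ∀ᶠ n in atTop, ∀ j ∈ F, (S n).K - (S (n + 1)).K < L j :=
      (Filter.eventually_all_finset F).2 h1
    filter_upwards [h2] with n hn hmem
    have h3 := hn _ hmem
    have h4 := (hS n).Klen
    have h5 := hLle (ls n) n
    unfold len at h5
    unfold K at h3
    linarith
  obtain ⟨n0, hn0⟩ := eventually_atTop.1 hev
  -- constancy of t and h on F after n0
  have hconst : ∀ s ∈ F, ∀ m, (S (n0 + m)).t s = (S n0).t s ∧ (S (n0 + m)).h s = (S n0).h s := by
    intro s hs m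
    induction m with
    | zero => exact ⟨rfl, rfl⟩
    | succ m ih =>
      have hne : s ≠ ls (n0 + m) := by
        intro h
        exact hn0 (n0 + m) (by omega) (h ▸ hs)
      have := (hS (n0 + m)).const s hne
      rw [← ih.1, ← ih.2]
      exact ⟨this.1, this.2.1⟩
  have hmono : ∀ s ∈ F, Antitone (fun m => Ico ((S (n0 + m)).l s) ((S (n0 + m)).r s)) := by
    intro s hs
    apply antitone_nat_of_succ_le
    intro m
    have hne : s ≠ ls (n0 + m) := by
      intro h
      exact hn0 (n0 + m) (by omega) (h ▸ hs)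
    have := (hS (n0 + m)).const s hne
    exact Ico_subset_Ico this.2.2.1 this.2.2.2
  have hmonoK : Antitone (fun m => Ico ((S (n0 + m)).p) ((S (n0 + m)).q)) := by
    apply antitone_nat_of_succ_le
    intro m
    exact Ico_subset_Ico (hS (n0 + m)).Kp (hS (n0 + m)).Kq
  set A : Fin d → Set ℝ := fun s => ⋂ m, Ico ((S (n0 + m)).l s) ((S (n0 + m)).r s) with hA
  set B : Set ℝ := ⋂ m, Ico ((S (n0 + m)).p) ((S (n0 + m)).q) with hB
  have hAm : ∀ s, MeasurableSet (A s) := fun s =>
    MeasurableSet.iInter fun m => measurableSet_Ico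
  have hnonempty : ∀ s ∈ F, ∀ n, (S n).l s < (S n).r s := by
    intro s hs n
    have h1 : 0 < L s := by simpa [hF] using hs
    have h2 := hLle s n
    unfold len at h2
    linarith
  have hmeasS : ∀ s ∈ F, ∀ m, leb01 (Ico ((S (n0 + m)).l s) ((S (n0 + m)).r s)) =
      ENNReal.ofReal ((S (n0 + m)).len s) := by
    intro s hs m
    have h1 := (S (n0 + m)).toCore.sub_of_nonempty (hnonempty s hs _)
    exact leb01_Ico (by linarith [(S (n0 + m)).hp0, h1.1]) (by linarith [(S (n0 + m)).hq1, h1.2])
  have hmeasA : ∀ s ∈ F, leb01 (A s) = ENNReal.ofReal (L s) := by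
    intro s hs
    have h1 := tendsto_measure_iInter_atTop (μ := leb01)
      (s := fun m => Ico ((S (n0 + m)).l s) ((S (n0 + m)).r s))
      (fun m => measurableSet_Ico.nullMeasurableSet) (hmono s hs) ⟨0, measure_ne_top _ _⟩
    have h2 : Tendsto (fun m => leb01 (Ico ((S (n0 + m)).l s) ((S (n0 + m)).r s))) atTop
        (𝓝 (ENNReal.ofReal (L s))) := by
      simp_rw [hmeasS s hs]
      refine ENNReal.tendsto_ofReal ?_
      have := (hlim s).comp (tendsto_add_atTop_nat n0)
      refine this.congr fun m => ?_
      simp [add_comm]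
    exact tendsto_nhds_unique h1 h2
  have hmeasB : leb01 B = ENNReal.ofReal ell := by
    have h1 := tendsto_measure_iInter_atTop (μ := leb01)
      (s := fun m => Ico ((S (n0 + m)).p) ((S (n0 + m)).q))
      (fun m => measurableSet_Ico.nullMeasurableSet) hmonoK ⟨0, measure_ne_top _ _⟩
    have h2 : Tendsto (fun m => leb01 (Ico ((S (n0 + m)).p) ((S (n0 + m)).q))) atTop
        (𝓝 (ENNReal.ofReal ell)) := by
      have h3 : ∀ m, leb01 (Ico ((S (n0 + m)).p) ((S (n0 + m)).q)) =
          ENNReal.ofReal ((S (n0 + m)).K) := fun m =>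
        leb01_Ico (S (n0 + m)).hp0 (S (n0 + m)).hq1
      simp_rw [h3]
      refine ENNReal.tendsto_ofReal ?_
      have := hKlim.comp (tendsto_add_atTop_nat n0)
      refine this.congr fun m => ?_
      simp [add_comm]
    exact tendsto_nhds_unique h1 h2
  -- the A s are disjoint subsets of B
  have hAB : (⋃ s ∈ F, A s) ⊆ B := by
    intro x hx
    simp only [mem_iUnion] at hx
    obtain ⟨s, hs, hx⟩ := hx
    simp only [hA, mem_iInter] at hx
    simp only [hB, mem_iInter]
    intro m
    exact ((S (n0 + m)).cover x).2 ⟨s, hx m⟩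
  have hdisj : Set.PairwiseDisjoint (F : Set (Fin d)) A := by
    intro s _ s' _ hss'
    rw [Function.onFun, Set.disjoint_left]
    intro x hx hx'
    simp only [hA, mem_iInter] at hx hx'
    exact hss' ((S (n0 + 0)).uniq x s s' (hx 0) (hx' 0))
  have hmeasU : leb01 (⋃ s ∈ F, A s) = ENNReal.ofReal ell := by
    rw [measure_biUnion_finset hdisj (fun s _ => hAm s), Finset.sum_congr rfl hmeasA,
      ← ENNReal.ofReal_sum_of_nonneg (fun s _ => hL0 s), hLsum]
  have key := tower_area hT hinj F A (fun s _ => hAm s) (fun s => (S n0).h s)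
    (fun s _ => (S n0).hpos s) B
    (by
      intro s hs x hx
      simp only [hA, mem_iInter] at hx
      simp only [hB, mem_iInter]
      intro m
      have h1 := (S (n0 + m)).iterT (hx m)
      have h2 := hconst s hs m
      rw [h2.2] at h1
      rw [h1]
      exact ((S (n0 + m)).cover' _).2 ⟨s, by constructor <;> linarith [(hx m).1, (hx m).2]⟩)
    (by
      rw [measure_sdiff hAB (Finset.measurableSet_biUnion _ fun s _ => hAm s).nullMeasurableSet
        (measure_ne_top _ _), hmeasB, hmeasU, tsub_self])
    (by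
      rw [hmeasU]
      simp [hpos])
  have key2 : (1 : ℝ) ≤ ∑ s ∈ F, ((S n0).h s : ℝ) * L s := by
    have h1 : ∑ s ∈ F, (((S n0).h s : ℕ) : ℝ≥0∞) * leb01 (A s) =
        ENNReal.ofReal (∑ s ∈ F, ((S n0).h s : ℝ) * L s) := by
      rw [ENNReal.ofReal_sum_of_nonneg (fun s _ => mul_nonneg (Nat.cast_nonneg _) (hL0 s))]
      refine Finset.sum_congr rfl fun s hs => ?_
      rw [hmeasA s hs, ENNReal.ofReal_mul (Nat.cast_nonneg _)]
      simp
    rw [h1, ← ENNReal.ofReal_one] at key
    exact (ENNReal.ofReal_le_ofReal_iff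
      (Finset.sum_nonneg fun s _ => mul_nonneg (Nat.cast_nonneg _) (hL0 s))).1 key
  -- contradiction with the area at stage n0
  have harea := (S n0).area
  have hlsn : ls n0 ∉ F := hn0 n0 le_rfl
  have hstrict : ∑ s ∈ F, ((S n0).h s : ℝ) * L s < ∑ j, ((S n0).h j : ℝ) * ((S n0).r j - (S n0).l j) := by
    calc ∑ s ∈ F, ((S n0).h s : ℝ) * L s
        ≤ ∑ s ∈ F, ((S n0).h s : ℝ) * ((S n0).r s - (S n0).l s) := by
          refine Finset.sum_le_sum fun s _ => ?_
          exact mul_le_mul_of_nonneg_left (hLle s n0) (Nat.cast_nonneg _)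
      _ < ∑ s ∈ insert (ls n0) F, ((S n0).h s : ℝ) * ((S n0).r s - (S n0).l s) := by
          rw [Finset.sum_insert hlsn]
          have h1 : 0 < ((S n0).h (ls n0) : ℝ) * ((S n0).r (ls n0) - (S n0).l (ls n0)) := by
            have h2 := (S n0).hpos (ls n0)
            have h3 := (hS n0).lpos
            have h4 : (0 : ℝ) < ((S n0).h (ls n0) : ℝ) := by exact_mod_cast h2
            exact mul_pos h4 (by linarith)
          linarith
      _ ≤ ∑ j, ((S n0).h j : ℝ) * ((S n0).r j - (S n0).l j) := by
          refine Finset.sum_le_sum_of_subset_of_nonneg (Finset.subset_univ _) ?_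
          intro j _ _
          exact mul_nonneg (Nat.cast_nonneg _) (sub_nonneg.2 ((S n0).hlr j))
  linarith

/-- There are infinitely many stages without a dominating letter. -/
lemma frequently_good (hT : Ergodic T leb01) (hinj : Injective T)
    (hS : ∀ n, Next (S n) (S (n + 1)) (w n) (ls n)) (N : ℕ) :
    ∃ n, N ≤ n ∧ ∀ j, (S n).len j ≤ (3 / 4) * (S n).K := by
  by_contra hcon
  push Not at hcon
  have : Nonempty (Fin d) := ⟨w 0⟩
  choose! J hJ using hcon
  -- J is constant and never loses
  have hne : ∀ n, N ≤ n → ls n ≠ J n := by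
    intro n hn h
    have h1 := hJ n hn
    have h2 := (hS n).wlen
    have h3 := (S (n + 1)).hlr (w n)
    rw [← h] at h1
    have h4 : (S n).len (w n) + (S n).len (ls n) ≤ (S n).K := by
      rw [← (S n).sum_len]
      have := Finset.sum_le_sum_of_subset_of_nonneg (f := fun i => (S n).len i)
        (Finset.subset_univ {w n, ls n}) (fun i _ _ => (S n).len_nonneg i)
      rwa [Finset.sum_pair (hS n).hwl] at this
    have h5 := (S n).K_pos
    unfold len at h1 h4
    linarith
  have hstep : ∀ n, N ≤ n → J (n + 1) = J n := by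
    intro n hn
    by_contra hne'
    have h1 := hJ n hn
    have h2 := hJ (n + 1) (by omega)
    have h3 := antitone_len hS (J (n + 1)) (Nat.le_succ n)
    have h4 := (hS n).Klen
    have h5 : (S n).len (J n) + (S n).len (J (n + 1)) ≤ (S n).K := by
      rw [← (S n).sum_len]
      have := Finset.sum_le_sum_of_subset_of_nonneg (f := fun i => (S n).len i)
        (Finset.subset_univ {J n, J (n + 1)}) (fun i _ _ => (S n).len_nonneg i)
      rwa [Finset.sum_pair (Ne.symm hne')] at this
    have h6 : (S n).len (J n) + (S n).len (ls n) ≤ (S n).K := by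
      rw [← (S n).sum_len]
      have := Finset.sum_le_sum_of_subset_of_nonneg (f := fun i => (S n).len i)
        (Finset.subset_univ {J n, ls n}) (fun i _ _ => (S n).len_nonneg i)
      rwa [Finset.sum_pair (hne n hn).symm] at this
    have h7 : (S (n + 1)).K = (S n).K - (S n).len (ls n) := h4
    simp only at h3
    have h8 := (S n).K_pos
    linarith
  have hJconst : ∀ m, J (N + m) = J N := by
    intro m
    induction m with
    | zero => rfl
    | succ m ih => rw [← ih]; exact hstep (N + m) (by omega)
  have htconst : ∀ m, (S (N + m)).t (J N) = (S N).t (J N) := by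
    intro m
    induction m with
    | zero => rfl
    | succ m ih =>
      rw [← ih]
      have h1 := hne (N + m) (by omega)
      rw [hJconst m] at h1
      exact ((hS (N + m)).const (J N) (Ne.symm h1)).1
  have hpos : ∀ m, (S (N + m)).l (J N) < (S (N + m)).r (J N) := by
    intro m
    have h1 := hJ (N + m) (by omega)
    rw [hJconst m] at h1
    have h2 := (S (N + m)).K_pos
    unfold len at h1
    linarith
  have hbound : ∀ m, |(S N).t (J N)| ≤ (S (N + m)).K := by
    intro m
    rw [← htconst m]
    have h1 := (S (N + m)).toCore.abs_t_le (hpos m)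
    have h2 := hpos m
    unfold K
    linarith
  have hlim : Tendsto (fun m => (S (N + m)).K) atTop (𝓝 0) := by
    have := (tendsto_K hT hinj hS).comp (tendsto_add_atTop_nat N)
    refine this.congr fun m => ?_
    simp [add_comm]
  have h0 : |(S N).t (J N)| ≤ 0 := ge_of_tendsto' hlim hbound
  have h1 : (S N).t (J N) = 0 := abs_eq_zero.1 (le_antisymm h0 (abs_nonneg _))
  exact (S N).t_ne hT hinj (hpos 0) h1

/-- Key proposition: arbitrarily short stages around `x₀` with two substantial letters. -/
theorem exists_good [MeasurableMul₂ G] [IsProbabilityMeasure μ] [μ.IsMulLeftInvariant]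
    [μ.IsMulRightInvariant] (hT : Ergodic T leb01) (hinj : Injective T)
    (S0 : Stage T φ μ x₀) {ε : ℝ} (hε : 0 < ε) :
    ∃ (S : Stage T φ μ x₀), S.K < ε ∧ ∃ j k : Fin d, j ≠ k ∧
      S.K / (4 * d) ≤ S.len j ∧ S.K / (4 * d) ≤ S.len k := by
  classical
  choose nxt w ls hnxt using fun S : Stage T φ μ x₀ => S.exists_next hT hinj
  set S : ℕ → Stage T φ μ x₀ := fun n => nxt^[n] S0 with hSdef
  have hS : ∀ n, Next (S n) (S (n + 1)) (w (S n)) (ls (S n)) := by
    intro n
    have : S (n + 1) = nxt (S n) := by simp only [hSdef, iterate_succ_apply']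
    rw [this]
    exact hnxt (S n)
  have hlim := tendsto_K (w := fun n => w (S n)) (ls := fun n => ls (S n)) hT hinj hS
  obtain ⟨N, hN⟩ := eventually_atTop.1 (hlim.eventually_lt_const hε)
  obtain ⟨n, hn, hgood⟩ := frequently_good (w := fun n => w (S n)) (ls := fun n => ls (S n))
    hT hinj hS N
  refine ⟨S n, hN n hn, ?_⟩
  have hK := (S n).K_pos
  have hsum := (S n).sum_len
  have hdpos : 0 < d := by
    rcases Nat.eq_zero_or_pos d with h | h
    · subst h
      simp at hsum
      linarith
    · exact h
  have hd' : (0 : ℝ) < d := by exact_mod_cast hdpos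
  have : Nonempty (Fin d) := ⟨⟨0, hdpos⟩⟩
  -- the largest letter
  obtain ⟨j, -, hj⟩ := Finset.exists_max_image Finset.univ (fun i => (S n).len i)
    Finset.univ_nonempty
  have hjlarge : (S n).K / (4 * d) ≤ (S n).len j := by
    have h1 : (S n).K ≤ d * (S n).len j := by
      rw [← hsum]
      calc ∑ i, (S n).len i ≤ ∑ _i : Fin d, (S n).len j := Finset.sum_le_sum fun i _ => hj i (Finset.mem_univ i)
        _ = d * (S n).len j := by simp
    rw [div_le_iff₀ (by positivity)]
    have := (S n).len_nonneg j
    nlinarith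
  -- another one
  have hrest : (S n).K / 4 ≤ ∑ i ∈ Finset.univ.erase j, (S n).len i := by
    have h1 := Finset.add_sum_erase Finset.univ (fun i => (S n).len i) (Finset.mem_univ j)
    have h2 := hgood j
    linarith
  have hne : (Finset.univ.erase j).Nonempty := by
    by_contra hcon
    rw [Finset.not_nonempty_iff_eq_empty] at hcon
    rw [hcon, Finset.sum_empty] at hrest
    linarith
  obtain ⟨k, hk, hkmax⟩ := Finset.exists_max_image (Finset.univ.erase j)
    (fun i => (S n).len i) hne
  refine ⟨j, k, (Finset.ne_of_mem_erase hk).symm, hjlarge, ?_⟩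
  have h1 : ∑ i ∈ Finset.univ.erase j, (S n).len i ≤ d * (S n).len k := by
    calc ∑ i ∈ Finset.univ.erase j, (S n).len i
        ≤ ∑ _i ∈ Finset.univ.erase j, (S n).len k := Finset.sum_le_sum fun i hi => hkmax i hi
      _ = ((Finset.univ.erase j).card : ℝ) * (S n).len k := by simp
      _ ≤ d * (S n).len k := by
          have h2 : ((Finset.univ.erase j).card : ℝ) ≤ d := by
            have := Finset.card_le_univ (Finset.univ.erase j)
            simp only [Fintype.card_fin] at this
            exact_mod_cast this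
          exact mul_le_mul_of_nonneg_right h2 ((S n).len_nonneg k)
  rw [div_le_iff₀ (by positivity)]
  nlinarith

end Stage

end Pool.Agent.H17
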