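import Mathlib
import Pool.Agent.H17.Shrink
import Pool.Agent.H17.Ae
import Pool.Agent.H17.Lebesgue

open Set Function MeasureTheory Filter Topology
open scoped ENNReal InnerProductSpace

namespace Pool.Agent.H17

universe u v

/-- If `f` is asymptotically fixed by Haar random pairs then it vanishes. -/
lemma eq_zero_of_almost_fixed {Θ : Type*} [MeasurableSpace Θ] (θ : Measure Θ)
    [IsProbabilityMeasure θ] {G : Type u} [Group G] [TopologicalSpace G] [IsTopologicalGroup G]
    [CompactSpace G] [ConnectedSpace G] [MeasurableSpace G] [BorelSpace G]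
    [SecondCountableTopology G] (μ : Measure G) [IsProbabilityMeasure μ]
    [μ.IsMulRightInvariant]
    {E : Type v} [NormedAddCommGroup E] [InnerProductSpace ℝ E] [FiniteDimensional ℝ E]
    (R : OrthRep G E) (hfix : ∀ v, (∀ g, R.ρ g v = v) → v = 0)
    (f : Θ → E) (hf : StronglyMeasurable f) (a b : ℕ → Θ → G)
    (hab : ∀ n, MeasurePreserving (fun g => (a n g, b n g)) θ (μ.prod μ))
    (c : ℕ → ℝ≥0∞) (hc : Tendsto c atTop (𝓝 0))
    (ha : ∀ n, ∫⁻ g, ‖R.ρ (a n g) (f g) - f g‖ₑ ∂θ ≤ c n)
    (hb : ∀ n, ∫⁻ g, ‖R.ρ (b n g) (f g) - f g‖ₑ ∂θ ≤ c n) : f =ᵐ[θ] 0 := by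
  have hmeas : ∀ x : Θ → G, Measurable x → Measurable fun g => ‖R.ρ (x g) (f g) - f g‖ₑ := by
    intro x hx
    have h1 : StronglyMeasurable fun g => R.ρ (x g) (f g) := by
      have h2 : StronglyMeasurable fun g => (x g, f g) := hx.stronglyMeasurable.prodMk hf
      exact R.continuous_action.comp_stronglyMeasurable h2
    exact (h1.sub hf).enorm
  -- key bound
  have key : ∀ κ : ℝ, 0 < κ → ∀ δ : ℝ, 0 < δ →
      θ {g | κ ≤ ‖f g‖} ≤ (μ.prod μ) {p | |R.detf p| < δ} := by
    intro κ hκ δ hδ
    obtain ⟨c0, hc0, hlow⟩ := R.exists_lower_bound hδ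
    have hstep : ∀ n, θ {g | κ ≤ ‖f g‖} ≤
        (μ.prod μ) {p | |R.detf p| < δ} + (c n + c n) / ENNReal.ofReal (c0 * κ) := by
      intro n
      have hsub : {g | κ ≤ ‖f g‖} ⊆ (fun g => (a n g, b n g)) ⁻¹' {p | |R.detf p| < δ} ∪
          {g | ENNReal.ofReal (c0 * κ) ≤ ‖R.ρ (a n g) (f g) - f g‖ₑ + ‖R.ρ (b n g) (f g) - f g‖ₑ} := by
        intro g hg
        by_cases h : |R.detf (a n g, b n g)| < δ
        · left; exact h
        · right
          have h1 := hlow (a n g, b n g) (not_lt.1 h) (f g)
          have hg' : κ ≤ ‖f g‖ := hg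
          have h2 : c0 * κ ≤ ‖R.ρ (a n g) (f g) - f g‖ + ‖R.ρ (b n g) (f g) - f g‖ :=
            le_trans (mul_le_mul_of_nonneg_left hg' hc0.le) h1
          change ENNReal.ofReal (c0 * κ) ≤ _
          rw [← ofReal_norm, ← ofReal_norm, ← ENNReal.ofReal_add (norm_nonneg _) (norm_nonneg _)]
          exact ENNReal.ofReal_le_ofReal h2
      refine (measure_mono hsub).trans ((measure_union_le _ _).trans ?_)
      have hopen : MeasurableSet {p : G × G | |R.detf p| < δ} :=
        (isOpen_lt R.continuous_detf.abs continuous_const).measurableSet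
      rw [(hab n).measure_preimage hopen.nullMeasurableSet]
      gcongr
      have ham : Measurable (a n) := measurable_fst.comp (hab n).measurable
      have hbm : Measurable (b n) := measurable_snd.comp (hab n).measurable
      have hpos : ENNReal.ofReal (c0 * κ) ≠ 0 := by
        simp only [ne_eq, ENNReal.ofReal_eq_zero, not_le]; positivity
      calc θ {g | ENNReal.ofReal (c0 * κ) ≤ ‖R.ρ (a n g) (f g) - f g‖ₑ + ‖R.ρ (b n g) (f g) - f g‖ₑ}
          ≤ (∫⁻ g, (‖R.ρ (a n g) (f g) - f g‖ₑ + ‖R.ρ (b n g) (f g) - f g‖ₑ) ∂θ) /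
            ENNReal.ofReal (c0 * κ) :=
            meas_ge_le_lintegral_div ((hmeas _ ham).add (hmeas _ hbm)).aemeasurable hpos
              ENNReal.ofReal_ne_top
        _ ≤ _ := by
            rw [lintegral_add_left (hmeas _ ham)]
            gcongr
            · exact ha n
            · exact hb n
    have hlim : Tendsto (fun n => (μ.prod μ) {p | |R.detf p| < δ} +
        (c n + c n) / ENNReal.ofReal (c0 * κ)) atTop
        (𝓝 ((μ.prod μ) {p | |R.detf p| < δ})) := by
      have h1 : Tendsto (fun n => (c n + c n) / ENNReal.ofReal (c0 * κ)) atTop (𝓝 0) := by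
        have h2 : Tendsto (fun n => c n + c n) atTop (𝓝 0) := by simpa using hc.add hc
        have h3 := ENNReal.Tendsto.div_const h2 (b := ENNReal.ofReal (c0 * κ)) (Or.inr (by
          simp only [ne_eq, ENNReal.ofReal_eq_zero, not_le]; positivity))
        simpa using h3
      simpa using h1.const_add ((μ.prod μ) {p | |R.detf p| < δ})
    exact ge_of_tendsto' hlim hstep
  -- the right hand side tends to zero
  have hzero : (μ.prod μ) {p | R.detf p = 0} = 0 := by
    have h1 := OrthRep.ae_detf_ne_zero μ R hfix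
    have h2 : {p | R.detf p = 0} = {p | ¬ (R.detf p ≠ 0)} := by ext p; simp
    rw [h2]
    exact h1
  have hlim : Tendsto (fun m : ℕ => (μ.prod μ) {p | |R.detf p| < 1 / ((m : ℝ) + 1)}) atTop
      (𝓝 0) := by
    have h1 := tendsto_measure_iInter_atTop (μ := μ.prod μ)
      (s := fun m : ℕ => {p | |R.detf p| < 1 / ((m : ℝ) + 1)})
      (fun m => (isOpen_lt R.continuous_detf.abs continuous_const).measurableSet.nullMeasurableSet)
      (by
        intro m n hmn p hp
        have hp' : |R.detf p| < 1 / ((n : ℝ) + 1) := hp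
        have : (1 : ℝ) / (n + 1) ≤ 1 / (m + 1) := by gcongr
        exact lt_of_lt_of_le hp' this) ⟨0, measure_ne_top _ _⟩
    have h2 : ⋂ m : ℕ, {p | |R.detf p| < 1 / ((m : ℝ) + 1)} = {p | R.detf p = 0} := by
      ext p
      simp only [mem_iInter]
      constructor
      · intro h
        by_contra hne
        have hpos : 0 < |R.detf p| := abs_pos.2 hne
        obtain ⟨m, hm⟩ := exists_nat_one_div_lt hpos
        have := h m
        exact absurd this (not_lt.2 hm.le)
      · intro h m
        have h' : R.detf p = 0 := h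
        change |R.detf p| < _
        rw [h', abs_zero]
        positivity
    rw [h2, hzero] at h1
    exact h1
  have hk0 : ∀ κ : ℝ, 0 < κ → θ {g | κ ≤ ‖f g‖} = 0 := by
    intro κ hκ
    refine le_antisymm ?_ zero_le
    exact ge_of_tendsto' hlim fun m => key κ hκ _ (by positivity)
  have hall : ∀ᵐ g ∂θ, ∀ m : ℕ, ¬ (1 / ((m : ℝ) + 1) ≤ ‖f g‖) := by
    rw [ae_all_iff]
    intro m
    have := hk0 (1 / ((m : ℝ) + 1)) (by positivity)
    rw [ae_iff]
    simpa using this
  filter_upwards [hall] with g hg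
  by_contra hne
  have hpos : 0 < ‖f g‖ := norm_pos_iff.2 hne
  obtain ⟨m, hm⟩ := exists_nat_one_div_lt hpos
  exact hg m hm.le

/-- iterate of the equivariance -/
lemma iterate_equi {d : ℕ} {G : Type u} [Group G] [TopologicalSpace G] [MeasurableSpace G]
    (θ : Measure (Fin d → G)) [SFinite θ] {T : ℝ → ℝ} (hT : MeasurePreserving T leb01 leb01)
    {φ : (Fin d → G) → ℝ → G}
    {E : Type v} [NormedAddCommGroup E] [InnerProductSpace ℝ E]
    (R : OrthRep G E) (F : ℝ × (Fin d → G) → E)
    (hequi : ∀ᵐ z ∂(leb01.prod θ), F (T z.1, z.2) = R.ρ (φ z.2 z.1) (F z)) :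
    ∀ᵐ z ∂(leb01.prod θ), ∀ n, F (((skew T (φ z.2))^[n] (z.1, 1)).1, z.2) =
      R.ρ ((skew T (φ z.2))^[n] (z.1, 1)).2 (F z) := by
  have hS2 : MeasurePreserving (Prod.map T (id : (Fin d → G) → (Fin d → G)))
      (leb01.prod θ) (leb01.prod θ) := hT.prod (MeasurePreserving.id θ)
  have h1 : ∀ᵐ z ∂(leb01.prod θ), ∀ n : ℕ, F (T (T^[n] z.1), z.2) =
      R.ρ (φ z.2 (T^[n] z.1)) (F (T^[n] z.1, z.2)) := by
    rw [ae_all_iff]
    intro n
    have h2 := (hS2.iterate n).quasiMeasurePreserving.ae hequi
    filter_upwards [h2] with z hz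
    rw [Prod.map_iterate, iterate_id] at hz
    exact hz
  filter_upwards [h1] with z hz n
  induction n with
  | zero => simp
  | succ n ih =>
    rw [iterate_succ_apply']
    have h3 : ((skew T (φ z.2))^[n] (z.1, 1)).1 = T^[n] z.1 := skew_iterate_fst T (φ z.2) n (z.1, 1)
    set w := (skew T (φ z.2))^[n] (z.1, 1) with hw
    simp only [skew]
    rw [h3] at ih ⊢
    rw [hz n, ih, ← R.map_mul_apply]

theorem claimA {d : ℕ} {G : Type u} [Group G] [TopologicalSpace G] [IsTopologicalGroup G]
    [CompactSpace G] [ConnectedSpace G] [MeasurableSpace G] [BorelSpace G]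
    [SecondCountableTopology G]
    (μ : Measure G) [IsProbabilityMeasure μ] [μ.IsMulLeftInvariant] [μ.IsMulRightInvariant]
    {T : ℝ → ℝ} (hT : Ergodic T leb01) (hinj : Injective T) {φ : (Fin d → G) → ℝ → G}
    (hstage : ∀ x₀, 0 ≤ x₀ → x₀ < 1 → Nonempty (Stage T φ μ x₀))
    {E : Type v} [NormedAddCommGroup E] [InnerProductSpace ℝ E] [FiniteDimensional ℝ E]
    (R : OrthRep G E) (hfix : ∀ v, (∀ g, R.ρ g v = v) → v = 0)
    (F : ℝ × (Fin d → G) → E) (hF : StronglyMeasurable F)
    (hint : Integrable F (leb01.prod (Measure.pi fun _ => μ)))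
    (hequi : ∀ᵐ z ∂(leb01.prod (Measure.pi fun _ => μ)),
      F (T z.1, z.2) = R.ρ (φ z.2 z.1) (F z)) :
    F =ᵐ[leb01.prod (Measure.pi fun _ => μ)] 0 := by
  set θ : Measure (Fin d → G) := Measure.pi fun _ => μ with hθ
  have hiter := iterate_equi θ hT.toMeasurePreserving R F hequi
  have hN : ∀ᵐ x ∂leb01, ∀ᵐ g ∂θ, ∀ n, F (((skew T (φ g))^[n] (x, 1)).1, g) =
      R.ρ ((skew T (φ g))^[n] (x, 1)).2 (F (x, g)) := Measure.ae_ae_of_ae_prod hiter
  have hleb := lebesgue_L1 θ F hF hint
  have hmem : ∀ᵐ x ∂leb01, x ∈ Ico (0 : ℝ) 1 := ae_restrict_mem measurableSet_Ico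
  -- the fibrewise claim
  have hfib : ∀ᵐ x₀ ∂leb01, (fun g => F (x₀, g)) =ᵐ[θ] 0 := by
    filter_upwards [hleb, hmem] with x₀ hx₀ hx₀m
    obtain ⟨S0⟩ := hstage x₀ hx₀m.1 hx₀m.2
    have hgood : ∀ n : ℕ, ∃ (S : Stage T φ μ x₀), S.K < 1 / ((n : ℝ) + 1) ∧
      ∃ j k : Fin d, j ≠ k ∧ S.K / (4 * d) ≤ S.len j ∧ S.K / (4 * d) ≤ S.len k := fun n =>
        Stage.exists_good hT hinj S0 (by positivity)
    choose S hSK j k hjk hj hk using hgood
    set D : ℝ → ℝ≥0∞ := fun x => ∫⁻ g, ‖F (x, g) - F (x₀, g)‖ₑ ∂θ with hD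
    have hDm : Measurable D := by
      have h1 : Measurable fun z : ℝ × (Fin d → G) => ‖F z - F (x₀, z.2)‖ₑ :=
        (hF.sub (hF.comp_measurable (measurable_const.prodMk measurable_snd))).enorm
      exact h1.lintegral_prod_right'
    have hd : (0 : ℝ) < d := by
      have : 0 < d := by have := (j 0).2; omega
      exact_mod_cast this
    have hI := hx₀ (fun n => (S n).p) (fun n => (S n).q)
      (fun n => ⟨(S n).hp0, (S n).hq1, (S n).mem.1, (S n).mem.2⟩)
      (by
        have h1 : Tendsto (fun n : ℕ => 1 / ((n : ℝ) + 1)) atTop (𝓝 0) :=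
          tendsto_one_div_add_atTop_nhds_zero_nat
        refine squeeze_zero (fun n => ?_) (fun n => (hSK n).le) h1
        exact (S n).K_pos.le)
    -- estimate
    have hest : ∀ n (i : Fin d), (S n).K / (4 * d) ≤ (S n).len i →
        ∫⁻ g, ‖R.ρ ((S n).W i g) (F (x₀, g)) - F (x₀, g)‖ₑ ∂θ ≤
        ENNReal.ofReal (8 * d) *
          ((∫⁻ x in Ico ((S n).p) ((S n).q), D x) / ENNReal.ofReal ((S n).q - (S n).p)) := by
      intro n i hi
      set C : ℝ≥0∞ := ∫⁻ g, ‖R.ρ ((S n).W i g) (F (x₀, g)) - F (x₀, g)‖ₑ ∂θ with hC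
      have hKpos := (S n).K_pos
      have hlenpos : 0 < (S n).len i := lt_of_lt_of_le (by positivity) hi
      have hlr : (S n).l i < (S n).r i := by unfold Stage.len at hlenpos; linarith
      have hsub := (S n).toCore.sub_of_nonempty hlr
      have hsub' := (S n).toCore.sub_of_nonempty' hlr
      -- pointwise bound
      have hpt : ∀ᵐ x ∂(volume.restrict (Ico ((S n).l i) ((S n).r i))),
          C ≤ D x + D (x + (S n).t i) := by
        have h1 : ∀ᵐ x ∂(volume.restrict (Ico ((S n).l i) ((S n).r i))), ∀ᵐ g ∂θ, ∀ m,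
            F (((skew T (φ g))^[m] (x, 1)).1, g) =
            R.ρ ((skew T (φ g))^[m] (x, 1)).2 (F (x, g)) := by
          refine ae_restrict_of_ae_restrict_of_subset ?_ hN
          exact Ico_subset_Ico (by linarith [(S n).hp0, hsub.1]) (by linarith [(S n).hq1, hsub.2])
        filter_upwards [h1, ae_restrict_mem measurableSet_Ico] with x hx hxm
        have h2 : ∀ᵐ g ∂θ, F (x + (S n).t i, g) = R.ρ ((S n).W i g) (F (x, g)) := by
          filter_upwards [hx] with g hg
          have h3 := hg ((S n).h i)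
          rw [(S n).iter g x 1 i hxm, mul_one] at h3
          exact h3
        have hm : Measurable fun g => ‖F (x, g) - F (x₀, g)‖ₑ :=
          ((hF.comp_measurable measurable_prodMk_left).sub
            (hF.comp_measurable measurable_prodMk_left)).enorm
        calc C ≤ ∫⁻ g, (‖F (x, g) - F (x₀, g)‖ₑ + ‖F (x + (S n).t i, g) - F (x₀, g)‖ₑ) ∂θ := by
              rw [hC]
              refine lintegral_mono_ae ?_
              filter_upwards [h2] with g hg
              have e : R.ρ ((S n).W i g) (F (x₀, g)) - F (x₀, g) =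
                  -(R.ρ ((S n).W i g) (F (x, g) - F (x₀, g))) +
                  (F (x + (S n).t i, g) - F (x₀, g)) := by
                rw [hg, map_sub]; abel
              rw [e]
              refine (enorm_add_le _ _).trans ?_
              gcongr
              rw [enorm_neg, ← ofReal_norm, R.norm_map, ofReal_norm]
          _ = D x + D (x + (S n).t i) := by
              rw [lintegral_add_left hm]
      have hint1 : C * ENNReal.ofReal ((S n).len i) ≤ 2 * ∫⁻ x in Ico ((S n).p) ((S n).q), D x := by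
        calc C * ENNReal.ofReal ((S n).len i)
            = ∫⁻ _x in Ico ((S n).l i) ((S n).r i), C := by
              rw [setLIntegral_const, Real.volume_Ico]; rfl
          _ ≤ ∫⁻ x in Ico ((S n).l i) ((S n).r i), (D x + D (x + (S n).t i)) :=
              lintegral_mono_ae hpt
          _ = (∫⁻ x in Ico ((S n).l i) ((S n).r i), D x) +
              ∫⁻ x in Ico ((S n).l i) ((S n).r i), D (x + (S n).t i) := by
              rw [lintegral_add_left hDm]
          _ = (∫⁻ x in Ico ((S n).l i) ((S n).r i), D x) +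
              ∫⁻ x in Ico ((S n).l i + (S n).t i) ((S n).r i + (S n).t i), D x := by
              congr 1
              have h5 := (measurePreserving_add_right (volume : Measure ℝ)
                ((S n).t i)).setLIntegral_comp_preimage
                (s := Ico ((S n).l i + (S n).t i) ((S n).r i + (S n).t i)) measurableSet_Ico hDm
              rw [← h5]
              congr 2
              ext x
              simp
          _ ≤ (∫⁻ x in Ico ((S n).p) ((S n).q), D x) + ∫⁻ x in Ico ((S n).p) ((S n).q), D x := by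
              gcongr
              · exact hsub.1
              · exact hsub.2
              · exact hsub'.1
              · exact hsub'.2
          _ = _ := by rw [two_mul]
      have hKne : ENNReal.ofReal ((S n).q - (S n).p) ≠ 0 := by
        simp only [ne_eq, ENNReal.ofReal_eq_zero, not_le]; exact hKpos
      rw [← mul_div_assoc, ENNReal.le_div_iff_mul_le (Or.inl hKne) (Or.inl ENNReal.ofReal_ne_top)]
      calc C * ENNReal.ofReal ((S n).q - (S n).p)
          ≤ C * ENNReal.ofReal ((4 * d) * (S n).len i) := by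
            gcongr
            rw [div_le_iff₀ (by positivity)] at hi
            unfold Stage.K at hi
            linarith
        _ = ENNReal.ofReal (4 * d) * (C * ENNReal.ofReal ((S n).len i)) := by
            rw [ENNReal.ofReal_mul (by positivity)]
            ring
        _ ≤ ENNReal.ofReal (4 * d) * (2 * ∫⁻ x in Ico ((S n).p) ((S n).q), D x) := by gcongr
        _ = ENNReal.ofReal (8 * d) * ∫⁻ x in Ico ((S n).p) ((S n).q), D x := by
            rw [← mul_assoc]
            congr 1
            have : (2 : ℝ≥0∞) = ENNReal.ofReal 2 := by simp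
            rw [this, ← ENNReal.ofReal_mul (by positivity)]
            congr 1
            ring
    refine eq_zero_of_almost_fixed θ μ R hfix (fun g => F (x₀, g))
      (hF.comp_measurable measurable_prodMk_left)
      (fun n g => (S n).W (j n) g) (fun n g => (S n).W (k n) g)
      (fun n => (pair_mp μ (hjk n)).comp (S n).mp)
      (fun n => ENNReal.ofReal (8 * d) *
          ((∫⁻ x in Ico ((S n).p) ((S n).q), D x) / ENNReal.ofReal ((S n).q - (S n).p))) ?_
      (fun n => hest n (j n) (hj n)) (fun n => hest n (k n) (hk n))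
    have := ENNReal.Tendsto.const_mul (a := ENNReal.ofReal (8 * d)) hI
      (Or.inr ENNReal.ofReal_ne_top)
    simpa using this
  -- conclude by Fubini
  have hset : MeasurableSet {z : ℝ × (Fin d → G) | F z ≠ 0} :=
    (hF.measurableSet_eq_fun stronglyMeasurable_const).compl
  have : (leb01.prod θ) {z : ℝ × (Fin d → G) | F z ≠ 0} = 0 := by
    rw [Measure.measure_prod_null hset]
    filter_upwards [hfib] with x hx
    have h1 : θ {g | ¬ (F (x, g) = 0)} = 0 := hx
    exact h1
  exact this

end Pool.Agent.H17
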