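import Mathlib
import Pool.Agent.H17.Ae

open Set Function MeasureTheory Filter Topology
open scoped ENNReal InnerProductSpace

namespace Pool.Agent.H17

universe u

variable {G : Type u} [Group G] [TopologicalSpace G] [IsTopologicalGroup G] [CompactSpace G]
  [T2Space G] [SecondCountableTopology G] [MeasurableSpace G] [BorelSpace G]
  (μ : Measure G) [IsProbabilityMeasure μ] [μ.IsMulLeftInvariant]
  [μ.InnerRegularCompactLTTop]

/-- the left regular representation -/
noncomputable def regRep : OrthRep G (Lp ℝ 2 μ) where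
  ρ :=
    { toFun := fun c =>
        { toFun := fun f => DomMulAct.mk c⁻¹ • f
          map_add' := fun f g => smul_add _ f g
          map_smul' := fun r f => smul_comm _ r f }
      map_one' := by
        ext1 f
        simp
      map_mul' := by
        intro a b
        ext1 f
        simp only [mul_inv_rev, DomMulAct.mk_mul, LinearMap.coe_mk, AddHom.coe_mk,
          Module.End.mul_apply]
        rw [mul_smul] }
  norm_map c f := DomMulAct.norm_smul_Lp _ f
  cont f := by
    have h1 : Continuous fun c : G => (DomMulAct.mk c⁻¹, f) := by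
      refine Continuous.prodMk ?_ continuous_const
      exact DomMulAct.continuous_mk.comp continuous_inv
    have : Fact ((2 : ℝ≥0∞) ≠ ∞) := ⟨by simp⟩
    exact continuous_smul.comp h1

lemma regRep_ae (c : G) (f : Lp ℝ 2 μ) :
    ((regRep μ).ρ c f : G → ℝ) =ᵐ[μ] fun y => f (c⁻¹ * y) :=
  DomMulAct.smul_Lp_ae_eq (DomMulAct.mk c⁻¹) f

/-- the continuous function `x ↦ ⟨λ_x ψ, f⟩`, as a function of `f`. -/
noncomputable def Kc (ψ : Lp ℝ 2 μ) : Lp ℝ 2 μ →L[ℝ] C(G, ℝ) :=
  LinearMap.mkContinuous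
    { toFun := fun f => ⟨fun x => ⟪(regRep μ).ρ x ψ, f⟫_ℝ,
        ((regRep μ).cont ψ).inner continuous_const⟩
      map_add' := fun f g => by ext x; simp [inner_add_right]
      map_smul' := fun r f => by ext x; simp [inner_smul_right] }
    ‖ψ‖ (by
      intro f
      rw [ContinuousMap.norm_le _ (by positivity)]
      intro x
      calc ‖⟪(regRep μ).ρ x ψ, f⟫_ℝ‖ ≤ ‖(regRep μ).ρ x ψ‖ * ‖f‖ := norm_inner_le_norm _ _
        _ = ‖ψ‖ * ‖f‖ := by rw [(regRep μ).norm_map])

@[simp] lemma Kc_apply (ψ f : Lp ℝ 2 μ) (x : G) : Kc μ ψ f x = ⟪(regRep μ).ρ x ψ, f⟫_ℝ := rfl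

/-- the convolution operator -/
noncomputable def Kop (ψ : Lp ℝ 2 μ) : Lp ℝ 2 μ →L[ℝ] Lp ℝ 2 μ :=
  (ContinuousMap.toLp (E := ℝ) 2 μ ℝ).comp (Kc μ ψ)

lemma Kop_comm (ψ : Lp ℝ 2 μ) (c : G) (f : Lp ℝ 2 μ) :
    Kop μ ψ ((regRep μ).ρ c f) = (regRep μ).ρ c (Kop μ ψ f) := by
  apply Lp.ext
  have h1 : (Kop μ ψ ((regRep μ).ρ c f) : G → ℝ) =ᵐ[μ] Kc μ ψ ((regRep μ).ρ c f) :=
    ContinuousMap.coeFn_toLp μ _
  have h2 : (Kop μ ψ f : G → ℝ) =ᵐ[μ] Kc μ ψ f := ContinuousMap.coeFn_toLp μ _
  have h3 := (measurePreserving_mul_left μ c⁻¹).quasiMeasurePreserving.ae_eq_comp h2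
  filter_upwards [h1, h3, regRep_ae μ c (Kop μ ψ f)] with y hy1 hy2 hy3
  rw [hy1, hy3]
  simp only [comp_apply] at hy2
  rw [hy2, Kc_apply, Kc_apply, (regRep μ).map_mul_apply]
  have h4 := (regRep μ).inner_map c ((regRep μ).ρ c⁻¹ ((regRep μ).ρ y ψ)) f
  rw [(regRep μ).self_apply_inv] at h4
  exact h4

lemma Kop_compact (ψ : Lp ℝ 2 μ) : IsCompactOperator (Kop μ ψ) := by
  classical
  have hclosed : IsClosed {f : Lp ℝ 2 μ →L[ℝ] Lp ℝ 2 μ | IsCompactOperator f} :=
    isClosed_setOfPred_isCompactOperator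
  have hmem : Kop μ ψ ∈ closure {f : Lp ℝ 2 μ →L[ℝ] Lp ℝ 2 μ | IsCompactOperator f} := by
    rw [Metric.mem_closure_iff]
    intro ε hε
    -- finite net of the orbit
    have hcomp : IsCompact (range fun x : G => (regRep μ).ρ x ψ) :=
      isCompact_range ((regRep μ).cont ψ)
    obtain ⟨t, -, htfin, ht⟩ := hcomp.finite_cover_balls (half_pos hε)
    set W : Submodule ℝ (Lp ℝ 2 μ) := Submodule.span ℝ t with hW
    have hWfin : FiniteDimensional ℝ W := FiniteDimensional.span_of_finite ℝ htfin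
    have hdist : ∀ x : G, ‖(regRep μ).ρ x ψ - W.starProjection ((regRep μ).ρ x ψ)‖ ≤ ε / 2 := by
      intro x
      have h1 := ht ⟨x, rfl⟩
      simp only [mem_iUnion] at h1
      obtain ⟨w, hw, hxw⟩ := h1
      have hwW : w ∈ W := Submodule.subset_span hw
      have e : (regRep μ).ρ x ψ - W.starProjection ((regRep μ).ρ x ψ) =
          Wᗮ.starProjection ((regRep μ).ρ x ψ - w) := by
        rw [Submodule.starProjection_orthogonal']
        simp only [_root_.sub_apply, one_apply_eq_self, map_sub]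
        rw [(Submodule.starProjection_eq_self_iff).2 hwW]
        abel
      rw [e]
      refine (Submodule.norm_starProjection_apply_le _ _).trans ?_
      rw [← dist_eq_norm]
      exact (Metric.mem_ball.1 hxw).le
    refine ⟨(Kop μ ψ).comp W.starProjection, ?_, ?_⟩
    · have h1 : IsCompactOperator (W.orthogonalProjectionOnto : Lp ℝ 2 μ → W) :=
        isCompactOperator_of_locallyCompactSpace_dom _
      have h2 : IsCompactOperator (W.starProjection : Lp ℝ 2 μ → Lp ℝ 2 μ) := by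
        have := h1.clm_comp W.subtypeL
        exact this
      exact h2.clm_comp (Kop μ ψ)
    · rw [dist_eq_norm]
      refine lt_of_le_of_lt (ContinuousLinearMap.opNorm_le_bound _ (half_pos hε).le ?_)
        (half_lt_self hε)
      intro f
      have e : (Kop μ ψ - (Kop μ ψ).comp W.starProjection) f =
          ContinuousMap.toLp (E := ℝ) 2 μ ℝ (Kc μ ψ (f - W.starProjection f)) := by
        simp [Kop]
      rw [e]
      have h3 : ‖Kc μ ψ (f - W.starProjection f)‖ ≤ ε / 2 * ‖f‖ := by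
        rw [ContinuousMap.norm_le _ (by positivity)]
        intro x
        rw [Kc_apply]
        have h4 : ⟪(regRep μ).ρ x ψ, f - W.starProjection f⟫_ℝ =
            ⟪(regRep μ).ρ x ψ - W.starProjection ((regRep μ).ρ x ψ), f⟫_ℝ := by
          rw [inner_sub_right, inner_sub_left, Submodule.inner_starProjection_left_eq_right]
        rw [h4]
        refine (norm_inner_le_norm _ _).trans ?_
        gcongr
        exact hdist x
      refine ((ContinuousMap.toLp (E := ℝ) 2 μ ℝ).le_opNorm _).trans ?_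
      have h5 : ‖ContinuousMap.toLp (E := ℝ) 2 μ ℝ‖ ≤ 1 := by
        refine (ContinuousMap.toLp_norm_le (μ := μ) (p := 2) (𝕜 := ℝ) (E := ℝ)).trans ?_
        simp [measureUnivNNReal]
      calc _ ≤ 1 * (ε / 2 * ‖f‖) := by gcongr
        _ = _ := one_mul _
  rw [hclosed.closure_eq] at hmem
  exact hmem

/-- Peter-Weyl : no nonzero `f` is orthogonal to all finite dimensional invariant subspaces. -/
theorem peter_weyl [μ.IsOpenPosMeasure] {f : Lp ℝ 2 μ} (hf : f ≠ 0) :
    ∃ U : Submodule ℝ (Lp ℝ 2 μ), FiniteDimensional ℝ U ∧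
      (∀ g, ∀ v ∈ U, (regRep μ).ρ g v ∈ U) ∧ ∃ v ∈ U, ⟪v, f⟫_ℝ ≠ 0 := by
  classical
  by_contra hcon
  push Not at hcon
  set K := Kop μ f with hK
  set S : Lp ℝ 2 μ →L[ℝ] Lp ℝ 2 μ := (ContinuousLinearMap.adjoint K).comp K with hS
  have hScomp : IsCompactOperator S := (Kop_compact μ f).clm_comp (ContinuousLinearMap.adjoint K)
  have hinner : ∀ x y, ⟪S x, y⟫_ℝ = ⟪K x, K y⟫_ℝ := fun x y => by
    simp [hS, ContinuousLinearMap.adjoint_inner_left]
  have hSsymm : (S : Lp ℝ 2 μ →ₗ[ℝ] Lp ℝ 2 μ).IsSymmetric := by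
    intro x y
    change ⟪S x, y⟫_ℝ = ⟪x, S y⟫_ℝ
    rw [hinner, real_inner_comm (S y) x, hinner, real_inner_comm]
  -- commutation
  have hcomm : ∀ c x, S ((regRep μ).ρ c x) = (regRep μ).ρ c (S x) := by
    intro c x
    apply ext_inner_right ℝ
    intro y
    rw [hinner, Kop_comm]
    have h1 : y = (regRep μ).ρ c ((regRep μ).ρ c⁻¹ y) := ((regRep μ).self_apply_inv c y).symm
    conv_lhs => rw [h1]
    conv_rhs => rw [h1]
    rw [Kop_comm, (regRep μ).inner_map, (regRep μ).inner_map, hinner]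
  -- K f ≠ 0
  have hKf : K f ≠ 0 := by
    intro h0
    have h1 : Kc μ f f = 0 := by
      apply ContinuousMap.toLp_injective (𝕜 := ℝ) (p := 2) μ
      rw [map_zero]
      exact h0
    have h2 : Kc μ f f 1 = 0 := by rw [h1]; rfl
    rw [Kc_apply, (regRep μ).map_one_apply, real_inner_self_eq_norm_sq] at h2
    apply hf
    have : ‖f‖ = 0 := by simpa using h2
    exact norm_eq_zero.1 this
  have hSf : S f ≠ 0 := by
    intro h0
    have h1 := hinner f f
    rw [h0, inner_zero_left, real_inner_self_eq_norm_sq] at h1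
    apply hKf
    have : ‖K f‖ = 0 := by simpa using h1.symm
    exact norm_eq_zero.1 this
  -- orthogonality to eigenspaces
  have hbot := ContinuousLinearMap.orthogonalComplement_iSup_eigenspaces_eq_bot hScomp hSsymm
  apply hSf
  rw [← Submodule.mem_bot ℝ, ← hbot, ← Submodule.iInf_orthogonal, Submodule.mem_iInf]
  intro c
  rw [Submodule.mem_orthogonal]
  intro w hw
  have hw' : S w = c • w := Module.End.mem_eigenspace_iff.1 hw
  have h1 : ⟪w, S f⟫_ℝ = c * ⟪w, f⟫_ℝ := by
    have h2 := hSsymm w f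
    change ⟪S w, f⟫_ℝ = ⟪w, S f⟫_ℝ at h2
    rw [← h2, hw', real_inner_smul_left]
  rw [h1]
  by_cases hc : c = 0
  · rw [hc, zero_mul]
  · have hfin : FiniteDimensional ℝ
        (Module.End.eigenspace (S : Lp ℝ 2 μ →ₗ[ℝ] Lp ℝ 2 μ) c) :=
      ContinuousLinearMap.finite_dimensional_eigenspace hScomp c hc
    have h3 := hcon (Module.End.eigenspace (S : Lp ℝ 2 μ →ₗ[ℝ] Lp ℝ 2 μ) c) hfin (by
      intro g v hv
      rw [Module.End.mem_eigenspace_iff] at hv ⊢
      change S ((regRep μ).ρ g v) = _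
      rw [hcomm]
      have : S v = c • v := hv
      rw [this, map_smul]) w hw
    rw [h3, mul_zero]

end Pool.Agent.H17
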