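import Mathlib
import Pool.Agent.H17.PeterWeyl

set_option linter.unusedSectionVars false

open Set Function MeasureTheory Filter Topology
open scoped ENNReal InnerProductSpace

namespace Pool.Agent.H17

universe u

variable {G : Type u} [Group G] [TopologicalSpace G] [IsTopologicalGroup G] [CompactSpace G]
  [T2Space G] [SecondCountableTopology G] [MeasurableSpace G] [BorelSpace G]
  (μ : Measure G) [IsProbabilityMeasure μ] [μ.IsMulLeftInvariant]
  [μ.InnerRegularCompactLTTop]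

lemma fixed_const {f : Lp ℝ 2 μ} (hf : ∀ c, (regRep μ).ρ c f = f) :
    ∃ r : ℝ, (f : G → ℝ) =ᵐ[μ] fun _ => r := by
  have h1 : ∀ c : G, ∀ᵐ y ∂μ, f (c⁻¹ * y) = f y := by
    intro c
    have h2 := regRep_ae μ c f
    rw [hf c] at h2
    filter_upwards [h2] with y hy using hy.symm
  have hm : MeasurableSet {z : G × G | f (z.1⁻¹ * z.2) = f z.2} := by
    refine StronglyMeasurable.measurableSet_eq_fun ?_ ?_
    · exact (Lp.stronglyMeasurable f).comp_measurable (measurable_fst.inv.mul measurable_snd)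
    · exact (Lp.stronglyMeasurable f).comp_measurable measurable_snd
  have h3 : ∀ᵐ y ∂μ, ∀ᵐ c ∂μ, f (c⁻¹ * y) = f y :=
    (Measure.ae_ae_comm (p := fun c y => f (c⁻¹ * y) = f y) hm).1 (Eventually.of_forall h1)
  obtain ⟨y₀, hy₀⟩ := h3.exists
  refine ⟨f y₀, ?_⟩
  have h4 := (quasiMeasurePreserving_div_left μ y₀).ae hy₀
  filter_upwards [h4] with z hz
  rw [← hz]
  congr 1
  rw [inv_div, div_mul_cancel]

/-- the constant function one -/
noncomputable def one2 : Lp ℝ 2 μ := Lp.const 2 μ (1 : ℝ)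

lemma one2_ae : (one2 μ : G → ℝ) =ᵐ[μ] fun _ => 1 := Lp.coeFn_const 2 μ (1 : ℝ)

lemma norm_one2 : ‖one2 μ‖ = 1 := by
  unfold one2
  rw [Lp.norm_const] <;> simp

lemma regRep_one2 (c : G) : (regRep μ).ρ c (one2 μ) = one2 μ :=
  DomMulAct.smul_Lp_const (DomMulAct.mk c⁻¹) (1 : ℝ)

lemma eq_smul_one2 {f : Lp ℝ 2 μ} {r : ℝ} (h : (f : G → ℝ) =ᵐ[μ] fun _ => r) :
    f = r • one2 μ := by
  apply Lp.ext
  filter_upwards [h, Lp.coeFn_smul r (one2 μ), one2_ae μ] with y h1 h2 h3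
  rw [h1, h2, Pi.smul_apply, h3]
  simp

theorem exists_family [μ.IsOpenPosMeasure] :
    ∃ (U : ℕ → Submodule ℝ (Lp ℝ 2 μ)), (∀ k, FiniteDimensional ℝ (U k)) ∧
      (∀ k g, ∀ v ∈ U k, (regRep μ).ρ g v ∈ U k) ∧
      (∀ k, ∀ v ∈ U k, (∀ g, (regRep μ).ρ g v = v) → v = 0) ∧
      ∀ h : Lp ℝ 2 μ, (∀ k, ∀ v ∈ U k, ⟪v, h⟫_ℝ = 0) → ∃ r : ℝ, (h : G → ℝ) =ᵐ[μ] fun _ => r := by
  classical
  let good : Submodule ℝ (Lp ℝ 2 μ) → Prop := fun U => FiniteDimensional ℝ U ∧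
    (∀ g, ∀ v ∈ U, (regRep μ).ρ g v ∈ U) ∧ (∀ v ∈ U, (∀ g, (regRep μ).ρ g v = v) → v = 0)
  set 𝒟 : Set (Lp ℝ 2 μ) := {e | ∃ U, good U ∧ e ∈ U} with h𝒟
  have hgbot : good ⊥ := by
    refine ⟨inferInstance, ?_, ?_⟩
    · intro g v hv
      rw [Submodule.mem_bot] at hv ⊢
      rw [hv, map_zero]
    · intro v hv _
      rwa [Submodule.mem_bot] at hv
  have hne : Nonempty 𝒟 := ⟨⟨0, ⊥, hgbot, Submodule.zero_mem _⟩⟩
  have hfact : Fact ((2 : ℝ≥0∞) ≠ ∞) := ⟨by simp⟩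
  have hsc : SecondCountableTopology (Lp ℝ 2 μ) := inferInstance
  set e : ℕ → 𝒟 := TopologicalSpace.denseSeq 𝒟 with he
  have hedense : DenseRange e := TopologicalSpace.denseRange_denseSeq 𝒟
  choose U hU hmem using fun k => (e k).2
  refine ⟨U, fun k => (hU k).1, fun k => (hU k).2.1, fun k => (hU k).2.2, ?_⟩
  intro h hh
  have horth : ∀ x : 𝒟, ⟪(x : Lp ℝ 2 μ), h⟫_ℝ = 0 := by
    have hcl : IsClosed {x : 𝒟 | ⟪(x : Lp ℝ 2 μ), h⟫_ℝ = 0} :=
      isClosed_eq (continuous_subtype_val.inner continuous_const) continuous_const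
    intro x
    have h1 : x ∈ closure (range e) := hedense x
    have h2 : range e ⊆ {x : 𝒟 | ⟪(x : Lp ℝ 2 μ), h⟫_ℝ = 0} := by
      rintro _ ⟨k, rfl⟩
      exact hh k _ (hmem k)
    exact hcl.closure_subset_iff.2 h2 h1
  set o := one2 μ with ho
  have hoo : ⟪o, o⟫_ℝ = 1 := by
    rw [real_inner_self_eq_norm_sq, norm_one2]; norm_num
  set h₀ := h - ⟪o, h⟫_ℝ • o with hh₀
  by_cases hz : h₀ = 0
  · refine ⟨⟪o, h⟫_ℝ, ?_⟩
    have h1 : h = ⟪o, h⟫_ℝ • o := sub_eq_zero.1 hz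
    set r := ⟪o, h⟫_ℝ with hr
    rw [h1]
    filter_upwards [Lp.coeFn_smul r o, one2_ae μ] with y h2 h3
    rw [h2, Pi.smul_apply, h3]
    simp
  · exfalso
    obtain ⟨V, hVfin, hVinv, v, hvV, hv⟩ := peter_weyl μ hz
    set V' : Submodule ℝ (Lp ℝ 2 μ) := (V ⊔ Submodule.span ℝ {o}) ⊓ (Submodule.span ℝ {o})ᗮ
      with hV'
    have hoinv : ∀ g, ∀ x ∈ Submodule.span ℝ {o}, (regRep μ).ρ g x ∈ Submodule.span ℝ {o} := by
      intro g x hx
      obtain ⟨c, rfl⟩ := Submodule.mem_span_singleton.1 hx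
      rw [map_smul, ho, regRep_one2]
      exact Submodule.mem_span_singleton.2 ⟨c, rfl⟩
    have hgood : good V' := by
      refine ⟨Submodule.finiteDimensional_of_le inf_le_left, ?_, ?_⟩
      · rintro g x ⟨hx1, hx2⟩
        refine ⟨?_, (regRep μ).orthogonal_invariant _ hoinv g x hx2⟩
        obtain ⟨y, hy, z, hz, rfl⟩ := Submodule.mem_sup.1 hx1
        rw [map_add]
        exact Submodule.add_mem_sup (hVinv g y hy) (hoinv g z hz)
      · rintro x ⟨hx1, hx2⟩ hfix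
        obtain ⟨r, hr⟩ := fixed_const μ hfix
        have h1 := eq_smul_one2 μ hr
        have h2 : ⟪o, x⟫_ℝ = 0 :=
          (Submodule.mem_orthogonal _ x).1 hx2 o (Submodule.mem_span_singleton_self o)
        rw [h1, real_inner_smul_right] at h2
        change r * ⟪o, o⟫_ℝ = 0 at h2
        rw [hoo, mul_one] at h2
        rw [h1, h2, zero_smul]
    have hmemV' : v - ⟪o, v⟫_ℝ • o ∈ V' := by
      refine ⟨?_, ?_⟩
      · exact Submodule.sub_mem _ (Submodule.mem_sup_left hvV)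
          (Submodule.smul_mem _ _ (Submodule.mem_sup_right (Submodule.mem_span_singleton_self o)))
      · change v - ⟪o, v⟫_ℝ • o ∈ (Submodule.span ℝ {o})ᗮ
        rw [Submodule.mem_orthogonal_singleton_iff_inner_right, inner_sub_right,
          real_inner_smul_right, hoo, mul_one, sub_self]
    have h1 := horth ⟨_, V', hgood, hmemV'⟩
    apply hv
    simp only [hh₀]
    simp only at h1
    rw [inner_sub_right, real_inner_smul_right]
    rw [inner_sub_left, real_inner_smul_left] at h1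
    rw [real_inner_comm v o] at h1
    linarith

end Pool.Agent.H17
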