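import Mathlib
import Pool.Agent.H17.ClaimA
import Pool.Agent.H17.Family

set_option linter.unusedSectionVars false

open Set Function MeasureTheory Filter Topology
open scoped ENNReal InnerProductSpace

namespace Pool.Agent.H17

universe u v

variable {G : Type u} [Group G] [TopologicalSpace G] [IsTopologicalGroup G] [CompactSpace G]
  [T2Space G] [SecondCountableTopology G] [MeasurableSpace G] [BorelSpace G]
  (μ : Measure G) [IsProbabilityMeasure μ] [μ.IsMulLeftInvariant]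
  [μ.InnerRegularCompactLTTop]

/-- the vector of coefficients of the fibre functions against a finite-dimensional subspace -/
noncomputable def coef {A : Type v} {n : ℕ} {U : Submodule ℝ (Lp ℝ 2 μ)}
    (b : OrthonormalBasis (Fin n) ℝ U) (Ψ : A × G → ℝ) (a : A) : U :=
  ∑ i, (∫ y, ((b i : U) : Lp ℝ 2 μ) y * Ψ (a, y) ∂μ) • b i

variable {A : Type v} {n : ℕ} {U : Submodule ℝ (Lp ℝ 2 μ)} (b : OrthonormalBasis (Fin n) ℝ U)

lemma inner_Lp_eq (f h : Lp ℝ 2 μ) {p : G → ℝ} (hp : (h : G → ℝ) =ᵐ[μ] p) :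
    ∫ y, f y * p y ∂μ = ⟪f, h⟫_ℝ := by
  rw [L2.inner_def]
  refine integral_congr_ae ?_
  filter_upwards [hp] with y hy
  rw [← hy]
  simp [mul_comm]

lemma inner_coef (Ψ : A × G → ℝ) (a : A) (h : Lp ℝ 2 μ)
    (hh : (h : G → ℝ) =ᵐ[μ] fun y => Ψ (a, y)) (v : U) :
    ⟪coef μ b Ψ a, v⟫_ℝ = ⟪h, (v : Lp ℝ 2 μ)⟫_ℝ := by
  have h1 : ∀ i, ∫ y, ((b i : U) : Lp ℝ 2 μ) y * Ψ (a, y) ∂μ = ⟪((b i : U) : Lp ℝ 2 μ), h⟫_ℝ :=
    fun i => inner_Lp_eq μ _ _ hh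
  unfold coef
  rw [sum_inner]
  have h2 : ∀ i, ⟪(∫ y, ((b i : U) : Lp ℝ 2 μ) y * Ψ (a, y) ∂μ) • b i, v⟫_ℝ
      = ⟪h, ((b i : U) : Lp ℝ 2 μ)⟫_ℝ * ⟪b i, v⟫_ℝ := by
    intro i
    rw [h1 i]
    refine (real_inner_smul_left (b i) v _).trans ?_
    rw [real_inner_comm]
  rw [Finset.sum_congr rfl fun i _ => h2 i]
  have h3 : (v : Lp ℝ 2 μ) = ∑ i, ⟪b i, v⟫_ℝ • ((b i : U) : Lp ℝ 2 μ) := by
    conv_lhs => rw [← b.sum_repr' v]
    simp
  rw [h3, inner_sum]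
  refine Finset.sum_congr rfl fun i _ => ?_
  rw [real_inner_smul_right, mul_comm]

lemma coef_equi (Ψ : A × G → ℝ) (a a' : A) (c : G) (h h' : Lp ℝ 2 μ)
    (hh : (h : G → ℝ) =ᵐ[μ] fun y => Ψ (a, y)) (hh' : (h' : G → ℝ) =ᵐ[μ] fun y => Ψ (a', y))
    (hU : ∀ g, ∀ v ∈ U, (regRep μ).ρ g v ∈ U) (hrel : ∀ᵐ y ∂μ, Ψ (a', c * y) = Ψ (a, y)) :
    coef μ b Ψ a' = ((regRep μ).restrict U hU).ρ c (coef μ b Ψ a) := by
  have hh1 : h' = (regRep μ).ρ c h := by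
    apply Lp.ext
    have e1 := regRep_ae μ c h
    have e2 : ∀ᵐ y ∂μ, h (c⁻¹ * y) = Ψ (a, c⁻¹ * y) :=
      (measurePreserving_mul_left μ c⁻¹).quasiMeasurePreserving.ae hh
    have e3 : ∀ᵐ y ∂μ, Ψ (a', c * (c⁻¹ * y)) = Ψ (a, c⁻¹ * y) :=
      (measurePreserving_mul_left μ c⁻¹).quasiMeasurePreserving.ae hrel
    filter_upwards [hh', e1, e2, e3] with y h1 h2 h3 h4
    rw [h1, h2, h3, ← h4]
    simp
  refine ext_inner_right ℝ fun v => ?_
  rw [inner_coef μ b Ψ a' h' hh' v]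
  have e1 : (v : Lp ℝ 2 μ) = (regRep μ).ρ c ((regRep μ).ρ c⁻¹ v) :=
    ((regRep μ).self_apply_inv c _).symm
  have hmem : (regRep μ).ρ c⁻¹ v ∈ U := hU _ _ v.2
  have e2 : v = ((regRep μ).restrict U hU).ρ c ⟨(regRep μ).ρ c⁻¹ v, hmem⟩ := by
    apply Subtype.ext
    rw [OrthRep.restrict_apply]
    exact e1
  rw [e1, hh1, (regRep μ).inner_map]
  conv_rhs => rw [e2]
  rw [OrthRep.inner_map, inner_coef μ b Ψ a h hh]

lemma stronglyMeasurable_coef [MeasurableSpace A] {Ψ : A × G → ℝ} (hΨ : StronglyMeasurable Ψ) :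
    StronglyMeasurable (coef μ b Ψ) := by
  unfold coef
  refine Finset.stronglyMeasurable_fun_sum _ fun i _ => ?_
  refine StronglyMeasurable.smul_const ?_ _
  refine StronglyMeasurable.integral_prod_right' (f := fun z : A × G =>
    ((b i : U) : Lp ℝ 2 μ) z.2 * Ψ z) ?_
  exact ((Lp.stronglyMeasurable _).comp_measurable measurable_snd).mul hΨ

lemma integrable_coef [MeasurableSpace A] {α : Measure A} [IsProbabilityMeasure α]
    {Ψ : A × G → ℝ} (hΨ2 : MemLp Ψ 2 (α.prod μ)) :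
    Integrable (coef μ b Ψ) α := by
  unfold coef
  refine integrable_finsetSum _ fun i _ => ?_
  refine Integrable.smul_const ?_ _
  have h1 : Integrable (fun z : A × G => ((b i : U) : Lp ℝ 2 μ) z.2 * Ψ z) (α.prod μ) := by
    have h2 : MemLp (fun z : A × G => ((b i : U) : Lp ℝ 2 μ) z.2) 2 (α.prod μ) :=
      (Lp.memLp ((b i : U) : Lp ℝ 2 μ)).comp_measurePreserving measurePreserving_snd
    exact h2.integrable_mul hΨ2
  exact h1.integral_prod_left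

lemma ae_memLp_section [MeasurableSpace A] {α : Measure A} [IsProbabilityMeasure α]
    {Ψ : A × G → ℝ} (hΨ : StronglyMeasurable Ψ) (hΨ2 : MemLp Ψ 2 (α.prod μ)) :
    ∀ᵐ a ∂α, MemLp (fun y => Ψ (a, y)) 2 μ := by
  have h1 : Integrable (fun z => Ψ z ^ 2) (α.prod μ) := hΨ2.integrable_sq
  filter_upwards [h1.prod_right_ae] with a ha
  exact (memLp_two_iff_integrable_sq
    (hΨ.comp_measurable measurable_prodMk_left).aestronglyMeasurable).2 ha

end Pool.Agent.H17
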