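import Mathlib
import Pool.Agent.H17.Coef

set_option linter.unusedSectionVars false

open Set Function MeasureTheory Filter Topology
open scoped ENNReal InnerProductSpace

namespace Pool.Agent.H17

universe u v

lemma skew_mp {X : Type v} [MeasurableSpace X] {G : Type u} [Group G] [MeasurableSpace G]
    [MeasurableMul₂ G] (μ : Measure G) [SFinite μ] [μ.IsMulLeftInvariant] {ν : Measure X}
    [SFinite ν] {T : X → X} (hT : MeasurePreserving T ν ν) {φ : X → G} (hφ : Measurable φ) :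
    MeasurePreserving (skew T φ) (ν.prod μ) (ν.prod μ) := by
  refine MeasurePreserving.skew_product (g := fun x y => φ x * y) hT ?_ ?_
  · exact (hφ.comp measurable_fst).mul measurable_snd
  · exact Eventually.of_forall fun x => (measurePreserving_mul_left μ (φ x)).map_eq

theorem invariant_total {d : ℕ} {G : Type u} [Group G] [TopologicalSpace G] [IsTopologicalGroup G]
    [CompactSpace G] [ConnectedSpace G] [T2Space G] [MeasurableSpace G] [BorelSpace G]
    [SecondCountableTopology G]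
    (μ : Measure G) [IsProbabilityMeasure μ] [μ.IsMulLeftInvariant] [μ.IsMulRightInvariant]
    [μ.InnerRegularCompactLTTop] [μ.IsOpenPosMeasure]
    {T : ℝ → ℝ} (hT : Ergodic T leb01) (hinj : Injective T) {φ : (Fin d → G) → ℝ → G}
    (hstage : ∀ x₀, 0 ≤ x₀ → x₀ < 1 → Nonempty (Stage T φ μ x₀))
    (Ψ : (ℝ × (Fin d → G)) × G → ℝ) (hΨ : StronglyMeasurable Ψ)
    (hΨ2 : MemLp Ψ 2 ((leb01.prod (Measure.pi fun _ => μ)).prod μ))
    (hinv : ∀ᵐ z ∂((leb01.prod (Measure.pi fun _ => μ)).prod μ),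
      Ψ ((T z.1.1, z.1.2), φ z.1.2 z.1.1 * z.2) = Ψ z) :
    ∃ c : (Fin d → G) → ℝ, Measurable c ∧
      ∀ᵐ z ∂((leb01.prod (Measure.pi fun _ => μ)).prod μ), Ψ z = c z.1.2 := by
  set θ : Measure (Fin d → G) := Measure.pi fun _ => μ with hθ
  obtain ⟨U, hUfin, hUinv, hUfix, hUconst⟩ := exists_family μ
  have hmpS : MeasurePreserving (Prod.map T (id : (Fin d → G) → (Fin d → G)))
      (leb01.prod θ) (leb01.prod θ) := hT.toMeasurePreserving.prod (MeasurePreserving.id θ)
  have hsec := ae_memLp_section μ hΨ hΨ2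
  have hsec' : ∀ᵐ a ∂(leb01.prod θ), MemLp (fun y => Ψ (Prod.map T id a, y)) 2 μ :=
    hmpS.quasiMeasurePreserving.ae hsec
  have hrel : ∀ᵐ a ∂(leb01.prod θ), ∀ᵐ y ∂μ,
      Ψ (Prod.map T id a, φ a.2 a.1 * y) = Ψ (a, y) := Measure.ae_ae_of_ae_prod hinv
  -- coefficients vanish
  have hk : ∀ k, ∀ᵐ a ∂(leb01.prod θ), ∀ v ∈ U k, ∫ y, (v : G → ℝ) y * Ψ (a, y) ∂μ = 0 := by
    intro k
    have := hUfin k
    set b := stdOrthonormalBasis ℝ (U k) with hb
    have hz := claimA μ hT hinj hstage ((regRep μ).restrict (U k) (hUinv k)) (by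
        intro v hv
        apply Subtype.ext
        refine hUfix k v v.2 ?_
        intro g
        have := hv g
        rw [← OrthRep.restrict_apply (regRep μ) (U k) (hUinv k) g v, this])
      (coef μ b Ψ) (stronglyMeasurable_coef μ b hΨ) (integrable_coef μ b hΨ2) (by
        filter_upwards [hsec, hsec', hrel] with a h1 h2 h3
        exact coef_equi μ b Ψ a (Prod.map T id a) (φ a.2 a.1) h1.toLp h2.toLp
          h1.coeFn_toLp h2.coeFn_toLp (hUinv k) h3)
    filter_upwards [hz, hsec] with a ha h1 v hv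
    rw [inner_Lp_eq μ v h1.toLp h1.coeFn_toLp]
    have h2 := inner_coef μ b Ψ a h1.toLp h1.coeFn_toLp ⟨v, hv⟩
    rw [ha] at h2
    rw [real_inner_comm, ← h2]
    exact inner_zero_left _
  -- fibrewise constancy
  have hconst : ∀ᵐ a ∂(leb01.prod θ), ∀ᵐ y ∂μ, Ψ (a, y) = ∫ y', Ψ (a, y') ∂μ := by
    filter_upwards [ae_all_iff.2 hk, hsec] with a ha h1
    obtain ⟨r, hr⟩ := hUconst h1.toLp (by
      intro k v hv
      rw [← inner_Lp_eq μ v h1.toLp h1.coeFn_toLp]
      exact ha k v hv)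
    have h2 : ∀ᵐ y ∂μ, Ψ (a, y) = r := by
      filter_upwards [hr, h1.coeFn_toLp] with y h3 h4
      rw [← h4, h3]
    have h3 : ∫ y', Ψ (a, y') ∂μ = r := by
      rw [integral_congr_ae h2]
      simp
    rw [h3]
    exact h2
  set ρ : ℝ × (Fin d → G) → ℝ := fun a => ∫ y', Ψ (a, y') ∂μ with hρ
  have hρm : StronglyMeasurable ρ := hΨ.integral_prod_right'
  -- invariance of the fibre mean
  have hρinv : ∀ᵐ a ∂(leb01.prod θ), ρ (Prod.map T id a) = ρ a := by
    filter_upwards [hrel] with a ha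
    change ∫ y', Ψ (Prod.map T id a, y') ∂μ = ∫ y', Ψ (a, y') ∂μ
    rw [← integral_mul_left_eq_self (μ := μ) (fun y' => Ψ (Prod.map T id a, y')) (φ a.2 a.1)]
    exact integral_congr_ae ha
  have hswap : ∀ᵐ g ∂θ, ∀ᵐ x ∂leb01, ρ (T x, g) = ρ (x, g) := by
    have h1 : ∀ᵐ x ∂leb01, ∀ᵐ g ∂θ, ρ (T x, g) = ρ (x, g) := Measure.ae_ae_of_ae_prod hρinv
    refine (Measure.ae_ae_comm (p := fun x g => ρ (T x, g) = ρ (x, g)) ?_).1 h1
    refine StronglyMeasurable.measurableSet_eq_fun ?_ hρm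
    exact hρm.comp_measurable (g := Prod.map T id) hmpS.measurable
  refine ⟨fun g => ∫ x, ρ (x, g) ∂leb01, ?_, ?_⟩
  · exact (hρm.integral_prod_left').measurable
  · have h1 : ∀ᵐ g ∂θ, ∀ᵐ x ∂leb01, ρ (x, g) = ∫ x', ρ (x', g) ∂leb01 := by
      filter_upwards [hswap] with g hg
      obtain ⟨c, hc⟩ := hT.ae_eq_const_of_ae_eq_comp_ae (g := fun x => ρ (x, g))
        (hρm.comp_measurable measurable_prodMk_right).aestronglyMeasurable hg
      have h2 : ∫ x', ρ (x', g) ∂leb01 = c := by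
        rw [integral_congr_ae hc]
        simp
      filter_upwards [hc] with x hx
      rw [h2, hx]
      rfl
    have h2 : ∀ᵐ x ∂leb01, ∀ᵐ g ∂θ, ρ (x, g) = ∫ x', ρ (x', g) ∂leb01 := by
      refine (Measure.ae_ae_comm
        (p := fun x g => ρ (x, g) = ∫ x', ρ (x', g) ∂leb01) ?_).2 h1
      refine StronglyMeasurable.measurableSet_eq_fun hρm ?_
      exact (hρm.integral_prod_left').comp_measurable measurable_snd
    have h3 : ∀ᵐ a ∂(leb01.prod θ), ρ a = ∫ x', ρ (x', a.2) ∂leb01 := by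
      refine (Measure.ae_prod_iff_ae_ae ?_).2 h2
      refine StronglyMeasurable.measurableSet_eq_fun hρm ?_
      exact (hρm.integral_prod_left').comp_measurable measurable_snd
    refine (Measure.ae_prod_iff_ae_ae ?_).2 ?_
    · refine StronglyMeasurable.measurableSet_eq_fun hΨ ?_
      exact (hρm.integral_prod_left').comp_measurable (measurable_snd.comp measurable_fst)
    · filter_upwards [hconst, h3] with a h4 h5
      filter_upwards [h4] with y hy
      rw [hy]
      exact h5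

end Pool.Agent.H17
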