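import Mathlib
import Pool.Agent.H17.Total
import Pool.Agent.H17.Disint

open Set Function MeasureTheory Filter Topology
open scoped ENNReal

namespace Pool.Agent.H17

universe u

/-- regrouping of the coordinates -/
def regroup (Θ X G : Type*) [MeasurableSpace Θ] [MeasurableSpace X] [MeasurableSpace G] :
    (X × Θ) × G ≃ᵐ Θ × (X × G) :=
  (MeasurableEquiv.prodCongr MeasurableEquiv.prodComm (MeasurableEquiv.refl G)).trans
    MeasurableEquiv.prodAssoc

lemma regroup_apply {Θ X G : Type*} [MeasurableSpace Θ] [MeasurableSpace X] [MeasurableSpace G]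
    (z : (X × Θ) × G) : regroup Θ X G z = (z.1.2, (z.1.1, z.2)) := rfl

lemma regroup_mp {Θ X G : Type*} [MeasurableSpace Θ] [MeasurableSpace X] [MeasurableSpace G]
    (θ : Measure Θ) (ν : Measure X) (μ : Measure G) [SFinite θ] [SFinite ν] [SFinite μ] :
    MeasurePreserving (regroup Θ X G) ((ν.prod θ).prod μ) (θ.prod (ν.prod μ)) := by
  have h1 : MeasurePreserving (Prod.map (Prod.swap : X × Θ → Θ × X) (id : G → G))
      ((ν.prod θ).prod μ) ((θ.prod ν).prod μ) :=
    Measure.measurePreserving_swap.prod (MeasurePreserving.id μ)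
  have h2 : MeasurePreserving (MeasurableEquiv.prodAssoc : (Θ × X) × G ≃ᵐ Θ × (X × G))
      ((θ.prod ν).prod μ) (θ.prod (ν.prod μ)) := measurePreserving_prodAssoc θ ν μ
  exact h2.comp h1

theorem ae_ergodic_skew {d : ℕ} {G : Type u} [Group G] [TopologicalSpace G] [IsTopologicalGroup G]
    [CompactSpace G] [ConnectedSpace G] [T2Space G] [MeasurableSpace G] [BorelSpace G]
    [SecondCountableTopology G]
    (μ : Measure G) [IsProbabilityMeasure μ] [μ.IsMulLeftInvariant] [μ.IsMulRightInvariant]
    [μ.InnerRegularCompactLTTop] [μ.IsOpenPosMeasure]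
    {T : ℝ → ℝ} (hT : Ergodic T leb01) (hinj : Injective T) {φ : (Fin d → G) → ℝ → G}
    (hφ : Measurable fun z : (Fin d → G) × ℝ => φ z.1 z.2)
    (hstage : ∀ x₀, 0 ≤ x₀ → x₀ < 1 → Nonempty (Stage T φ μ x₀)) :
    ∀ᵐ g ∂(Measure.pi fun _ : Fin d => μ), Ergodic (skew T (φ g)) (leb01.prod μ) := by
  set θ : Measure (Fin d → G) := Measure.pi fun _ => μ with hθ
  have hφg : ∀ g, Measurable (φ g) := fun g => hφ.comp measurable_prodMk_left
  refine ae_ergodic_of_total (S := fun g => skew T (φ g)) θ (leb01.prod μ) ?_ ?_ ?_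
  · have h1 : Measurable fun z : (Fin d → G) × (ℝ × G) => φ z.1 z.2.1 :=
      hφ.comp (measurable_fst.prodMk (measurable_fst.comp measurable_snd))
    exact (hT.measurable.comp (measurable_fst.comp measurable_snd)).prodMk
      (h1.mul (measurable_snd.comp measurable_snd))
  · exact fun g => skew_mp μ hT.toMeasurePreserving (hφg g)
  · intro Ψ hΨ hΨ2 hΨinv
    have he := regroup_mp θ leb01 μ
    obtain ⟨c, hcm, hc⟩ := invariant_total μ hT hinj hstage (Ψ ∘ regroup (Fin d → G) ℝ G)
      (hΨ.comp_measurable he.measurable) (hΨ2.comp_measurePreserving he)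
      (he.quasiMeasurePreserving.ae hΨinv)
    refine ⟨c, hcm, ?_⟩
    have he' := he.symm
    have h2 := he'.quasiMeasurePreserving.ae hc
    filter_upwards [h2] with z hz
    simp only [comp_apply, MeasurableEquiv.apply_symm_apply] at hz
    exact hz

end Pool.Agent.H17
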