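import Mathlib
import Pool.Agent.H17.Main

set_option linter.unusedSectionVars false

open Set Function MeasureTheory Filter Topology
open scoped ENNReal

namespace Pool.Agent.H17

universe u

open Classical in
/-- extension of a self-map of `[0,1)` by the identity -/
noncomputable def extT (T : Ico (0 : ℝ) 1 → Ico (0 : ℝ) 1) (x : ℝ) : ℝ :=
  if h : x ∈ Ico (0 : ℝ) 1 then (T ⟨x, h⟩ : ℝ) else x

lemma extT_mem (T : Ico (0 : ℝ) 1 → Ico (0 : ℝ) 1) {x : ℝ} (h : x ∈ Ico (0 : ℝ) 1) :
    extT T x = (T ⟨x, h⟩ : ℝ) := by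
  unfold extT
  rw [dif_pos h]

lemma extT_coe (T : Ico (0 : ℝ) 1 → Ico (0 : ℝ) 1) (x : Ico (0 : ℝ) 1) :
    extT T x = (T x : ℝ) := extT_mem T x.2

lemma extT_notMem (T : Ico (0 : ℝ) 1 → Ico (0 : ℝ) 1) {x : ℝ} (h : x ∉ Ico (0 : ℝ) 1) :
    extT T x = x := by
  unfold extT
  rw [dif_neg h]

lemma extT_injective {T : Ico (0 : ℝ) 1 → Ico (0 : ℝ) 1} (hT : Injective T) :
    Injective (extT T) := by
  intro x y hxy
  by_cases hx : x ∈ Ico (0 : ℝ) 1
  · by_cases hy : y ∈ Ico (0 : ℝ) 1
    · rw [extT_mem T hx, extT_mem T hy] at hxy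
      have := hT (Subtype.ext hxy)
      exact congrArg Subtype.val this
    · rw [extT_mem T hx, extT_notMem T hy] at hxy
      exact absurd (hxy ▸ (T ⟨x, hx⟩).2) hy
  · by_cases hy : y ∈ Ico (0 : ℝ) 1
    · rw [extT_notMem T hx, extT_mem T hy] at hxy
      exact absurd (hxy ▸ (T ⟨y, hy⟩).2) hx
    · rwa [extT_notMem T hx, extT_notMem T hy] at hxy

lemma extT_measurable {T : Ico (0 : ℝ) 1 → Ico (0 : ℝ) 1} (hT : Measurable T) :
    Measurable (extT T) := by
  classical
  have h1 : Measurable (fun x : Ico (0 : ℝ) 1 => (T x : ℝ)) := measurable_subtype_coe.comp hT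
  have h2 : Measurable (fun x : ((Ico (0 : ℝ) 1)ᶜ : Set ℝ) => (x : ℝ)) := measurable_subtype_coe
  have h3 := Measurable.dite (s := Ico (0 : ℝ) 1) h1 h2 measurableSet_Ico
  have h4 : extT T = fun x => if hx : x ∈ Ico (0 : ℝ) 1 then (T ⟨x, hx⟩ : ℝ) else x := by
    funext x
    by_cases hx : x ∈ Ico (0 : ℝ) 1
    · rw [extT_mem T hx, dif_pos hx]
    · rw [extT_notMem T hx, dif_neg hx]
  rw [h4]
  exact h3

/-- Lebesgue measure on the subtype `[0,1)`. -/
noncomputable abbrev lebS : Measure (Ico (0 : ℝ) 1) := Measure.comap Subtype.val volume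

lemma coe_mp : MeasurePreserving (Subtype.val : Ico (0 : ℝ) 1 → ℝ) lebS leb01 :=
  measurePreserving_subtype_coe measurableSet_Ico

instance isProb_sub : IsProbabilityMeasure lebS := by
  refine ⟨?_⟩
  have h := coe_mp.measure_preimage (s := univ) MeasurableSet.univ.nullMeasurableSet
  rw [preimage_univ] at h
  rw [h]
  exact measure_univ

lemma extT_ergodic {T : Ico (0 : ℝ) 1 → Ico (0 : ℝ) 1} (hT : Ergodic T lebS) :
    Ergodic (extT T) leb01 := by
  have hsemi : Semiconj (Subtype.val : Ico (0 : ℝ) 1 → ℝ) T (extT T) := fun x =>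
    (extT_coe T x).symm
  refine ⟨⟨extT_measurable hT.measurable, ?_⟩,
    coe_mp.preErgodic_of_preErgodic_semiconj hT.toPreErgodic hsemi⟩
  rw [← coe_mp.map_eq, Measure.map_map (extT_measurable hT.measurable) coe_mp.measurable]
  have h1 : extT T ∘ (Subtype.val : Ico (0 : ℝ) 1 → ℝ) = Subtype.val ∘ T := by
    funext x
    exact extT_coe T x
  rw [h1, ← Measure.map_map coe_mp.measurable hT.measurable, hT.map_eq]

/-- Ergodicity of the restriction of the skew product to `[0,1) × G`. -/
lemma ergodic_restrict {G : Type u} [Group G] [MeasurableSpace G] (μ : Measure G) [SFinite μ]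
    {T : Ico (0 : ℝ) 1 → Ico (0 : ℝ) 1} {φ : Ico (0 : ℝ) 1 → G} {ψ : ℝ → G}
    (hφ : ∀ x : Ico (0 : ℝ) 1, φ x = ψ x)
    (hmp : MeasurePreserving (skew T φ) (lebS.prod μ)
      (lebS.prod μ))
    (h : Ergodic (skew (extT T) ψ) (leb01.prod μ)) :
    Ergodic (skew T φ) (lebS.prod μ) := by
  have hj : MeasurePreserving (Prod.map (Subtype.val : Ico (0 : ℝ) 1 → ℝ) (id : G → G))
      (lebS.prod μ) (leb01.prod μ) :=
    coe_mp.prod (MeasurePreserving.id μ)
  have hemb : MeasurableEmbedding (Prod.map (Subtype.val : Ico (0 : ℝ) 1 → ℝ) (id : G → G)) :=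
    (MeasurableEmbedding.subtype_coe measurableSet_Ico).prodMap MeasurableEmbedding.id
  refine ⟨hmp, ⟨fun s hs hinv => ?_⟩⟩
  set s' := Prod.map (Subtype.val : Ico (0 : ℝ) 1 → ℝ) (id : G → G) '' s with hs'
  have hs'm : MeasurableSet s' := hemb.measurableSet_image.2 hs
  have hmem : ∀ (x : Ico (0 : ℝ) 1) (y : G), ((x : ℝ), y) ∈ s' ↔ (x, y) ∈ s := by
    intro x y
    have h1 := hemb.injective.mem_set_image (s := s) (a := (x, y))
    exact h1
  have hinv' : skew (extT T) ψ ⁻¹' s' = s' := by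
    ext ⟨x, y⟩
    by_cases hx : x ∈ Ico (0 : ℝ) 1
    · have h1 : skew (extT T) ψ (x, y) = ((T ⟨x, hx⟩ : ℝ), φ ⟨x, hx⟩ * y) := by
        simp only [skew]
        rw [extT_mem T hx, hφ]
      rw [mem_preimage, h1, hmem]
      have h2 := hmem ⟨x, hx⟩ y
      rw [h2]
      have h3 : (⟨x, hx⟩, y) ∈ skew T φ ⁻¹' s ↔ (⟨x, hx⟩, y) ∈ s := by rw [hinv]
      exact h3
    · constructor
      · intro h1
        exfalso
        obtain ⟨⟨x', y'⟩, _, h2⟩ := h1
        have h3 : (x' : ℝ) = x := by
          have := congrArg Prod.fst h2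
          simp only [Prod.map, skew] at this
          rw [extT_notMem T hx] at this
          exact this
        exact hx (h3 ▸ x'.2)
      · intro h1
        exfalso
        obtain ⟨⟨x', y'⟩, _, h2⟩ := h1
        have h3 : (x' : ℝ) = x := congrArg Prod.fst h2
        exact hx (h3 ▸ x'.2)
  have h4 := h.aeconst_set hs'm hinv'
  rw [← hj.aeconst_preimage hs'm.nullMeasurableSet] at h4
  have h5 : Prod.map (Subtype.val : Ico (0 : ℝ) 1 → ℝ) (id : G → G) ⁻¹' s' = s :=
    hemb.injective.preimage_image s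
  rwa [h5] at h4


section main

variable {d : ℕ} {a b t : Fin d → ℝ} {T : Ico (0 : ℝ) 1 → Ico (0 : ℝ) 1}

/-- the core data of an interval exchange -/
def initCore (hle : ∀ j, a j ≤ b j)
    (hdisj : ∀ i j, i ≠ j → Disjoint (Ico (a i) (b i)) (Ico (a j) (b j)))
    (hunion : ⋃ j, Ico (a j) (b j) = Ico (0 : ℝ) 1) (hbij : Bijective T)
    (ht : ∀ j (x : Ico (0 : ℝ) 1), (x : ℝ) ∈ Ico (a j) (b j) → (T x : ℝ) = x + t j) :
    Core d where
  p := 0
  q := 1
  l := a
  r := b
  t := t
  hpq := one_pos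
  hlr := hle
  cover := by
    intro x
    have h := Set.ext_iff.1 hunion x
    rw [mem_iUnion] at h
    exact h.symm
  uniq := by
    intro x i j hi hj
    by_contra hne
    exact (Set.disjoint_left.1 (hdisj i j hne)) hi hj
  cover' := by
    intro x
    constructor
    · intro hx
      obtain ⟨y, hy⟩ := hbij.2 ⟨x, hx⟩
      have h1 : (y : ℝ) ∈ ⋃ j, Ico (a j) (b j) := by
        rw [hunion]
        exact y.2
      obtain ⟨j, hj⟩ := mem_iUnion.1 h1
      have h2 := ht j y hj
      rw [hy] at h2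
      simp only at h2
      refine ⟨j, ?_, ?_⟩
      · linarith [hj.1]
      · linarith [hj.2]
    · rintro ⟨j, h1, h2⟩
      have h3 : x - t j ∈ Ico (a j) (b j) := ⟨by linarith, by linarith⟩
      have h4 : x - t j ∈ Ico (0 : ℝ) 1 := by
        rw [← hunion]
        exact mem_iUnion.2 ⟨j, h3⟩
      have h5 := ht j ⟨x - t j, h4⟩ h3
      simp only [sub_add_cancel] at h5
      have h6 := (T ⟨x - t j, h4⟩).2
      rw [h5] at h6
      exact h6
  uniq' := by
    intro x i j hi hj
    have h3 : x - t i ∈ Ico (a i) (b i) := ⟨by linarith [hi.1], by linarith [hi.2]⟩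
    have h4 : x - t j ∈ Ico (a j) (b j) := ⟨by linarith [hj.1], by linarith [hj.2]⟩
    have h5 : x - t i ∈ Ico (0 : ℝ) 1 := by
      rw [← hunion]
      exact mem_iUnion.2 ⟨i, h3⟩
    have h6 : x - t j ∈ Ico (0 : ℝ) 1 := by
      rw [← hunion]
      exact mem_iUnion.2 ⟨j, h4⟩
    have h7 := ht i ⟨x - t i, h5⟩ h3
    have h8 := ht j ⟨x - t j, h6⟩ h4
    simp only [sub_add_cancel] at h7 h8
    have h9 : T ⟨x - t i, h5⟩ = T ⟨x - t j, h6⟩ := Subtype.ext (h7.trans h8.symm)
    have h10 := congrArg Subtype.val (hbij.1 h9)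
    simp only at h10
    rw [h10] at h3
    by_contra hne
    exact (Set.disjoint_left.1 (hdisj i j hne)) h3 h4

theorem typical_ergodic (hle : ∀ j, a j ≤ b j)
    (hdisj : ∀ i j, i ≠ j → Disjoint (Ico (a i) (b i)) (Ico (a j) (b j)))
    (hunion : ⋃ j, Ico (a j) (b j) = Ico (0 : ℝ) 1) (hbij : Bijective T)
    (ht : ∀ j (x : Ico (0 : ℝ) 1), (x : ℝ) ∈ Ico (a j) (b j) → (T x : ℝ) = x + t j)
    (herg : Ergodic T lebS)
    {G : Type u} [Group G] [TopologicalSpace G] [IsTopologicalGroup G]
    [CompactSpace G] [ConnectedSpace G] [T2Space G] [SecondCountableTopology G]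
    [MeasurableSpace G] [BorelSpace G] (μ : Measure G) [μ.IsHaarMeasure]
    [IsProbabilityMeasure μ] :
    ∀ᵐ g ∂(Measure.pi fun _ : Fin d => μ), ∀ φ : Ico (0 : ℝ) 1 → G,
      (∀ j (x : Ico (0 : ℝ) 1), (x : ℝ) ∈ Ico (a j) (b j) → φ x = g j) →
      Ergodic (skew T φ) (lebS.prod μ) := by
  classical
  have hright : μ.IsMulRightInvariant := by
    refine ⟨fun g => ?_⟩
    have h1 : (Measure.map (· * g) μ).IsHaarMeasure := Measure.isHaarMeasure_map_mul_right μ g
    have h2 : IsProbabilityMeasure (Measure.map (· * g) μ) :=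
      Measure.isProbabilityMeasure_map (measurable_mul_const g).aemeasurable
    exact Measure.isHaarMeasure_eq_of_isProbabilityMeasure _ _
  have h0 : (0 : ℝ) ∈ ⋃ j, Ico (a j) (b j) := by
    rw [hunion]
    exact ⟨le_refl _, one_pos⟩
  obtain ⟨j₀, _⟩ := mem_iUnion.1 h0
  set C := initCore hle hdisj hunion hbij ht with hC
  let idx : ℝ → Fin d := fun x => if h : ∃ j, x ∈ Ico (a j) (b j) then h.choose else j₀
  have hidx : ∀ x j, x ∈ Ico (a j) (b j) → idx x = j := by
    intro x j hx
    have h : ∃ j, x ∈ Ico (a j) (b j) := ⟨j, hx⟩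
    have h1 : idx x = h.choose := dif_pos h
    rw [h1]
    exact C.uniq x _ _ h.choose_spec hx
  have hidx0 : ∀ x, (¬ ∃ j, x ∈ Ico (a j) (b j)) → idx x = j₀ := fun x h => dif_neg h
  have hidxm : Measurable idx := by
    refine measurable_to_countable' fun j => ?_
    have h1 : idx ⁻¹' {j} = Ico (a j) (b j) ∪ ((if j = j₀ then univ else ∅) ∩
        (Ico (0 : ℝ) 1)ᶜ) := by
      ext x
      rw [mem_preimage, mem_singleton_iff]
      constructor
      · intro hx
        by_cases h : ∃ j, x ∈ Ico (a j) (b j)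
        · obtain ⟨i, hi⟩ := h
          left
          rw [← hx, hidx x i hi]
          exact hi
        · right
          rw [hidx0 x h] at hx
          refine ⟨by simp [hx], ?_⟩
          intro hx01
          rw [← hunion] at hx01
          exact h (mem_iUnion.1 hx01)
      · rintro (hx | ⟨hx1, hx2⟩)
        · exact hidx x j hx
        · have h3 : ¬ ∃ j, x ∈ Ico (a j) (b j) := by
            intro h
            apply hx2
            rw [← hunion]
            exact mem_iUnion.2 h
          rw [hidx0 x h3]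
          by_contra hne
          rw [if_neg (Ne.symm hne)] at hx1
          exact hx1
    rw [h1]
    refine measurableSet_Ico.union (MeasurableSet.inter ?_ measurableSet_Ico.compl)
    split_ifs
    · exact MeasurableSet.univ
    · exact MeasurableSet.empty
  set ψ : (Fin d → G) → ℝ → G := fun g x => g (idx x) with hψ
  have hψm : Measurable fun z : (Fin d → G) × ℝ => ψ z.1 z.2 := by
    have h1 : Measurable fun z : (Fin d → G) × Fin d => z.1 z.2 :=
      measurable_from_prod_countable_left fun j => measurable_pi_apply j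
    exact h1.comp (measurable_fst.prodMk (hidxm.comp measurable_snd))
  have hstage : ∀ x₀, 0 ≤ x₀ → x₀ < 1 → Nonempty (Stage (extT T) ψ μ x₀) := by
    intro x₀ hx0 hx1
    refine ⟨{ C with
      h := fun _ => 1
      W := fun j g => g j
      hp0 := le_refl _
      hq1 := le_refl _
      mem := ⟨hx0, hx1⟩
      hpos := fun _ => le_refl _
      iter := ?_
      area := ?_
      mp := ?_ }⟩
    · intro g x y j hx
      have hx01 : x ∈ Ico (0 : ℝ) 1 := by
        rw [← hunion]
        exact mem_iUnion.2 ⟨j, hx⟩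
      rw [iterate_one]
      simp only [skew]
      rw [extT_mem T hx01, ht j ⟨x, hx01⟩ hx]
      simp only [hψ]
      rw [hidx x j hx]
      rfl
    · have := C.sum_len
      have h2 : C.q - C.p = 1 := by
        change (1 : ℝ) - 0 = 1
        norm_num
      rw [h2] at this
      rw [← this]
      refine Finset.sum_congr rfl fun j _ => ?_
      simp
    · exact MeasurePreserving.id _
  have hmain := ae_ergodic_skew μ (extT_ergodic herg) (extT_injective hbij.1) hψm hstage
  filter_upwards [hmain] with g hg φ hφ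
  have hφψ : ∀ x : Ico (0 : ℝ) 1, φ x = ψ g x := by
    intro x
    have hx : (x : ℝ) ∈ ⋃ j, Ico (a j) (b j) := by
      rw [hunion]
      exact x.2
    obtain ⟨j, hj⟩ := mem_iUnion.1 hx
    rw [hφ j x hj]
    simp only [hψ]
    rw [hidx x j hj]
  have hφm : Measurable φ := by
    have h1 : φ = (fun x : ℝ => ψ g x) ∘ Subtype.val := by
      funext x
      exact hφψ x
    rw [h1]
    exact (hψm.comp measurable_prodMk_left).comp measurable_subtype_coe
  exact ergodic_restrict μ hφψ (skew_mp μ herg.toMeasurePreserving hφm) hg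

end main

end Pool.Agent.H17
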