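import Mathlib

/-!
Sparse graphs of large girth: the extension lemma for constraint systems on closed sets.
-/

namespace Pool.H17.LC

open Finset
open scoped Classical

set_option linter.unusedSectionVars false

noncomputable section

variable {U : Type*} [Fintype U]

/-- Number of adjacent ordered pairs from `A` to `B`. -/
def dd (G : SimpleGraph U) (A B : Finset U) : ℕ :=
  ∑ x ∈ A, ∑ y ∈ B, if G.Adj x y then 1 else 0

lemma dd_comm (G : SimpleGraph U) (A B : Finset U) : dd G A B = dd G B A := by
  unfold dd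
  rw [Finset.sum_comm]
  refine Finset.sum_congr rfl fun x _ => Finset.sum_congr rfl fun y _ => ?_
  simp only [G.adj_comm]

lemma dd_union_left (G : SimpleGraph U) {A A' : Finset U} (B : Finset U) (h : Disjoint A A') :
    dd G (A ∪ A') B = dd G A B + dd G A' B := by
  unfold dd
  rw [Finset.sum_union h]

lemma dd_union_right (G : SimpleGraph U) (A : Finset U) {B B' : Finset U} (h : Disjoint B B') :
    dd G A (B ∪ B') = dd G A B + dd G A B' := by
  rw [dd_comm, dd_union_left G A h, dd_comm G B, dd_comm G B']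

lemma dd_mono_left (G : SimpleGraph U) {A A' : Finset U} (B : Finset U) (h : A ⊆ A') :
    dd G A B ≤ dd G A' B := by
  unfold dd
  exact Finset.sum_le_sum_of_subset h

lemma dd_mono_right (G : SimpleGraph U) (A : Finset U) {B B' : Finset U} (h : B ⊆ B') :
    dd G A B ≤ dd G A B' := by
  rw [dd_comm, dd_comm G A]; exact dd_mono_left G A h

/-- Neighbours of `x` inside `S`. -/
def nb (G : SimpleGraph U) (S : Finset U) (x : U) : Finset U := S.filter (fun y => G.Adj x y)

lemma mem_nb {G : SimpleGraph U} {S : Finset U} {x y : U} :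
    y ∈ nb G S x ↔ y ∈ S ∧ G.Adj x y := by simp [nb]

lemma dd_eq_sum (G : SimpleGraph U) (A S : Finset U) : dd G A S = ∑ x ∈ A, (nb G S x).card := by
  unfold dd nb
  refine Finset.sum_congr rfl fun x _ => ?_
  rw [Finset.card_filter]

/-- `B` is closed: adding a few vertices adds few edges. -/
def Closed (G : SimpleGraph U) (q N : ℕ) (B : Finset U) : Prop :=
  ∀ A : Finset U, A.Nonempty → Disjoint A B → A.card + B.card ≤ N →
    q * (dd G A A + 2 * dd G A B) < 2 * (q + 1) * A.card

/-- No cycle of length between `3` and `T`. -/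
def NoShort (G : SimpleGraph U) (T : ℕ) : Prop :=
  ∀ ℓ, 3 ≤ ℓ → ℓ ≤ T → ∀ c : ℕ → U, (∀ i < ℓ, ∀ j < ℓ, c i = c j → i = j) → c ℓ = c 0 →
    ¬ ∀ i < ℓ, G.Adj (c i) (c (i + 1))

lemma inj_of_noShort {G : SimpleGraph U} {T : ℕ} (hG : NoShort G T) (x : ℕ → U)
    (h1 : ∀ i < T, G.Adj (x i) (x (i + 1))) (h2 : ∀ i, i + 2 ≤ T → x i ≠ x (i + 2)) :
    ∀ i ≤ T, ∀ j ≤ T, x i = x j → i = j := by
  -- no repetition at distance `ℓ`, by strong induction on `ℓ`
  have key : ∀ ℓ, 1 ≤ ℓ → ∀ i, i + ℓ ≤ T → x i ≠ x (i + ℓ) := by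
    intro ℓ
    induction ℓ using Nat.strong_induction_on with
    | _ ℓ ih =>
      intro hℓ i hi heq
      rcases Nat.lt_or_ge ℓ 3 with h3 | h3
      · interval_cases ℓ
        · have := h1 i (by omega)
          rw [← heq] at this
          exact G.loopless.irrefl _ this
        · exact h2 i hi heq
      · refine hG ℓ h3 (by omega) (fun t => x (i + t)) ?_ ?_ ?_
        · intro a ha b hb hab
          by_contra hne
          rcases Nat.lt_or_gt_of_ne hne with h | h
          · refine ih (b - a) (by omega) (by omega) (i + a) (by omega) ?_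
            have : i + a + (b - a) = i + b := by omega
            rw [this]; exact hab
          · refine ih (a - b) (by omega) (by omega) (i + b) (by omega) ?_
            have : i + b + (a - b) = i + a := by omega
            rw [this]; exact hab.symm
        · simpa using heq.symm
        · intro t ht
          exact h1 (i + t) (by omega)
  intro i hi j hj hij
  by_contra hne
  rcases Nat.lt_or_gt_of_ne hne with h | h
  · refine key (j - i) (by omega) i (by omega) ?_
    have : i + (j - i) = j := by omega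
    rw [this]; exact hij
  · refine key (i - j) (by omega) j (by omega) ?_
    have : j + (i - j) = i := by omega
    rw [this]; exact hij.symm

/-- The successor map on darts. -/
def nxt (G : SimpleGraph U) (S : Finset U) (p : U × U) : U × U :=
  (p.2, if h : ((nb G S p.2).erase p.1).Nonempty then h.choose else p.2)

lemma nxt_spec {G : SimpleGraph U} {S : Finset U} {x y : U} (hx : x ∈ S) (hxy : G.Adj x y)
    (hy : (nb G S y).card = 2) :
    (nxt G S (x, y)).1 = y ∧ (nxt G S (x, y)).2 ∈ nb G S y ∧ (nxt G S (x, y)).2 ≠ x ∧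
      nb G S y = {x, (nxt G S (x, y)).2} := by
  have hx' : x ∈ nb G S y := mem_nb.2 ⟨hx, hxy.symm⟩
  have hcard : ((nb G S y).erase x).card = 1 := by
    rw [Finset.card_erase_of_mem hx', hy]
  have hne : ((nb G S y).erase x).Nonempty := by
    rw [← Finset.card_pos, hcard]; exact Nat.one_pos
  have h2 : (nxt G S (x, y)).2 = hne.choose := by
    simp [nxt, hne]
  have hmem : hne.choose ∈ (nb G S y).erase x := hne.choose_spec
  refine ⟨rfl, ?_, ?_, ?_⟩
  · rw [h2]; exact Finset.mem_of_mem_erase hmem
  · rw [h2]; exact Finset.ne_of_mem_erase hmem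
  · rw [h2]
    symm
    apply Finset.eq_of_subset_of_card_le
    · intro z hz
      rcases Finset.mem_insert.1 hz with rfl | hz
      · exact hx'
      · rw [Finset.mem_singleton] at hz
        rw [hz]; exact Finset.mem_of_mem_erase hmem
    · rw [hy, Finset.card_pair]
      exact (Finset.ne_of_mem_erase hmem).symm

/-- Darts whose walk leaves `A2` after exactly `j` steps. -/
def exitSet (G : SimpleGraph U) (S A2 : Finset U) (DS : Finset (U × U)) : ℕ → Finset (U × U)
  | 0 => DS.filter (fun p => p.2 ∉ A2)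
  | (j + 1) => DS.filter (fun p => p.2 ∈ A2 ∧ nxt G S p ∈ exitSet G S A2 DS j)

/-- Finding a long walk through vertices of degree two. -/
lemma exists_walk {G : SimpleGraph U} {q M : ℕ} {A B : Finset U} (hA : A.Nonempty)
    (hAB : Disjoint A B) (hq : 3 * M + 2 ≤ q)
    (hcl : q * (dd G A A + 2 * dd G A B) < 2 * (q + 1) * A.card)
    (hdeg : ∀ x ∈ A, 2 ≤ (nb G (A ∪ B) x).card) :
    ∃ x : ℕ → U, (∀ i ≤ M, x i ∈ A ∧ (nb G (A ∪ B) (x i)).card = 2) ∧
      (∀ i < M, G.Adj (x i) (x (i + 1))) ∧ (∀ i, i + 2 ≤ M → x i ≠ x (i + 2)) := by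
  set S := A ∪ B with hS
  set A2 := A.filter (fun x => (nb G S x).card = 2) with hA2
  set A3 := A.filter (fun x => ¬ (nb G S x).card = 2) with hA3
  -- darts starting in `A2`
  set DS : Finset (U × U) := (A2 ×ˢ S).filter (fun p => G.Adj p.1 p.2) with hDS
  have memDS : ∀ x y, (x, y) ∈ DS ↔ x ∈ A2 ∧ y ∈ S ∧ G.Adj x y := by
    intro x y
    simp [hDS, and_assoc]
  have hA2A : A2 ⊆ A := Finset.filter_subset _ _
  have hA3A : A3 ⊆ A := Finset.filter_subset _ _
  have hAS : A ⊆ S := Finset.subset_union_left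
  have step : ∀ p ∈ DS, p.2 ∈ A2 → nxt G S p ∈ DS := by
    rintro ⟨x, y⟩ hp hy
    obtain ⟨hx, hyS, hadj⟩ := (memDS x y).1 hp
    obtain ⟨e1, e2, -, -⟩ := nxt_spec (hAS (hA2A hx)) hadj (Finset.mem_filter.1 hy).2
    have h3 := mem_nb.1 e2
    have h4 : nxt G S (x, y) = (y, (nxt G S (x, y)).2) := Prod.ext e1 rfl
    rw [h4]
    exact (memDS _ _).2 ⟨hy, h3.1, h3.2⟩
  have stepinj : ∀ p ∈ DS, p.2 ∈ A2 → ∀ p' ∈ DS, p'.2 ∈ A2 → nxt G S p = nxt G S p' → p = p' := by
    rintro ⟨x, y⟩ hp hy ⟨x', y'⟩ hp' hy' heq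
    obtain ⟨hx, hyS, hadj⟩ := (memDS x y).1 hp
    obtain ⟨hx', hyS', hadj'⟩ := (memDS x' y').1 hp'
    have h1 := nxt_spec (hAS (hA2A hx)) hadj (Finset.mem_filter.1 hy).2
    have h2 := nxt_spec (hAS (hA2A hx')) hadj' (Finset.mem_filter.1 hy').2
    have hyy : y = y' := by rw [← h1.1, ← h2.1, heq]
    subst hyy
    have hxm : x ∈ nb G S y := by rw [h1.2.2.2]; simp
    rw [h2.2.2.2] at hxm
    rcases Finset.mem_insert.1 hxm with h | h
    · rw [h]
    · rw [Finset.mem_singleton, ← heq] at h
      exact absurd h.symm h1.2.2.1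
  -- exit sets
  let Y : ℕ → Finset (U × U) := exitSet G S A2 DS
  have hY0 : Y 0 = DS.filter (fun p => p.2 ∉ A2) := rfl
  have hYs : ∀ j : ℕ, Y (j + 1) = DS.filter (fun p : U × U => p.2 ∈ A2 ∧ nxt G S p ∈ Y j) :=
    fun j => rfl
  have hYcard : ∀ j, (Y j).card ≤ (Y 0).card := by
    intro j
    induction j with
    | zero => exact le_rfl
    | succ j ih =>
      refine le_trans ?_ ih
      refine Finset.card_le_card_of_injOn (nxt G S) ?_ ?_
      · intro p hp
        rw [hYs] at hp
        exact (Finset.mem_filter.1 hp).2.2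
      · intro p hp p' hp' h
        rw [hYs] at hp hp'
        have h1 := Finset.mem_filter.1 (Finset.mem_coe.1 hp)
        have h2 := Finset.mem_filter.1 (Finset.mem_coe.1 hp')
        exact stepinj p h1.1 h1.2.1 p' h2.1 h2.2.1 h
  by_cases hE : ∃ p ∈ DS, ∀ j < M, p ∉ Y j
  · obtain ⟨p, hp, hpY⟩ := hE
    -- iterates
    have inv : ∀ j ≤ M, (nxt G S)^[j] p ∈ DS ∧ ∀ i, i + j < M → (nxt G S)^[j] p ∉ Y i := by
      intro j
      induction j with
      | zero => intro _; exact ⟨hp, fun i hi => hpY i (by omega)⟩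
      | succ j ih =>
        intro hj
        obtain ⟨h1, h2⟩ := ih (by omega)
        have hin : ((nxt G S)^[j] p).2 ∈ A2 := by
          by_contra hcon
          exact h2 0 (by omega) (by rw [hY0]; exact Finset.mem_filter.2 ⟨h1, hcon⟩)
        rw [Function.iterate_succ_apply']
        refine ⟨step _ h1 hin, fun i hi hcon => h2 (i + 1) (by omega) ?_⟩
        rw [hYs]
        exact Finset.mem_filter.2 ⟨h1, hin, hcon⟩
    have hin : ∀ j < M, ((nxt G S)^[j] p).2 ∈ A2 := by
      intro j hj
      obtain ⟨h1, h2⟩ := inv j hj.le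
      by_contra hcon
      exact h2 0 (by omega) (by rw [hY0]; exact Finset.mem_filter.2 ⟨h1, hcon⟩)
    have hfst : ∀ j, ((nxt G S)^[j + 1] p).1 = ((nxt G S)^[j] p).2 := by
      intro j
      rw [Function.iterate_succ_apply']
      rfl
    have hmem : ∀ j ≤ M, ((nxt G S)^[j] p).1 ∈ A2 ∧ ((nxt G S)^[j] p).2 ∈ S ∧
        G.Adj ((nxt G S)^[j] p).1 ((nxt G S)^[j] p).2 := by
      intro j hj
      exact (memDS _ _).1 (inv j hj).1
    refine ⟨fun j => ((nxt G S)^[j] p).1, ?_, ?_, ?_⟩
    · intro i hi
      have := (hmem i hi).1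
      exact ⟨hA2A this, (Finset.mem_filter.1 this).2⟩
    · intro i hi
      have := (hmem i hi.le).2.2
      rw [← hfst] at this
      exact this
    · intro i hi heq
      have h1 := (hmem i (by omega)).2.2
      have h3 := nxt_spec (hAS (hA2A (hmem i (by omega)).1)) h1
        (Finset.mem_filter.1 (hin i (by omega))).2
      apply h3.2.2.1
      have e : (nxt G S)^[i + 1] p = nxt G S (((nxt G S)^[i] p).1, ((nxt G S)^[i] p).2) := by
        rw [Function.iterate_succ_apply']
      rw [← e, ← hfst (i + 1)]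
      exact heq.symm
  · exfalso
    push Not at hE
    have hcov : DS ⊆ (Finset.range M).biUnion Y := by
      intro p hp
      obtain ⟨j, hj, hpj⟩ := hE p hp
      exact Finset.mem_biUnion.2 ⟨j, Finset.mem_range.2 hj, hpj⟩
    have hDSle : DS.card ≤ M * (Y 0).card := by
      calc DS.card ≤ ((Finset.range M).biUnion Y).card := Finset.card_le_card hcov
        _ ≤ ∑ j ∈ Finset.range M, (Y j).card := Finset.card_biUnion_le
        _ ≤ ∑ _j ∈ Finset.range M, (Y 0).card := Finset.sum_le_sum fun j _ => hYcard j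
        _ = M * (Y 0).card := by simp
    have hDScard : DS.card = 2 * A2.card := by
      have : DS.card = dd G A2 S := by
        rw [hDS, Finset.card_filter, Finset.sum_product]
        rfl
      rw [this, dd_eq_sum]
      rw [Finset.sum_congr rfl (g := fun _ => 2)]
      · simp [mul_comm]
      · intro x hx
        exact (Finset.mem_filter.1 hx).2
    have hA23 : A2.card + A3.card = A.card := by
      rw [hA2, hA3]
      exact Finset.card_filter_add_card_filter_not _
    have hAeq : A2 ∪ A3 = A := Finset.filter_union_filter_not_eq _ _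
    have hdis23 : Disjoint A2 A3 := Finset.disjoint_filter_filter_not _ _ _
    have hY0card : (Y 0).card ≤ dd G A3 S + dd G A B := by
      have h1 : Y 0 ⊆ (A2 ×ˢ (A3 ∪ B)).filter (fun p => G.Adj p.1 p.2) := by
        rintro ⟨x, y⟩ hp
        rw [hY0] at hp
        obtain ⟨hp1, hp2⟩ := Finset.mem_filter.1 hp
        obtain ⟨hx, hy, hadj⟩ := (memDS x y).1 hp1
        refine Finset.mem_filter.2 ⟨Finset.mem_product.2 ⟨hx, ?_⟩, hadj⟩
        rcases Finset.mem_union.1 hy with hy | hy
        · rw [← hAeq] at hy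
          rcases Finset.mem_union.1 hy with hy | hy
          · exact absurd hy hp2
          · exact Finset.mem_union_left _ hy
        · exact Finset.mem_union_right _ hy
      have h2 : ((A2 ×ˢ (A3 ∪ B)).filter (fun p => G.Adj p.1 p.2)).card = dd G A2 (A3 ∪ B) := by
        rw [Finset.card_filter, Finset.sum_product]
        rfl
      have h3 : dd G A2 (A3 ∪ B) = dd G A2 A3 + dd G A2 B := by
        apply dd_union_right
        exact hAB.mono_left hA3A
      have h4 : dd G A2 A3 ≤ dd G A3 S := by
        rw [dd_comm]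
        exact dd_mono_right G A3 (hA2A.trans hAS)
      have h5 : dd G A2 B ≤ dd G A B := dd_mono_left G B hA2A
      calc (Y 0).card ≤ _ := Finset.card_le_card h1
        _ = dd G A2 A3 + dd G A2 B := by rw [h2, h3]
        _ ≤ _ := by omega
    have hsum : dd G A A + dd G A B = 2 * A2.card + dd G A3 S := by
      have h1 : dd G A A + dd G A B = dd G A S := (dd_union_right G A hAB).symm
      have h2 : dd G A S = dd G A2 S + dd G A3 S := by
        rw [← dd_union_left G S hdis23, hAeq]
      have h3 : dd G A2 S = 2 * A2.card := by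
        rw [dd_eq_sum, Finset.sum_congr rfl (g := fun _ => 2)]
        · simp [mul_comm]
        · intro x hx
          exact (Finset.mem_filter.1 hx).2
      omega
    have h3le : 3 * A3.card ≤ dd G A3 S := by
      rw [dd_eq_sum, mul_comm, ← smul_eq_mul]
      apply Finset.card_nsmul_le_sum
      intro x hx
      have h1 := (Finset.mem_filter.1 hx).2
      have h2 := hdeg x (hA3A hx)
      omega
    have hApos : 0 < A.card := Finset.card_pos.2 hA
    -- arithmetic
    set a := A.card
    set a2 := A2.card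
    set a3 := A3.card
    set s3 := dd G A3 S
    set δ := dd G A B
    have e1 : q * (2 * a2 + s3 + δ) < 2 * (q + 1) * a := by
      have : dd G A A + 2 * δ = 2 * a2 + s3 + δ := by omega
      rw [← this]; exact hcl
    have e2 : 2 * a2 ≤ M * (s3 + δ) := by
      rw [← hDScard]
      exact hDSle.trans (Nat.mul_le_mul_left _ hY0card)
    have haa : a = a2 + a3 := hA23.symm
    zify at *
    have q0 : (0:ℤ) ≤ q := by positivity
    -- q (s3 + δ) < 6 a
    have f1 : (q:ℤ) * (s3 + δ) < 6 * a := by
      have : (q:ℤ) * (s3 - 2 * a3 + δ) < 2 * a := by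
        rw [haa] at e1 ⊢
        nlinarith [e1]
      have h4 : (q:ℤ) * (s3 + δ) ≤ q * (3 * (s3 - 2 * a3 + δ)) := by
        apply mul_le_mul_of_nonneg_left _ q0
        have : (0:ℤ) ≤ δ := by positivity
        linarith
      linarith
    have f2 : (q:ℤ) * a3 < 2 * a := by
      have h0 : (q:ℤ) * (s3 - 2 * a3 + δ) < 2 * a := by
        rw [haa] at e1 ⊢
        nlinarith [e1]
      have h4 : (q:ℤ) * a3 ≤ q * (s3 - 2 * a3 + δ) := by
        apply mul_le_mul_of_nonneg_left _ q0
        have : (0:ℤ) ≤ δ := by positivity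
        linarith
      linarith
    have M0 : (0:ℤ) ≤ M := by positivity
    have f3 : (q:ℤ) * (2 * a2) ≤ M * (6 * a) := by
      calc (q:ℤ) * (2 * a2) ≤ q * (M * (s3 + δ)) := mul_le_mul_of_nonneg_left e2 q0
        _ = M * (q * (s3 + δ)) := by ring
        _ ≤ M * (6 * a) := mul_le_mul_of_nonneg_left f1.le M0
    have f4 : (q:ℤ) * (2 * a) < (6 * M + 4) * a := by
      rw [haa] at f2 f3 ⊢
      nlinarith
    have f5 : (2 * q - (6 * M + 4) : ℤ) * a < 0 := by linarith
    have f6 : (0:ℤ) ≤ (2 * q - (6 * M + 4) : ℤ) * a := by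
      apply mul_nonneg
      · linarith
      · positivity
    linarith

end

end Pool.H17.LC
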