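import Pool.Agent.H17.LC1

/-!
Extension of labellings from closed sets, and the resulting pebble-game strategy.
-/

namespace Pool.H17.LC

open Finset
open scoped Classical

set_option linter.unusedSectionVars false

noncomputable section

variable {U : Type*} [Fintype U] {Λ : Type*}

/-- A system of binary constraints on the edges of a graph which can be extended along one edge,
and is unconstrained along walks of length `T`. -/
structure Flex (G : SimpleGraph U) (Λ : Type*) (T : ℕ) where
  Sat : U → U → Λ → Λ → Prop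
  symm : ∀ x y a b, Sat x y a b → Sat y x b a
  one : ∀ x y, G.Adj x y → ∀ b, ∃ a, Sat x y a b
  path : ∀ x : ℕ → U, (∀ i < T, G.Adj (x i) (x (i + 1))) → (∀ i, i + 2 ≤ T → x i ≠ x (i + 2)) →
    ∀ a b, ∃ f : ℕ → Λ, f 0 = a ∧ f T = b ∧ ∀ i < T, Sat (x i) (x (i + 1)) (f i) (f (i + 1))

/-- `f` satisfies all constraints inside `S`. -/
def SatOn {G : SimpleGraph U} {T : ℕ} (F : Flex G Λ T) (S : Finset U) (f : U → Λ) : Prop :=
  ∀ x ∈ S, ∀ y ∈ S, G.Adj x y → F.Sat x y (f x) (f y)

lemma SatOn.mono {G : SimpleGraph U} {T : ℕ} {F : Flex G Λ T} {S S' : Finset U} {f : U → Λ}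
    (h : SatOn F S f) (hS : S' ⊆ S) : SatOn F S' f :=
  fun x hx y hy hxy => h x (hS hx) y (hS hy) hxy

lemma extend {G : SimpleGraph U} {T q N : ℕ} (F : Flex G Λ T) (hT : 2 ≤ T) (hG : NoShort G T)
    (hq : 3 * T + 2 ≤ q) {B : Finset U} (hB : Closed G q N B) :
    ∀ k : ℕ, ∀ A : Finset U, A.card = k → Disjoint A B → A.card + B.card ≤ N →
      ∀ f : U → Λ, SatOn F B f → ∃ f' : U → Λ, (∀ x ∈ B, f' x = f x) ∧ SatOn F (A ∪ B) f' := by
  intro k
  induction k using Nat.strong_induction_on with
  | _ k ih =>
    intro A hAk hAB hN f hf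
    rcases A.eq_empty_or_nonempty with rfl | hA
    · exact ⟨f, fun _ _ => rfl, by simpa using hf⟩
    by_cases hlow : ∃ a ∈ A, (nb G (A ∪ B) a).card ≤ 1
    · obtain ⟨a, ha, hdeg⟩ := hlow
      have haB : a ∉ B := Finset.disjoint_left.1 hAB ha
      obtain ⟨f0, hf0B, hf0⟩ := ih (A.erase a).card
        (by rw [← hAk]; exact Finset.card_erase_lt_of_mem ha) (A.erase a) rfl
        (hAB.mono_left (Finset.erase_subset _ _))
        (le_trans (Nat.add_le_add_right (Finset.card_le_card (Finset.erase_subset _ _)) _) hN) f hf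
      obtain ⟨l, hl⟩ : ∃ l : Λ, ∀ y ∈ nb G (A ∪ B) a, F.Sat a y l (f0 y) := by
        rcases Nat.lt_or_ge (nb G (A ∪ B) a).card 1 with h | h
        · have : nb G (A ∪ B) a = ∅ := Finset.card_eq_zero.1 (by omega)
          exact ⟨f a, by simp [this]⟩
        · obtain ⟨y, hy⟩ := Finset.card_eq_one.1 (le_antisymm hdeg h)
          have hya : G.Adj a y := (mem_nb.1 (by rw [hy]; simp : y ∈ nb G (A ∪ B) a)).2
          obtain ⟨l, hl⟩ := F.one a y hya (f0 y)
          exact ⟨l, by simpa [hy] using hl⟩
      refine ⟨Function.update f0 a l, ?_, ?_⟩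
      · intro x hx
        rw [Function.update_of_ne (by rintro rfl; exact haB hx)]
        exact hf0B x hx
      · have hmem : ∀ x ∈ A ∪ B, x ≠ a → x ∈ A.erase a ∪ B := by
          intro x hx hxa
          rcases Finset.mem_union.1 hx with hx | hx
          · exact Finset.mem_union_left _ (Finset.mem_erase.2 ⟨hxa, hx⟩)
          · exact Finset.mem_union_right _ hx
        intro x hx y hy hxy
        by_cases hxa : x = a
        · subst hxa
          have hyx : y ≠ x := hxy.ne'
          rw [Function.update_self, Function.update_of_ne hyx]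
          exact hl y (mem_nb.2 ⟨hy, hxy⟩)
        · by_cases hya : y = a
          · subst hya
            rw [Function.update_self, Function.update_of_ne hxa]
            exact F.symm _ _ _ _ (hl x (mem_nb.2 ⟨hx, hxy.symm⟩))
          · rw [Function.update_of_ne hxa, Function.update_of_ne hya]
            exact hf0 x (hmem x hx hxa) y (hmem y hy hya) hxy
    · push Not at hlow
      obtain ⟨x, hx1, hx2, hx3⟩ := exists_walk (G := G) (q := q) (M := T) hA hAB hq
        (hB A hA hAB hN) (fun a ha => hlow a ha)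
      have hinj := inj_of_noShort hG x hx2 hx3
      -- interior
      set I : Finset U := (Finset.Ioo 0 T).image x with hI
      have memI : ∀ u, u ∈ I ↔ ∃ i, (0 < i ∧ i < T) ∧ x i = u := by
        intro u
        simp [hI, and_assoc]
      have hIA : I ⊆ A := by
        intro u hu
        obtain ⟨i, hi, rfl⟩ := (memI u).1 hu
        exact (hx1 i (by omega)).1
      have hx0 : x 0 ∉ I := by
        intro h
        obtain ⟨i, hi, he⟩ := (memI _).1 h
        have := hinj i (by omega) 0 (by omega) he
        omega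
      have hxT : x T ∉ I := by
        intro h
        obtain ⟨i, hi, he⟩ := (memI _).1 h
        have := hinj i (by omega) T (by omega) he
        omega
      have hlt : (A \ I).card < A.card := by
        apply Finset.card_lt_card
        refine Finset.ssubset_iff_subset_ne.2 ⟨Finset.sdiff_subset, ?_⟩
        intro h
        have h1 : x 1 ∈ I := (memI _).2 ⟨1, by omega, rfl⟩
        have h2 : x 1 ∈ A := hIA h1
        rw [← h] at h2
        exact (Finset.mem_sdiff.1 h2).2 h1
      obtain ⟨f0, hf0B, hf0⟩ := ih (A \ I).card (by omega) (A \ I) rfl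
        (hAB.mono_left Finset.sdiff_subset) (by omega) f hf
      obtain ⟨g, hg0, hgT, hg⟩ := F.path x hx2 hx3 (f0 (x 0)) (f0 (x T))
      let f' : U → Λ := fun u => if h : ∃ i, (0 < i ∧ i < T) ∧ x i = u then g h.choose else f0 u
      have hf'x : ∀ i ≤ T, f' (x i) = g i := by
        intro i hi
        by_cases h : ∃ j, (0 < j ∧ j < T) ∧ x j = x i
        · have e1 : f' (x i) = g h.choose := by simp only [f', dif_pos h]
          have e2 : h.choose = i := hinj _ (by have := h.choose_spec; omega) i hi h.choose_spec.2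
          rw [e1, e2]
        · have e1 : f' (x i) = f0 (x i) := by simp only [f', dif_neg h]
          have : i = 0 ∨ i = T := by
            by_contra hcon
            push Not at hcon
            exact h ⟨i, by omega, rfl⟩
          rcases this with rfl | rfl
          · rw [e1, hg0]
          · rw [e1, hgT]
      have hf'n : ∀ u, u ∉ I → f' u = f0 u := by
        intro u hu
        have h : ¬ ∃ j, (0 < j ∧ j < T) ∧ x j = u := fun h => hu ((memI u).2 h)
        simp only [f', dif_neg h]
      -- constraints at interior vertices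
      have hint : ∀ u ∈ I, ∀ v ∈ A ∪ B, G.Adj u v → F.Sat u v (f' u) (f' v) := by
        intro u hu v hv huv
        obtain ⟨i, hi, rfl⟩ := (memI u).1 hu
        obtain ⟨j, rfl⟩ : ∃ j, i = j + 1 := ⟨i - 1, by omega⟩
        have hc := (hx1 (j + 1) (by omega)).2
        have m1 : x j ∈ nb G (A ∪ B) (x (j + 1)) :=
          mem_nb.2 ⟨Finset.mem_union_left _ (hx1 j (by omega)).1, (hx2 j (by omega)).symm⟩
        have m2 : x (j + 2) ∈ nb G (A ∪ B) (x (j + 1)) :=
          mem_nb.2 ⟨Finset.mem_union_left _ (hx1 (j + 2) (by omega)).1, hx2 (j + 1) (by omega)⟩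
        have hpair : nb G (A ∪ B) (x (j + 1)) = {x j, x (j + 2)} := by
          symm
          apply Finset.eq_of_subset_of_card_le
          · intro z hz
            rcases Finset.mem_insert.1 hz with rfl | hz
            · exact m1
            · rw [Finset.mem_singleton] at hz; rw [hz]; exact m2
          · rw [hc, Finset.card_pair (hx3 j (by omega))]
        have hvm : v ∈ nb G (A ∪ B) (x (j + 1)) := mem_nb.2 ⟨hv, huv⟩
        rw [hpair] at hvm
        rcases Finset.mem_insert.1 hvm with rfl | hv'
        · rw [hf'x (j + 1) (by omega), hf'x j (by omega)]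
          exact F.symm _ _ _ _ (hg j (by omega))
        · rw [Finset.mem_singleton] at hv'
          subst hv'
          rw [hf'x (j + 1) (by omega), hf'x (j + 2) (by omega)]
          exact hg (j + 1) (by omega)
      have hmem : ∀ u ∈ A ∪ B, u ∉ I → u ∈ A \ I ∪ B := by
        intro u hu hui
        rcases Finset.mem_union.1 hu with hu | hu
        · exact Finset.mem_union_left _ (Finset.mem_sdiff.2 ⟨hu, hui⟩)
        · exact Finset.mem_union_right _ hu
      refine ⟨f', ?_, ?_⟩
      · intro u hu
        have hui : u ∉ I := fun h => Finset.disjoint_left.1 hAB (hIA h) hu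
        rw [hf'n u hui]
        exact hf0B u hu
      · intro u hu v hv huv
        by_cases hui : u ∈ I
        · exact hint u hui v hv huv
        · by_cases hvi : v ∈ I
          · exact F.symm _ _ _ _ (hint v hvi u hu huv.symm)
          · rw [hf'n u hui, hf'n v hvi]
            exact hf0 u (hmem u hu hui) v (hmem v hv hvi) huv

/-- Small sets span few edges (counted as ordered pairs). -/
def Sparse (G : SimpleGraph U) (q N : ℕ) : Prop :=
  ∀ S : Finset U, S.Nonempty → S.card ≤ N → q * dd G S S < 2 * (q + 1) * S.card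

/-- Closure of a small set. -/
lemma exists_closed {G : SimpleGraph U} {q N : ℕ} (hG : Sparse G (2 * q) N) (hq : 1 ≤ q)
    (X : Finset U) (hX : X.card ≤ N) :
    ∃ B : Finset U, X ⊆ B ∧ B.card ≤ 4 * q * X.card ∧ Closed G q N B := by
  -- admissible sets
  let P : Finset (Finset U) := Finset.univ.filter
    (fun B => X ⊆ B ∧ B.card ≤ N ∧ 2 * (q + 1) * (B.card - X.card) ≤ q * dd G B B)
  have hXP : X ∈ P := by
    simp only [P, Finset.mem_filter, Finset.mem_univ, true_and]
    exact ⟨Finset.Subset.refl _, hX, by simp⟩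
  obtain ⟨B, hBP, hBmax⟩ := Finset.exists_max_image P (fun B => B.card) ⟨X, hXP⟩
  simp only [P, Finset.mem_filter, Finset.mem_univ, true_and] at hBP
  obtain ⟨hXB, hBN, hBd⟩ := hBP
  refine ⟨B, hXB, ?_, ?_⟩
  · rcases B.eq_empty_or_nonempty with rfl | hBne
    · simp
    have h1 := hG B hBne hBN
    have hle := Finset.card_le_card hXB
    -- 2 (q+1) (b - x) ≤ q D, 2 q D < 2 (2q+1) b
    set b := B.card
    set x := X.card
    set D := dd G B B
    zify [hle] at *
    have : (2:ℤ) * (2 * (q + 1) * (b - x)) < 2 * (2 * q + 1) * b := by nlinarith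
    have h2 : (2:ℤ) * b < 4 * (q + 1) * x := by nlinarith
    have h3 : (1:ℤ) ≤ q := hq
    have h4 : (0:ℤ) ≤ x := by positivity
    nlinarith
  · intro A hA hAB hN
    by_contra hcon
    push Not at hcon
    have hcard : (A ∪ B).card = A.card + B.card := Finset.card_union_of_disjoint hAB
    have hdd : dd G (A ∪ B) (A ∪ B) = dd G A A + 2 * dd G A B + dd G B B := by
      rw [dd_union_left G _ hAB, dd_union_right G _ hAB, dd_union_right G _ hAB, dd_comm G B A]
      ring
    have hmem : A ∪ B ∈ P := by
      simp only [P, Finset.mem_filter, Finset.mem_univ, true_and]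
      refine ⟨hXB.trans Finset.subset_union_right, by rw [hcard]; exact hN, ?_⟩
      rw [hcard, hdd]
      have hle := Finset.card_le_card hXB
      have e : A.card + B.card - X.card = A.card + (B.card - X.card) := by omega
      rw [e]
      calc 2 * (q + 1) * (A.card + (B.card - X.card))
          = 2 * (q + 1) * A.card + 2 * (q + 1) * (B.card - X.card) := by ring
        _ ≤ q * (dd G A A + 2 * dd G A B) + q * dd G B B := by gcongr
        _ = _ := by ring
    have := hBmax _ hmem
    simp only [hcard] at this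
    have hApos := Finset.card_pos.2 hA
    omega

/-- The strategy: labellings of small sets which extend to a closed set. -/
def Good {G : SimpleGraph U} {T : ℕ} (F : Flex G Λ T) (q N k : ℕ) (X : Finset U) (f : U → Λ) :
    Prop :=
  X.card ≤ k ∧ ∃ B : Finset U, Closed G q N B ∧ X ⊆ B ∧ B.card ≤ 4 * q * k ∧
    ∃ f' : U → Λ, SatOn F B f' ∧ ∀ x ∈ X, f x = f' x

lemma good_empty {G : SimpleGraph U} {T q N k : ℕ} (F : Flex G Λ T)
    (hS : Sparse G (2 * q) N) (hq : 1 ≤ q) (f : U → Λ) : Good F q N k ∅ f := by
  obtain ⟨B, hXB, hBc, hB⟩ := exists_closed hS hq ∅ (by simp)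
  have hB0 : B = ∅ := by
    rw [← Finset.card_eq_zero]
    simpa using hBc
  subst hB0
  refine ⟨by simp, ∅, hB, by simp, by simp, f, ?_, by simp⟩
  intro x hx
  simp at hx

lemma Good.mono {G : SimpleGraph U} {T q N k : ℕ} {F : Flex G Λ T} {X X' : Finset U}
    {f : U → Λ} (h : Good F q N k X f) (hX : X' ⊆ X) : Good F q N k X' f := by
  obtain ⟨h1, B, hB, hXB, hBc, f', hf', hff⟩ := h
  exact ⟨(Finset.card_le_card hX).trans h1, B, hB, hX.trans hXB, hBc, f', hf',
    fun x hx => hff x (hX hx)⟩

lemma Good.sat {G : SimpleGraph U} {T q N k : ℕ} {F : Flex G Λ T} {X : Finset U}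
    {f : U → Λ} (h : Good F q N k X f) : SatOn F X f := by
  obtain ⟨h1, B, hB, hXB, hBc, f', hf', hff⟩ := h
  intro x hx y hy hxy
  rw [hff x hx, hff y hy]
  exact hf' x (hXB hx) y (hXB hy) hxy

lemma Good.congr {G : SimpleGraph U} {T q N k : ℕ} {F : Flex G Λ T} {X : Finset U}
    {f g : U → Λ} (h : Good F q N k X f) (hfg : ∀ x ∈ X, g x = f x) : Good F q N k X g := by
  obtain ⟨h1, B, hB, hXB, hBc, f', hf', hff⟩ := h
  exact ⟨h1, B, hB, hXB, hBc, f', hf', fun x hx => (hfg x hx).trans (hff x hx)⟩

lemma Good.forth {G : SimpleGraph U} {T q N k : ℕ} {F : Flex G Λ T} (hT : 2 ≤ T)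
    (hG : NoShort G T) (hq : 3 * T + 2 ≤ q) (hS : Sparse G (2 * q) N) (hk : 8 * q * k ≤ N)
    {X : Finset U} {f : U → Λ} (h : Good F q N k X f) (hX : X.card < k) (u : U) :
    ∃ g : U → Λ, (∀ x ∈ X, g x = f x) ∧ Good F q N k (insert u X) g := by
  have hq1 : 1 ≤ q := by omega
  obtain ⟨h1, B, hB, hXB, hBc, f', hf', hff⟩ := h
  have hcard : (insert u X).card ≤ k := (Finset.card_insert_le _ _).trans hX
  have hkN : k ≤ N := by
    have : 1 * k ≤ 8 * q * k := Nat.mul_le_mul_right _ (by omega)
    omega
  obtain ⟨B', hXB', hBc', hB'⟩ := exists_closed hS hq1 (insert u X) (hcard.trans hkN)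
  have hBc'' : B'.card ≤ 4 * q * k := hBc'.trans (Nat.mul_le_mul_left _ hcard)
  have hdis : Disjoint (B' \ B) B := Finset.sdiff_disjoint
  have hsum : (B' \ B).card + B.card ≤ N := by
    have : (B' \ B).card ≤ B'.card := Finset.card_le_card Finset.sdiff_subset
    have h8 : 4 * q * k + 4 * q * k = 8 * q * k := by ring
    omega
  obtain ⟨g, hg1, hg2⟩ := extend F hT hG hq hB _ (B' \ B) rfl hdis hsum f' hf'
  refine ⟨g, ?_, hcard, B', hB', hXB', hBc'', g, ?_, fun _ _ => rfl⟩
  · intro x hx
    rw [hg1 x (hXB hx), hff x hx]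
  · apply hg2.mono
    intro z hz
    by_cases hzB : z ∈ B
    · exact Finset.mem_union_right _ hzB
    · exact Finset.mem_union_left _ (Finset.mem_sdiff.2 ⟨hz, hzB⟩)

end

end Pool.H17.LC
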