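import Pool.Agent.H17.LC2

/-!
Labels in `ZMod p`, shifted along the edges: walks of length `2 p + 1` are unconstrained
(Cauchy-Davenport).
-/

namespace Pool.H17.LC

open Finset
open scoped Classical Pointwise

set_option linter.unusedSectionVars false

noncomputable section

variable {V W : Type*} {p d : ℕ}

/-- The bipartite graph with edge relation `E`. -/
def bip (E : V → W → Prop) : SimpleGraph (V ⊕ W) where
  Adj x y := (∃ v w, x = Sum.inl v ∧ y = Sum.inr w ∧ E v w) ∨
    (∃ v w, x = Sum.inr w ∧ y = Sum.inl v ∧ E v w)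
  symm := ⟨by
    rintro x y (⟨v, w, h1, h2, h3⟩ | ⟨v, w, h1, h2, h3⟩)
    · exact Or.inr ⟨v, w, h2, h1, h3⟩
    · exact Or.inl ⟨v, w, h2, h1, h3⟩⟩
  loopless := ⟨by
    rintro x (⟨v, w, h1, h2, h3⟩ | ⟨v, w, h1, h2, h3⟩)
    · rw [h1] at h2; exact Sum.inl_ne_inr h2
    · rw [h1] at h2; exact Sum.inr_ne_inl h2⟩

lemma bip_lr {E : V → W → Prop} {v : V} {w : W} :
    (bip E).Adj (Sum.inl v) (Sum.inr w) ↔ E v w := by
  simp [bip]

lemma bip_rl {E : V → W → Prop} {v : V} {w : W} :
    (bip E).Adj (Sum.inr w) (Sum.inl v) ↔ E v w := by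
  simp [bip]

/-- Constraint between labels in `ZMod p × Fin d`; a left vertex only uses the first coordinate. -/
def satB (a : V → W → Fin d → ZMod p) : V ⊕ W → V ⊕ W → ZMod p × Fin d → ZMod p × Fin d → Prop
  | Sum.inl v, Sum.inr w, y, x => y.1 = x.1 + a v w x.2
  | Sum.inr w, Sum.inl v, x, y => y.1 = x.1 + a v w x.2
  | _, _, _, _ => True

lemma reach [Fact p.Prime] (i0 : Fin d) (a : V → W → Fin d → ZMod p) (v : ℕ → V) (w : ℕ → W)
    (L : ℕ)
    (h : ∀ j < L, ∃ i i', a (v (j + 1)) (w j) i - a (v j) (w j) i ≠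
      a (v (j + 1)) (w j) i' - a (v j) (w j) i') (y0 : ZMod p) :
    ∀ j ≤ L, ∃ R : Finset (ZMod p), min p (j + 1) ≤ R.card ∧ ∀ b ∈ R,
      ∃ (y : ℕ → ZMod p) (z : ℕ → ZMod p × Fin d), y 0 = y0 ∧ y j = b ∧
        ∀ i < j, y i = (z i).1 + a (v i) (w i) (z i).2 ∧
          y (i + 1) = (z i).1 + a (v (i + 1)) (w i) (z i).2 := by
  intro j
  induction j with
  | zero =>
    intro _
    refine ⟨{y0}, by simp, ?_⟩
    intro b hb
    rw [Finset.mem_singleton] at hb
    subst hb
    exact ⟨fun _ => b, fun _ => (0, i0), rfl, rfl, by simp⟩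
  | succ j ih =>
    intro hj
    obtain ⟨R, hR, hR2⟩ := ih (by omega)
    obtain ⟨i1, i2, hne⟩ := h j (by omega)
    set δ : Fin d → ZMod p := fun i => a (v (j + 1)) (w j) i - a (v j) (w j) i with hδ
    have hRne : R.Nonempty := by
      rw [← Finset.card_pos]
      have := (Fact.out : p.Prime).pos
      omega
    have hcard2 : 2 ≤ (Finset.univ.image δ).card := by
      have : ({δ i1, δ i2} : Finset (ZMod p)) ⊆ Finset.univ.image δ := by
        intro t ht
        rcases Finset.mem_insert.1 ht with rfl | ht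
        · exact Finset.mem_image_of_mem _ (Finset.mem_univ _)
        · rw [Finset.mem_singleton] at ht; subst ht
          exact Finset.mem_image_of_mem _ (Finset.mem_univ _)
      calc 2 = ({δ i1, δ i2} : Finset (ZMod p)).card := (Finset.card_pair hne).symm
        _ ≤ _ := Finset.card_le_card this
    refine ⟨R + Finset.univ.image δ, ?_, ?_⟩
    · have hcd := ZMod.cauchy_davenport (Fact.out : p.Prime) hRne
        (t := Finset.univ.image δ) (by rw [← Finset.card_pos]; omega)
      refine le_trans ?_ hcd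
      apply le_min
      · exact min_le_left _ _
      · have h1 := hR
        rcases min_cases p (j + 1) with h2 | h2 <;> rcases min_cases p (j + 1 + 1) with h3 | h3 <;>
          omega
    · intro b hb
      obtain ⟨b', hb', t, ht, rfl⟩ := Finset.mem_add.1 hb
      obtain ⟨i, -, rfl⟩ := Finset.mem_image.1 ht
      obtain ⟨y, z, hy0, hyj, hyz⟩ := hR2 b' hb'
      refine ⟨Function.update y (j + 1) (b' + δ i),
        Function.update z j (b' - a (v j) (w j) i, i), ?_, ?_, ?_⟩
      · rw [Function.update_of_ne (by omega)]; exact hy0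
      · rw [Function.update_self]
      · intro k hk
        rcases Nat.lt_or_ge k j with hkj | hkj
        · rw [Function.update_of_ne (by omega), Function.update_of_ne (by omega),
            Function.update_of_ne (by omega)]
          exact hyz k hkj
        · have : k = j := by omega
          subst this
          rw [Function.update_of_ne (by omega), Function.update_self, Function.update_self, hyj]
          simp only [hδ]
          constructor <;> ring

/-- Walks starting on the left. -/
lemma path_left [Fact p.Prime] (i0 : Fin d) (E : V → W → Prop) (a : V → W → Fin d → ZMod p)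
    (hcl : ∀ v v' w, v ≠ v' → E v w → E v' w → ∃ i i', a v' w i - a v w i ≠ a v' w i' - a v w i')
    (x : ℕ → V ⊕ W) (hx0 : ∃ v, x 0 = Sum.inl v)
    (hx1 : ∀ i < 2 * p + 1, (bip E).Adj (x i) (x (i + 1)))
    (hx2 : ∀ i, i + 2 ≤ 2 * p + 1 → x i ≠ x (i + 2)) (α β : ZMod p × Fin d) :
    ∃ f : ℕ → ZMod p × Fin d, f 0 = α ∧ f (2 * p + 1) = β ∧
      ∀ i < 2 * p + 1, satB a (x i) (x (i + 1)) (f i) (f (i + 1)) := by
  have hrl : ∀ i v, x i = Sum.inl v → i < 2 * p + 1 → ∃ w, x (i + 1) = Sum.inr w ∧ E v w := by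
    intro i v hi hlt
    rcases hx1 i hlt with ⟨v', w', h1, h2, h3⟩ | ⟨v', w', h1, h2, h3⟩
    · rw [hi] at h1
      obtain rfl := Sum.inl_injective h1
      exact ⟨w', h2, h3⟩
    · rw [hi] at h1
      exact absurd h1 Sum.inl_ne_inr
  have hlr : ∀ i w, x i = Sum.inr w → i < 2 * p + 1 → ∃ v, x (i + 1) = Sum.inl v ∧ E v w := by
    intro i w hi hlt
    rcases hx1 i hlt with ⟨v', w', h1, h2, h3⟩ | ⟨v', w', h1, h2, h3⟩
    · rw [hi] at h1
      exact absurd h1 Sum.inr_ne_inl
    · rw [hi] at h1
      obtain rfl := Sum.inr_injective h1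
      exact ⟨v', h2, h3⟩
  have hboth : ∀ i ≤ p, ∃ v w, x (2 * i) = Sum.inl v ∧ x (2 * i + 1) = Sum.inr w ∧ E v w := by
    intro i
    induction i with
    | zero =>
      intro _
      obtain ⟨v, hv⟩ := hx0
      obtain ⟨w, hw, hE⟩ := hrl 0 v hv (by omega)
      exact ⟨v, w, hv, hw, hE⟩
    | succ i ih =>
      intro hi
      obtain ⟨v, w, h1, h2, h3⟩ := ih (by omega)
      obtain ⟨v', h4, h5⟩ := hlr (2 * i + 1) w h2 (by omega)
      obtain ⟨w', h6, h7⟩ := hrl (2 * i + 1 + 1) v' h4 (by omega)
      exact ⟨v', w', h4, h6, h7⟩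
  obtain ⟨v00, w00, -, -, -⟩ := hboth 0 (by omega)
  haveI : Nonempty V := ⟨v00⟩
  haveI : Nonempty W := ⟨w00⟩
  choose! v w hv hw hE using hboth
  have hE' : ∀ i < p, E (v (i + 1)) (w i) := by
    intro i hi
    obtain ⟨v', h4, h5⟩ := hlr (2 * i + 1) (w i) (hw i hi.le) (by omega)
    have h6 := hv (i + 1) (by omega)
    have : 2 * (i + 1) = 2 * i + 1 + 1 := by ring
    rw [this, h4] at h6
    rw [← Sum.inl_injective h6]
    exact h5
  have hne : ∀ i < p, v i ≠ v (i + 1) := by
    intro i hi he
    apply hx2 (2 * i) (by omega)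
    have h6 := hv (i + 1) (by omega)
    have : 2 * (i + 1) = 2 * i + 2 := by ring
    rw [this] at h6
    rw [hv i hi.le, h6, he]
  obtain ⟨R, hR, hR2⟩ := reach i0 a v w p
    (fun j hj => hcl _ _ _ (hne j hj) (hE j hj.le) (hE' j hj)) α.1 p le_rfl
  have hRuniv : R = Finset.univ := by
    rw [← Finset.card_eq_iff_eq_univ, ZMod.card]
    apply le_antisymm
    · have := Finset.card_le_univ R
      rwa [ZMod.card] at this
    · have : min p (p + 1) = p := min_eq_left (by omega)
      omega
  obtain ⟨y, z, hy0, hyp, hyz⟩ := hR2 (β.1 + a (v p) (w p) β.2) (by rw [hRuniv]; simp)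
  -- the labelling
  let f : ℕ → ZMod p × Fin d := fun t =>
    if t = 0 then α else if t = 2 * p + 1 then β else
      if t % 2 = 0 then (y (t / 2), i0) else z (t / 2)
  have f0 : f 0 = α := by simp [f]
  have fT : f (2 * p + 1) = β := by simp [f]
  have fe : ∀ i ≤ p, (f (2 * i)).1 = y i := by
    intro i hi
    rcases Nat.eq_zero_or_pos i with rfl | hi0
    · simp only [mul_zero, f0, hy0]
    · have h1 : f (2 * i) = (y (2 * i / 2), i0) := by
        have a1 : ¬ (2 * i = 0) := by omega
        have a2 : ¬ (2 * i = 2 * p + 1) := by omega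
        have a3 : 2 * i % 2 = 0 := by omega
        simp only [f, if_neg a1, if_neg a2, if_pos a3]
      rw [h1]
      have : 2 * i / 2 = i := by omega
      rw [this]
  have fo : ∀ i < p, f (2 * i + 1) = z i := by
    intro i hi
    have a1 : ¬ (2 * i + 1 = 0) := by omega
    have a2 : ¬ (2 * i + 1 = 2 * p + 1) := by omega
    have a3 : ¬ ((2 * i + 1) % 2 = 0) := by omega
    have a4 : (2 * i + 1) / 2 = i := by omega
    simp only [f, if_neg a1, if_neg a2, if_neg a3, a4]
  refine ⟨f, f0, fT, ?_⟩
  intro t ht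
  obtain ⟨i, hi | hi⟩ : ∃ i, t = 2 * i ∨ t = 2 * i + 1 := ⟨t / 2, by omega⟩
  · subst hi
    have hip : i ≤ p := by omega
    rw [hv i hip, hw i hip]
    show (f (2 * i)).1 = (f (2 * i + 1)).1 + a (v i) (w i) (f (2 * i + 1)).2
    rw [fe i hip]
    rcases Nat.lt_or_ge i p with h | h
    · rw [fo i h]
      exact (hyz i h).1
    · have : i = p := by omega
      subst this
      rw [fT, hyp]
  · subst hi
    have hip : i < p := by omega
    have e : 2 * i + 1 + 1 = 2 * (i + 1) := by ring
    rw [e, hw i hip.le, hv (i + 1) (by omega)]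
    show (f (2 * (i + 1))).1 = (f (2 * i + 1)).1 + a (v (i + 1)) (w i) (f (2 * i + 1)).2
    rw [fe (i + 1) (by omega), fo i hip]
    exact (hyz i hip).2

lemma satB_symm (a : V → W → Fin d → ZMod p) (x y : V ⊕ W) (α β : ZMod p × Fin d)
    (h : satB a x y α β) : satB a y x β α := by
  rcases x with v | w <;> rcases y with v' | w' <;> simpa [satB] using h

/-- The flexible system. -/
def flexB [Fact p.Prime] (i0 : Fin d) (E : V → W → Prop) (a : V → W → Fin d → ZMod p)
    (hcl : ∀ v v' w, v ≠ v' → E v w → E v' w →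
      ∃ i i', a v' w i - a v w i ≠ a v' w i' - a v w i') :
    Flex (bip E) (ZMod p × Fin d) (2 * p + 1) where
  Sat := satB a
  symm := satB_symm a
  one := by
    intro x y hxy b
    rcases x with v | w <;> rcases y with v' | w'
    · exact ⟨b, trivial⟩
    · exact ⟨(b.1 + a v w' b.2, i0), rfl⟩
    · exact ⟨(b.1 - a v' w i0, i0), by simp [satB]⟩
    · exact ⟨b, trivial⟩
  path := by
    intro x hx1 hx2 α β
    rcases hx0 : x 0 with v | w
    · exact path_left i0 E a hcl x ⟨v, hx0⟩ hx1 hx2 α β
    · -- reverse the walk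
      have hpar : ∀ i ≤ 2 * p + 1, (i % 2 = 0 → ∃ w, x i = Sum.inr w) ∧
          (i % 2 = 1 → ∃ v, x i = Sum.inl v) := by
        intro i
        induction i with
        | zero =>
          intro _
          exact ⟨fun _ => ⟨w, hx0⟩, fun h => by simp at h⟩
        | succ i ih =>
          intro hi
          obtain ⟨h1, h2⟩ := ih (by omega)
          have hadj := hx1 i (by omega)
          constructor
          · intro h
            obtain ⟨v, hv⟩ := h2 (by omega)
            rcases hadj with ⟨v', w', h3, h4, h5⟩ | ⟨v', w', h3, h4, h5⟩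
            · exact ⟨w', h4⟩
            · rw [hv] at h3; exact absurd h3 Sum.inl_ne_inr
          · intro h
            obtain ⟨v, hv⟩ := h1 (by omega)
            rcases hadj with ⟨v', w', h3, h4, h5⟩ | ⟨v', w', h3, h4, h5⟩
            · rw [hv] at h3; exact absurd h3 Sum.inr_ne_inl
            · exact ⟨v', h4⟩
      obtain ⟨f, hf0, hfT, hf⟩ := path_left i0 E a hcl (fun i => x (2 * p + 1 - i))
        (by
          obtain ⟨v, hv⟩ := (hpar (2 * p + 1) le_rfl).2 (by omega)
          exact ⟨v, by simpa using hv⟩)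
        (by
          intro i hi
          have h := (hx1 (2 * p + 1 - (i + 1)) (by omega)).symm
          have e : 2 * p + 1 - (i + 1) + 1 = 2 * p + 1 - i := by omega
          rw [e] at h
          exact h)
        (by
          intro i hi
          have h := (hx2 (2 * p + 1 - (i + 2)) (by omega)).symm
          have e : 2 * p + 1 - (i + 2) + 2 = 2 * p + 1 - i := by omega
          rw [e] at h
          exact h) β α
      refine ⟨fun i => f (2 * p + 1 - i), by simpa using hfT, by simpa using hf0, ?_⟩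
      intro i hi
      have h := satB_symm _ _ _ _ _ (hf (2 * p + 1 - (i + 1)) (by omega))
      have e : 2 * p + 1 - (i + 1) + 1 = 2 * p + 1 - i := by omega
      have e2 : 2 * p + 1 - (2 * p + 1 - (i + 1)) = i + 1 := by omega
      have e3 : 2 * p + 1 - (2 * p + 1 - i) = i := by omega
      simp only [e, e2, e3] at h
      exact h

end

end Pool.H17.LC
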