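import Mathlib

/-!
Counting lemmas for finite product spaces.
-/

namespace Pool.H17.LC

open Finset
open scoped Classical

set_option linter.unusedSectionVars false
set_option linter.unusedFintypeInType false

noncomputable section

/-- Uniform probability of a predicate on a finite type. -/
def pr {Ω : Type*} [Fintype Ω] (P : Ω → Prop) : ℝ :=
  ((Finset.univ.filter P).card : ℝ) / (Fintype.card Ω : ℝ)

section basic

variable {Ω : Type*} [Fintype Ω]

lemma pr_def (P : Ω → Prop) [DecidablePred P] :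
    pr P = ((Finset.univ.filter P).card : ℝ) / (Fintype.card Ω : ℝ) := by
  unfold pr
  congr!

lemma pr_nonneg (P : Ω → Prop) : 0 ≤ pr P := by unfold pr; positivity

lemma pr_mono {P Q : Ω → Prop} (h : ∀ ω, P ω → Q ω) : pr P ≤ pr Q := by
  unfold pr
  gcongr
  intro hp
  exact h _ hp

lemma pr_exists_le {κ : Type*} (s : Finset κ) (P : κ → Ω → Prop) :
    pr (fun ω => ∃ k ∈ s, P k ω) ≤ ∑ k ∈ s, pr (P k) := by
  rw [pr_def]
  simp only [pr_def]
  rw [← Finset.sum_div]
  gcongr
  rw [← Nat.cast_sum]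
  norm_cast
  calc (Finset.univ.filter (fun ω => ∃ k ∈ s, P k ω)).card
      ≤ (s.biUnion (fun k => Finset.univ.filter (P k))).card := by
        apply Finset.card_le_card
        intro ω hω
        obtain ⟨k, hk, hP⟩ := (Finset.mem_filter.1 hω).2
        exact Finset.mem_biUnion.2 ⟨k, hk, Finset.mem_filter.2 ⟨Finset.mem_univ _, hP⟩⟩
    _ ≤ _ := Finset.card_biUnion_le

/-- Average number of configurations. -/
lemma sum_card_filter {κ : Type*} (s : Finset κ) (P : κ → Ω → Prop)
    [∀ ω, DecidablePred (fun k => P k ω)] :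
    (∑ ω : Ω, ((s.filter (fun k => P k ω)).card : ℝ)) =
      (∑ k ∈ s, pr (P k)) * (Fintype.card Ω : ℝ) := by
  rcases isEmpty_or_nonempty Ω with h | h
  · simp
  have hne : (Fintype.card Ω : ℝ) ≠ 0 := by
    have := Fintype.card_pos (α := Ω)
    positivity
  unfold pr
  rw [← Finset.sum_div, div_mul_cancel₀ _ hne]
  simp only [Finset.card_filter, Nat.cast_sum]
  rw [Finset.sum_comm]
  refine Finset.sum_congr rfl fun k _ => Finset.sum_congr rfl fun ω _ => ?_
  congr!

end basic

section product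

variable {ι κ X : Type*} [Fintype ι] [Fintype κ] [Fintype X] [DecidableEq ι] [DecidableEq κ]

lemma card_fiber (e : κ → ι) (he : Function.Injective e) (τ : κ → X) :
    (Finset.univ.filter (fun ω : ι → X => (fun t => ω (e t)) = τ)).card *
      Fintype.card X ^ Fintype.card κ = Fintype.card X ^ Fintype.card ι := by
  have h1 : Finset.univ.filter (fun ω : ι → X => (fun t => ω (e t)) = τ) =
      Fintype.piFinset (fun j : ι => if h : ∃ t, e t = j then {τ h.choose} else
        (Finset.univ : Finset X)) := by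
    ext ω
    simp only [Finset.mem_filter, Finset.mem_univ, true_and, Fintype.mem_piFinset]
    constructor
    · intro h j
      by_cases hj : ∃ t, e t = j
      · rw [dif_pos hj, Finset.mem_singleton, ← congrFun h hj.choose, hj.choose_spec]
      · rw [dif_neg hj]; exact Finset.mem_univ _
    · intro h
      funext t
      have hj : ∃ t', e t' = e t := ⟨t, rfl⟩
      have := h (e t)
      rw [dif_pos hj, Finset.mem_singleton] at this
      rw [this]
      exact congrArg τ (he hj.choose_spec)
  rw [h1, Fintype.card_piFinset]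
  have h2 : ∀ j : ι, (if h : ∃ t, e t = j then ({τ h.choose} : Finset X) else
      (Finset.univ : Finset X)).card = if j ∈ Finset.univ.image e then 1 else Fintype.card X := by
    intro j
    by_cases hj : ∃ t, e t = j
    · rw [dif_pos hj, if_pos (by simpa using hj), Finset.card_singleton]
    · rw [dif_neg hj, if_neg (by simpa using hj), Finset.card_univ]
  rw [Finset.prod_congr rfl (fun j _ => h2 j), Finset.prod_ite]
  simp only [Finset.prod_const_one, one_mul, Finset.prod_const]
  have h3 : (Finset.univ.filter (fun j => j ∉ Finset.univ.image e)).card + Fintype.card κ =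
      Fintype.card ι := by
    have h4 : (Finset.univ.image e).card = Fintype.card κ := by
      rw [Finset.card_image_of_injective _ he, Finset.card_univ]
    have h5 : Finset.univ.filter (fun j => j ∉ Finset.univ.image e) =
        (Finset.univ.image e)ᶜ := by
      ext j; simp
    rw [h5, ← h4, Finset.card_compl_add_card]
  rw [← pow_add, h3]

lemma pr_comp [Nonempty X] (e : κ → ι) (he : Function.Injective e) (T : Finset (κ → X)) :
    pr (fun ω : ι → X => (fun t => ω (e t)) ∈ T) =
      (T.card : ℝ) / (Fintype.card X : ℝ) ^ Fintype.card κ := by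
  have hX : (Fintype.card X : ℝ) ≠ 0 := by
    have := Fintype.card_pos (α := X)
    positivity
  rw [pr_def]
  rw [Fintype.card_pi, Finset.prod_const, Finset.card_univ, Nat.cast_pow]
  rw [div_eq_div_iff (pow_ne_zero _ hX) (pow_ne_zero _ hX)]
  have h1 : Finset.univ.filter (fun ω : ι → X => (fun t => ω (e t)) ∈ T) =
      T.biUnion (fun τ => Finset.univ.filter (fun ω : ι → X => (fun t => ω (e t)) = τ)) := by
    ext ω
    simp
  have h2 : (Finset.univ.filter (fun ω : ι → X => (fun t => ω (e t)) ∈ T)).card *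
      Fintype.card X ^ Fintype.card κ = T.card * Fintype.card X ^ Fintype.card ι := by
    rw [h1, Finset.card_biUnion, Finset.sum_mul, Finset.sum_congr rfl
      (fun τ _ => card_fiber e he τ), Finset.sum_const, smul_eq_mul]
    intro τ _ τ' _ hne
    rw [Function.onFun, Finset.disjoint_left]
    intro ω h h'
    apply hne
    rw [← (Finset.mem_filter.1 h).2, ← (Finset.mem_filter.1 h').2]
  exact_mod_cast h2

lemma pr_all_le [Nonempty X] (e : κ → ι) (he : Function.Injective e) (T : κ → Finset X) (b : ℝ)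
    (hb : ∀ t, ((T t).card : ℝ) ≤ b * Fintype.card X) :
    pr (fun ω : ι → X => ∀ t, ω (e t) ∈ T t) ≤ b ^ Fintype.card κ := by
  have hX : (0:ℝ) < (Fintype.card X : ℝ) := by
    have := Fintype.card_pos (α := X)
    positivity
  have h := pr_comp (X := X) e he (Fintype.piFinset T)
  simp only [Fintype.mem_piFinset] at h
  rw [h, Fintype.card_piFinset, Nat.cast_prod, div_le_iff₀ (by positivity), ← mul_pow]
  calc ∏ i, ((T i).card : ℝ) ≤ ∏ _i : κ, b * (Fintype.card X : ℝ) :=
        Finset.prod_le_prod (fun _ _ => by positivity) (fun t _ => hb t)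
    _ = _ := by rw [Finset.prod_const, Finset.card_univ]

lemma pr_all_le' [Nonempty X] (K : Finset ι) (T : Finset X) (b : ℝ)
    (hb : (T.card : ℝ) ≤ b * Fintype.card X) :
    pr (fun ω : ι → X => ∀ i ∈ K, ω i ∈ T) ≤ b ^ K.card := by
  have h := pr_all_le (X := X) (fun k : K => (k : ι)) Subtype.val_injective (fun _ => T) b
    (fun _ => hb)
  rw [Fintype.card_coe] at h
  refine le_trans (pr_mono ?_) h
  intro ω hω t
  exact hω t.1 t.2

end product

/-- `C(N,k) k^k ≤ (3N)^k`. -/
lemma choose_mul_pow_le (N k : ℕ) : ((N.choose k : ℕ) : ℝ) * (k : ℝ) ^ k ≤ (3 * N : ℝ) ^ k := by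
  have h1 : ((N.choose k : ℕ) : ℝ) ≤ (N : ℝ) ^ k / (Nat.factorial k : ℝ) :=
    Nat.choose_le_pow_div k N
  have h2 : (k : ℝ) ^ k / (Nat.factorial k : ℝ) ≤ Real.exp k :=
    Real.pow_div_factorial_le_exp _ (Nat.cast_nonneg k) k
  have h3 : Real.exp k ≤ 3 ^ k := by
    have : Real.exp k = Real.exp 1 ^ k := by
      rw [← Real.exp_nat_mul, mul_one]
    rw [this]
    exact pow_le_pow_left₀ (Real.exp_pos _).le Real.exp_one_lt_three.le k
  have hf : (0:ℝ) < (Nat.factorial k : ℝ) := by positivity
  calc ((N.choose k : ℕ) : ℝ) * (k : ℝ) ^ k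
      ≤ (N : ℝ) ^ k / (Nat.factorial k : ℝ) * (k : ℝ) ^ k := by gcongr
    _ = (N : ℝ) ^ k * ((k : ℝ) ^ k / (Nat.factorial k : ℝ)) := by ring
    _ ≤ (N : ℝ) ^ k * 3 ^ k := by
        apply mul_le_mul_of_nonneg_left (h2.trans h3) (by positivity)
    _ = _ := by rw [mul_pow]; ring

/-- Averaging. -/
lemma exists_good {Ω : Type*} [Fintype Ω] [Nonempty Ω] (A : Ω → Prop) (Z : Ω → ℝ) (c : ℝ)
    (hc : 0 < c)
    (hA : pr (fun ω => ¬ A ω) ≤ 1 / 4) (hZ0 : ∀ ω, 0 ≤ Z ω)
    (hZ : ∑ ω, Z ω ≤ c / 2 * Fintype.card Ω) : ∃ ω, A ω ∧ Z ω ≤ c := by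
  by_contra hcon
  push Not at hcon
  have hΩ : (0:ℝ) < Fintype.card Ω := by
    have := Fintype.card_pos (α := Ω)
    positivity
  have h1 : ((Finset.univ.filter (fun ω => ¬ A ω)).card : ℝ) ≤ 1 / 4 * Fintype.card Ω := by
    rw [pr_def] at hA
    rwa [div_le_iff₀ hΩ] at hA
  have h2 : ((Finset.univ.filter A).card : ℝ) + ((Finset.univ.filter (fun ω => ¬ A ω)).card : ℝ) =
      Fintype.card Ω := by
    rw [← Nat.cast_add, Finset.card_filter_add_card_filter_not, Finset.card_univ]
  have h3 : ((Finset.univ.filter A).card : ℝ) * c ≤ ∑ ω, Z ω := by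
    calc ((Finset.univ.filter A).card : ℝ) * c = ∑ _ω ∈ Finset.univ.filter A, c := by
          rw [Finset.sum_const, nsmul_eq_mul]
      _ ≤ ∑ ω ∈ Finset.univ.filter A, Z ω :=
          Finset.sum_le_sum fun ω hω => (hcon ω (Finset.mem_filter.1 hω).2).le
      _ ≤ ∑ ω, Z ω := Finset.sum_le_sum_of_subset_of_nonneg (Finset.filter_subset _ _)
          (fun ω _ _ => hZ0 ω)
  have h4 : 3 / 4 * (Fintype.card Ω : ℝ) ≤ ((Finset.univ.filter A).card : ℝ) := by linarith
  have h5 : 3 / 4 * (Fintype.card Ω : ℝ) * c ≤ c / 2 * Fintype.card Ω :=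
    (mul_le_mul_of_nonneg_right h4 hc.le).trans (h3.trans hZ)
  nlinarith [mul_pos hc hΩ]

end

end Pool.H17.LC
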