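import Pool.Agent.H17.LC4

/-!
Existence of a good random bipartite multigraph with random edge maps.
-/

namespace Pool.H17.LC

open Finset
open scoped Classical

set_option linter.unusedSectionVars false
set_option linter.unusedFintypeInType false

noncomputable section

variable {Y Λl Λr : Type} [Fintype Y] [Fintype Λl] [Fintype Λr] {n : ℕ}

/-- An index `x` joins the vertices `u` and `u'`. -/
def joins (x : Fin n × Fin n × Y) (u u' : Fin n ⊕ Fin n) : Prop :=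
  (u = Sum.inl x.1 ∧ u' = Sum.inr x.2.1) ∨ (u = Sum.inr x.2.1 ∧ u' = Sum.inl x.1)

/-- Both endpoints lie in `S`. -/
def inside (x : Fin n × Fin n × Y) (S : Finset (Fin n ⊕ Fin n)) : Prop :=
  Sum.inl x.1 ∈ S ∧ Sum.inr x.2.1 ∈ S

lemma card_X : (Fintype.card (Fin n × Fin n × Y) : ℝ) = (n:ℝ) ^ 2 * Fintype.card Y := by
  simp only [Fintype.card_prod, Fintype.card_fin, Nat.cast_mul]
  ring

lemma card_sat_le (π : Y → Λr → Λl) (p : ℕ) (hp : 0 < p)
    (hsat : ∀ b c, (Finset.univ.filter (fun y => π y b = c)).card * p ≤ Fintype.card Y)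
    (f : Fin n → Λl) (g : Fin n → Λr) :
    ((Finset.univ.filter (fun x : Fin n × Fin n × Y => π x.2.2 (g x.2.1) = f x.1)).card : ℝ) ≤
      (1 / p : ℝ) * Fintype.card (Fin n × Fin n × Y) := by
  have hp' : (0:ℝ) < p := by exact_mod_cast hp
  have h1 : ((Finset.univ.filter (fun x : Fin n × Fin n × Y => π x.2.2 (g x.2.1) = f x.1)).card
      : ℝ) = ∑ v : Fin n, ∑ w : Fin n,
        ((Finset.univ.filter (fun y => π y (g w) = f v)).card : ℝ) := by
    simp only [Finset.card_filter, Nat.cast_sum]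
    rw [Fintype.sum_prod_type]
    refine Finset.sum_congr rfl fun v _ => ?_
    rw [Fintype.sum_prod_type]
  rw [h1, card_X]
  calc ∑ v : Fin n, ∑ w : Fin n, ((Finset.univ.filter (fun y => π y (g w) = f v)).card : ℝ)
      ≤ ∑ _v : Fin n, ∑ _w : Fin n, (Fintype.card Y : ℝ) / p := by
        refine Finset.sum_le_sum fun v _ => Finset.sum_le_sum fun w _ => ?_
        rw [le_div_iff₀ hp']
        exact_mod_cast hsat (g w) (f v)
    _ = _ := by
        simp only [Finset.sum_const, Finset.card_univ, Fintype.card_fin, nsmul_eq_mul]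
        ring

lemma card_inside_le (S : Finset (Fin n ⊕ Fin n)) (hn : 0 < n) :
    ((Finset.univ.filter (fun x : Fin n × Fin n × Y => inside x S)).card : ℝ) ≤
      ((S.card : ℝ) ^ 2 / (n:ℝ) ^ 2) * Fintype.card (Fin n × Fin n × Y) := by
  have hn' : (0:ℝ) < n := by exact_mod_cast hn
  have h1 : (Finset.univ.filter (fun x : Fin n × Fin n × Y => inside x S)).card ≤
      (S ×ˢ S ×ˢ (Finset.univ : Finset Y)).card := by
    refine Finset.card_le_card_of_injOn
      (fun x => ((Sum.inl x.1 : Fin n ⊕ Fin n), (Sum.inr x.2.1 : Fin n ⊕ Fin n), x.2.2)) ?_ ?_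
    · intro x hx
      have hx' := (Finset.mem_filter.1 (Finset.mem_coe.1 hx)).2
      exact Finset.mem_coe.2 (Finset.mem_product.2 ⟨hx'.1,
        Finset.mem_product.2 ⟨hx'.2, Finset.mem_univ _⟩⟩)
    · rintro ⟨v, w, y⟩ _ ⟨v', w', y'⟩ _ h
      simp only [Prod.mk.injEq, Sum.inl.injEq, Sum.inr.injEq] at h
      obtain ⟨rfl, rfl, rfl⟩ := h
      rfl
  rw [Finset.card_product, Finset.card_product, Finset.card_univ] at h1
  rw [card_X]
  have e : ((S.card : ℝ) ^ 2 / (n:ℝ) ^ 2) * ((n:ℝ) ^ 2 * Fintype.card Y) =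
      (S.card : ℝ) ^ 2 * Fintype.card Y := by
    field_simp
  rw [e]
  calc ((Finset.univ.filter (fun x : Fin n × Fin n × Y => inside x S)).card : ℝ)
      ≤ ((S.card * (S.card * Fintype.card Y) : ℕ) : ℝ) := by exact_mod_cast h1
    _ = _ := by push_cast; ring

lemma card_joins_le (u u' : Fin n ⊕ Fin n) (hn : 0 < n) :
    ((Finset.univ.filter (fun x : Fin n × Fin n × Y => joins x u u')).card : ℝ) ≤
      (1 / (n:ℝ) ^ 2) * Fintype.card (Fin n × Fin n × Y) := by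
  have hn' : (0:ℝ) < n := by exact_mod_cast hn
  have h1 : (Finset.univ.filter (fun x : Fin n × Fin n × Y => joins x u u')).card ≤
      (Finset.univ : Finset Y).card := by
    refine Finset.card_le_card_of_injOn (fun x => x.2.2) (fun _ _ => Finset.mem_coe.2
      (Finset.mem_univ _)) ?_
    rintro ⟨v, w, y⟩ hx ⟨v', w', y'⟩ hx' h
    have h1 := (Finset.mem_filter.1 (Finset.mem_coe.1 hx)).2
    have h2 := (Finset.mem_filter.1 (Finset.mem_coe.1 hx')).2
    simp only [joins] at h1 h2 h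
    subst h
    rcases h1 with ⟨a, b⟩ | ⟨a, b⟩ <;> rcases h2 with ⟨a', b'⟩ | ⟨a', b'⟩
    · rw [a] at a'; rw [b] at b'
      rw [Sum.inl_injective a', Sum.inr_injective b']
    · rw [a] at a'; exact absurd a' Sum.inl_ne_inr
    · rw [a] at a'; exact absurd a' Sum.inr_ne_inl
    · rw [a] at a'; rw [b] at b'
      rw [Sum.inr_injective a', Sum.inl_injective b']
  rw [Finset.card_univ] at h1
  rw [card_X]
  have e : (1 / (n:ℝ) ^ 2) * ((n:ℝ) ^ 2 * Fintype.card Y) = Fintype.card Y := by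
    field_simp
  rw [e]
  exact_mod_cast h1

/-- Soundness: with probability at least `3/4` every labelling satisfies fewer than `8 n`
indices. -/
lemma pr_sound [Nonempty Y] (π : Y → Λr → Λl) (p Δ : ℕ) (hp : 0 < p) (hn : 0 < n)
    (hsat : ∀ b c, (Finset.univ.filter (fun y => π y b = c)).card * p ≤ Fintype.card Y)
    (hA : (Fintype.card Λl : ℝ) * Fintype.card Λr * (3 * Δ / 8 / p) ^ 8 ≤ 1 / 4) :
    pr (fun ω : Fin (Δ * n) → Fin n × Fin n × Y => ¬ ∀ (f : Fin n → Λl) (g : Fin n → Λr),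
      (Finset.univ.filter (fun i => π (ω i).2.2 (g (ω i).2.1) = f (ω i).1)).card < 8 * n) ≤
      1 / 4 := by
  haveI : Nonempty (Fin n) := ⟨⟨0, hn⟩⟩
  have hn' : (0:ℝ) < n := by exact_mod_cast hn
  have hp' : (0:ℝ) < p := by exact_mod_cast hp
  set s : Finset (((Fin n → Λl) × (Fin n → Λr)) × Finset (Fin (Δ * n))) :=
    Finset.univ ×ˢ (Finset.powersetCard (8 * n) Finset.univ) with hs
  let P : (((Fin n → Λl) × (Fin n → Λr)) × Finset (Fin (Δ * n))) →
      (Fin (Δ * n) → Fin n × Fin n × Y) → Prop := fun k ω => ∀ i ∈ k.2, ω i ∈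
        Finset.univ.filter (fun x : Fin n × Fin n × Y => π x.2.2 (k.1.2 x.2.1) = k.1.1 x.1)
  have h1 : pr (fun ω : Fin (Δ * n) → Fin n × Fin n × Y => ¬ ∀ (f : Fin n → Λl)
      (g : Fin n → Λr), (Finset.univ.filter
        (fun i => π (ω i).2.2 (g (ω i).2.1) = f (ω i).1)).card < 8 * n) ≤
      pr (fun ω => ∃ k ∈ s, P k ω) := by
    apply pr_mono
    intro ω hω
    push Not at hω
    obtain ⟨f, g, h⟩ := hω
    obtain ⟨K, hK, hKc⟩ := Finset.exists_subset_card_eq h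
    refine ⟨((f, g), K), ?_, ?_⟩
    · rw [hs, Finset.mem_product]
      exact ⟨Finset.mem_univ _, Finset.mem_powersetCard.2 ⟨Finset.subset_univ _, hKc⟩⟩
    · intro i hi
      have := (Finset.mem_filter.1 (hK hi)).2
      exact Finset.mem_filter.2 ⟨Finset.mem_univ _, this⟩
  refine h1.trans ((pr_exists_le s P).trans ?_)
  have h2 : ∀ k ∈ s, pr (P k) ≤ (1 / p : ℝ) ^ (8 * n) := by
    intro k hk
    have hkc : k.2.card = 8 * n := (Finset.mem_powersetCard.1 (Finset.mem_product.1 hk).2).2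
    rw [← hkc]
    exact pr_all_le' k.2 _ _ (card_sat_le π p hp hsat k.1.1 k.1.2)
  have hcard : (s.card : ℝ) = (Fintype.card Λl : ℝ) ^ n * (Fintype.card Λr : ℝ) ^ n *
      ((Δ * n).choose (8 * n) : ℕ) := by
    rw [hs, Finset.card_product, Finset.card_univ, Finset.card_powersetCard, Finset.card_univ]
    simp only [Fintype.card_prod, Fintype.card_pi, Finset.prod_const, Finset.card_univ,
      Fintype.card_fin]
    push_cast
    ring
  have hchoose : (((Δ * n).choose (8 * n) : ℕ) : ℝ) ≤ (3 * Δ / 8 : ℝ) ^ (8 * n) := by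
    have h := choose_mul_pow_le (Δ * n) (8 * n)
    have h8 : (0:ℝ) < ((8 * n : ℕ) : ℝ) ^ (8 * n) := by positivity
    rw [← le_div_iff₀ h8, ← div_pow] at h
    refine h.trans (le_of_eq ?_)
    congr 1
    push_cast
    field_simp
  calc ∑ k ∈ s, pr (P k) ≤ ∑ _k ∈ s, (1 / p : ℝ) ^ (8 * n) := Finset.sum_le_sum h2
    _ = s.card * (1 / p : ℝ) ^ (8 * n) := by rw [Finset.sum_const, nsmul_eq_mul]
    _ ≤ (Fintype.card Λl : ℝ) ^ n * (Fintype.card Λr : ℝ) ^ n * (3 * Δ / 8 : ℝ) ^ (8 * n) *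
        (1 / p : ℝ) ^ (8 * n) := by
        rw [hcard]
        gcongr
    _ = ((Fintype.card Λl : ℝ) * Fintype.card Λr * (3 * Δ / 8 / p) ^ 8) ^ n := by
        rw [mul_pow, mul_pow, ← pow_mul, div_eq_mul_one_div (3 * (Δ:ℝ) / 8) (p:ℝ), mul_pow]
        ring
    _ ≤ (1 / 4 : ℝ) ^ n := by
        apply pow_le_pow_left₀ (by positivity) hA
    _ ≤ (1 / 4 : ℝ) ^ 1 := pow_le_pow_of_le_one (by norm_num) (by norm_num) hn
    _ = 1 / 4 := by norm_num

/-- Excess of edges allowed on `s` vertices. -/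
def tq (Q s : ℕ) : ℕ := (s + Q - 1) / Q

lemma tq_le {Q s : ℕ} (hQ : 0 < Q) : s ≤ Q * tq Q s := by
  unfold tq
  have := Nat.lt_mul_div_succ (s + Q - 1) hQ
  rw [mul_add] at this
  omega

lemma tq_lt {Q s : ℕ} (hQ : 0 < Q) (hs : 0 < s) : Q * (tq Q s - 1) < s := by
  unfold tq
  have h := Nat.mul_div_le (s + Q - 1) Q
  have h2 : Q * ((s + Q - 1) / Q - 1) = Q * ((s + Q - 1) / Q) - Q := by
    rw [Nat.mul_sub, mul_one]
  rw [h2]
  omega

lemma dense_bound {n Δ Q s t : ℕ} (hn : 0 < n) (hs : 0 < s) (hst : s ≤ Q * t) (hΔ : 0 < Δ)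
    (hN : (36 * Δ) ^ Q * (3 * Δ) * s ≤ n) :
    ((((2 * n).choose s : ℕ) : ℝ) * (((Δ * n).choose (s + t) : ℕ) : ℝ)) *
      ((s : ℝ) ^ 2 / (n:ℝ) ^ 2) ^ (s + t) ≤ (1 / 2) ^ s := by
  have hn' : (0:ℝ) < n := by exact_mod_cast hn
  have hs' : (0:ℝ) < s := by exact_mod_cast hs
  have hΔ' : (1:ℝ) ≤ Δ := by exact_mod_cast hΔ
  have h1 := choose_mul_pow_le (2 * n) s
  have h2 : (((Δ * n).choose (s + t) : ℕ) : ℝ) * (s:ℝ) ^ (s + t) ≤ (3 * (Δ * n)) ^ (s + t) := by
    have h := choose_mul_pow_le (Δ * n) (s + t)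
    push_cast at h
    refine le_trans ?_ h
    gcongr
    linarith [(Nat.cast_nonneg t : (0:ℝ) ≤ t)]
  push_cast at h1
  rw [div_pow, mul_div_assoc', div_le_iff₀ (by positivity)]
  have h3 : ((36:ℝ) * Δ) ^ s * (3 * Δ * s) ^ t ≤ (n:ℝ) ^ t := by
    have h4 : ((36:ℝ) * Δ) ^ s ≤ ((36 * Δ) ^ Q) ^ t := by
      rw [← pow_mul]
      exact pow_le_pow_right₀ (by linarith) hst
    calc ((36:ℝ) * Δ) ^ s * (3 * Δ * s) ^ t ≤ ((36 * Δ) ^ Q) ^ t * (3 * Δ * s) ^ t := by gcongr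
      _ = ((36 * Δ) ^ Q * (3 * Δ) * s) ^ t := by rw [← mul_pow]; ring
      _ ≤ (n:ℝ) ^ t := by
        gcongr
        exact_mod_cast hN
  calc ((((2 * n).choose s : ℕ) : ℝ) * (((Δ * n).choose (s + t) : ℕ) : ℝ)) *
        ((s : ℝ) ^ 2) ^ (s + t)
      = ((((2 * n).choose s : ℕ) : ℝ) * (s:ℝ) ^ s) *
        ((((Δ * n).choose (s + t) : ℕ) : ℝ) * (s:ℝ) ^ (s + t)) * (s:ℝ) ^ t := by ring
    _ ≤ (3 * (2 * n)) ^ s * (3 * (Δ * n)) ^ (s + t) * (s:ℝ) ^ t := by gcongr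
    _ = (1 / 2) ^ s * ((n:ℝ) ^ s * (n:ℝ) ^ s * (n:ℝ) ^ t) *
        (((36:ℝ) * Δ) ^ s * (3 * Δ * s) ^ t) := by
        rw [pow_add]
        have e : (3 * (2 * (n:ℝ))) ^ s * (3 * (Δ * n)) ^ s =
          (1 / 2) ^ s * ((n:ℝ) ^ s * (n:ℝ) ^ s) * ((36:ℝ) * Δ) ^ s := by
          rw [← mul_pow, ← mul_pow, ← mul_pow, ← mul_pow]
          congr 1
          ring
        have e2 : (3 * (Δ * (n:ℝ))) ^ t * (s:ℝ) ^ t = (n:ℝ) ^ t * (3 * Δ * s) ^ t := by
          rw [← mul_pow, ← mul_pow]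
          congr 1
          ring
        calc _ = ((3 * (2 * (n:ℝ))) ^ s * (3 * (Δ * n)) ^ s) *
              ((3 * (Δ * (n:ℝ))) ^ t * (s:ℝ) ^ t) := by ring
          _ = _ := by rw [e, e2]; ring
    _ ≤ (1 / 2) ^ s * ((n:ℝ) ^ s * (n:ℝ) ^ s * (n:ℝ) ^ t) * (n:ℝ) ^ t := by gcongr
    _ = (1 / 2) ^ s * ((n:ℝ) ^ 2) ^ (s + t) := by ring

/-- Dense configurations of size `s`. -/
def denseConf (n Δ Q s : ℕ) : Finset (Finset (Fin n ⊕ Fin n) × Finset (Fin (Δ * n))) :=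
  (Finset.powersetCard s Finset.univ) ×ˢ (Finset.powersetCard (s + tq Q s) Finset.univ)

lemma sum_dense [Nonempty Y] {Δ Q N : ℕ} (hn : 0 < n) (hQ : 0 < Q) (hΔ : 0 < Δ)
    (hN : (36 * Δ) ^ Q * (3 * Δ) * N ≤ n) :
    ∑ s ∈ Finset.Icc 1 N, ∑ k ∈ denseConf n Δ Q s,
      pr (fun ω : Fin (Δ * n) → Fin n × Fin n × Y => ∀ i ∈ k.2, inside (ω i) k.1) ≤ 1 := by
  haveI : Nonempty (Fin n) := ⟨⟨0, hn⟩⟩
  have h1 : ∀ s ∈ Finset.Icc 1 N, ∑ k ∈ denseConf n Δ Q s,
      pr (fun ω : Fin (Δ * n) → Fin n × Fin n × Y => ∀ i ∈ k.2, inside (ω i) k.1) ≤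
        (1 / 2 : ℝ) ^ s := by
    intro s hs
    obtain ⟨hs1, hs2⟩ := Finset.mem_Icc.1 hs
    have hk : ∀ k ∈ denseConf n Δ Q s,
        pr (fun ω : Fin (Δ * n) → Fin n × Fin n × Y => ∀ i ∈ k.2, inside (ω i) k.1) ≤
          ((s : ℝ) ^ 2 / (n:ℝ) ^ 2) ^ (s + tq Q s) := by
      intro k hk
      obtain ⟨h1, h2⟩ := Finset.mem_product.1 hk
      have e1 : k.1.card = s := (Finset.mem_powersetCard.1 h1).2
      have e2 : k.2.card = s + tq Q s := (Finset.mem_powersetCard.1 h2).2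
      have h := pr_all_le' (X := Fin n × Fin n × Y) k.2
        (Finset.univ.filter (fun x => inside x k.1)) _ (card_inside_le k.1 hn)
      rw [e1, e2] at h
      refine le_trans (pr_mono ?_) h
      intro ω hω i hi
      exact Finset.mem_filter.2 ⟨Finset.mem_univ _, hω i hi⟩
    refine (Finset.sum_le_sum hk).trans ?_
    rw [Finset.sum_const, nsmul_eq_mul]
    have hc : ((denseConf n Δ Q s).card : ℝ) =
        (((2 * n).choose s : ℕ) : ℝ) * (((Δ * n).choose (s + tq Q s) : ℕ) : ℝ) := by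
      unfold denseConf
      rw [Finset.card_product, Finset.card_powersetCard, Finset.card_powersetCard,
        Finset.card_univ, Finset.card_univ, Fintype.card_sum, Fintype.card_fin, Fintype.card_fin]
      push_cast
      rw [two_mul]
    rw [hc]
    exact dense_bound hn hs1 (tq_le hQ) hΔ ((Nat.mul_le_mul_left _ hs2).trans hN)
  refine (Finset.sum_le_sum h1).trans ?_
  have h2 : ∀ N : ℕ, ∑ s ∈ Finset.Icc 1 N, (1 / 2 : ℝ) ^ s = 1 - (1 / 2) ^ N := by
    intro N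
    induction N with
    | zero => simp
    | succ N ih =>
      rw [Finset.sum_Icc_succ_top (by omega), ih, pow_succ]
      ring
  rw [h2]
  have : (0:ℝ) < (1 / 2) ^ N := by positivity
  linarith

/-- Cyclic successor. -/
def cyc {ℓ : ℕ} (t : Fin ℓ) : Fin ℓ := ⟨(t.val + 1) % ℓ, Nat.mod_lt _ t.pos⟩

/-- Cycle configurations of length `ℓ`. -/
def cycConf (n Δ ℓ : ℕ) : Finset ((Fin ℓ → Fin n ⊕ Fin n) × (Fin ℓ → Fin (Δ * n))) :=
  Finset.univ.filter (fun k => Function.Injective k.2)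

lemma sum_cyc [Nonempty Y] {Δ : ℕ} (hn : 0 < n) (ℓ : ℕ) :
    ∑ k ∈ cycConf n Δ ℓ, pr (fun ω : Fin (Δ * n) → Fin n × Fin n × Y =>
      ∀ t, joins (ω (k.2 t)) (k.1 t) (k.1 (cyc t))) ≤ (2 * Δ : ℝ) ^ ℓ := by
  haveI : Nonempty (Fin n) := ⟨⟨0, hn⟩⟩
  have hn' : (0:ℝ) < n := by exact_mod_cast hn
  have hk : ∀ k ∈ cycConf n Δ ℓ, pr (fun ω : Fin (Δ * n) → Fin n × Fin n × Y =>
      ∀ t, joins (ω (k.2 t)) (k.1 t) (k.1 (cyc t))) ≤ (1 / (n:ℝ) ^ 2) ^ ℓ := by
    intro k hk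
    have hinj : Function.Injective k.2 := (Finset.mem_filter.1 hk).2
    have h := pr_all_le (X := Fin n × Fin n × Y) k.2 hinj
      (fun t => Finset.univ.filter (fun x => joins x (k.1 t) (k.1 (cyc t)))) _
      (fun t => card_joins_le (k.1 t) (k.1 (cyc t)) hn)
    rw [Fintype.card_fin] at h
    refine le_trans (pr_mono ?_) h
    intro ω hω t
    exact Finset.mem_filter.2 ⟨Finset.mem_univ _, hω t⟩
  refine (Finset.sum_le_sum hk).trans ?_
  rw [Finset.sum_const, nsmul_eq_mul]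
  have hc : ((cycConf n Δ ℓ).card : ℝ) ≤ (2 * n) ^ ℓ * (Δ * n) ^ ℓ := by
    have h1 : (cycConf n Δ ℓ).card ≤ (Finset.univ :
        Finset ((Fin ℓ → Fin n ⊕ Fin n) × (Fin ℓ → Fin (Δ * n)))).card :=
      Finset.card_le_card (Finset.filter_subset _ _)
    rw [Finset.card_univ, Fintype.card_prod, Fintype.card_pi, Fintype.card_pi,
      Finset.prod_const, Finset.prod_const, Fintype.card_sum, Finset.card_univ,
      Fintype.card_fin, Fintype.card_fin, Fintype.card_fin] at h1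
    calc ((cycConf n Δ ℓ).card : ℝ) ≤ (((n + n) ^ ℓ * (Δ * n) ^ ℓ : ℕ) : ℝ) := by
          exact_mod_cast h1
      _ = _ := by push_cast; ring
  calc ((cycConf n Δ ℓ).card : ℝ) * (1 / (n:ℝ) ^ 2) ^ ℓ
      ≤ ((2 * n) ^ ℓ * (Δ * n) ^ ℓ) * (1 / (n:ℝ) ^ 2) ^ ℓ := by gcongr
    _ = (2 * Δ : ℝ) ^ ℓ := by
      rw [← mul_pow, ← mul_pow]
      congr 1
      field_simp

/-- Clash configurations. -/
def clashConf (n Δ : ℕ) : Finset (Fin (Δ * n) × Fin (Δ * n)) :=
  Finset.univ.filter (fun k => k.1 ≠ k.2)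

lemma sum_clash [Nonempty Y] {Δ p : ℕ} (hn : 0 < n) (hp : 0 < p) (clash : Y → Y → Prop)
    (hclash : (Finset.univ.filter (fun yy : Y × Y => clash yy.1 yy.2)).card * p ≤
      Fintype.card Y ^ 2) :
    ∑ k ∈ clashConf n Δ, pr (fun ω : Fin (Δ * n) → Fin n × Fin n × Y =>
      (ω k.1).2.1 = (ω k.2).2.1 ∧ clash (ω k.1).2.2 (ω k.2).2.2) ≤
      (Δ:ℝ) ^ 2 * n / p := by
  haveI : Nonempty (Fin n) := ⟨⟨0, hn⟩⟩
  have hn' : (0:ℝ) < n := by exact_mod_cast hn
  have hp' : (0:ℝ) < p := by exact_mod_cast hp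
  have hY : (0:ℝ) < Fintype.card Y := by
    have := Fintype.card_pos (α := Y)
    positivity
  have hk : ∀ k ∈ clashConf n Δ, pr (fun ω : Fin (Δ * n) → Fin n × Fin n × Y =>
      (ω k.1).2.1 = (ω k.2).2.1 ∧ clash (ω k.1).2.2 (ω k.2).2.2) ≤ 1 / (n * p) := by
    intro k hk
    have hne : k.1 ≠ k.2 := (Finset.mem_filter.1 hk).2
    let e : Fin 2 → Fin (Δ * n) := ![k.1, k.2]
    have he : Function.Injective e := by
      intro a b hab
      fin_cases a <;> fin_cases b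
      · rfl
      · exact absurd hab hne
      · exact absurd hab.symm hne
      · rfl
    let T : Finset (Fin 2 → Fin n × Fin n × Y) :=
      Finset.univ.filter (fun τ => (τ 0).2.1 = (τ 1).2.1 ∧ clash (τ 0).2.2 (τ 1).2.2)
    have h := pr_comp (X := Fin n × Fin n × Y) e he T
    have h2 : pr (fun ω : Fin (Δ * n) → Fin n × Fin n × Y =>
        (ω k.1).2.1 = (ω k.2).2.1 ∧ clash (ω k.1).2.2 (ω k.2).2.2) ≤
        pr (fun ω : Fin (Δ * n) → Fin n × Fin n × Y => (fun t => ω (e t)) ∈ T) := by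
      apply pr_mono
      intro ω hω
      exact Finset.mem_filter.2 ⟨Finset.mem_univ _, hω⟩
    refine h2.trans ?_
    rw [h, Fintype.card_fin, card_X]
    have hT : T.card ≤ (((Finset.univ : Finset (Fin n)) ×ˢ (Finset.univ : Finset (Fin n)) ×ˢ
        (Finset.univ : Finset (Fin n))) ×ˢ
        (Finset.univ.filter (fun yy : Y × Y => clash yy.1 yy.2))).card := by
      refine Finset.card_le_card_of_injOn
        (fun τ => (((τ 0).1, (τ 0).2.1, (τ 1).1), ((τ 0).2.2, (τ 1).2.2))) ?_ ?_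
      · intro τ hτ
        have := (Finset.mem_filter.1 (Finset.mem_coe.1 hτ)).2
        refine Finset.mem_coe.2 (Finset.mem_product.2 ⟨?_, ?_⟩)
        · simp
        · exact Finset.mem_filter.2 ⟨Finset.mem_univ _, this.2⟩
      · intro τ hτ τ' hτ' hh
        have h1 := (Finset.mem_filter.1 (Finset.mem_coe.1 hτ)).2
        have h2 := (Finset.mem_filter.1 (Finset.mem_coe.1 hτ')).2
        simp only [Prod.mk.injEq] at hh
        obtain ⟨⟨a1, a2, a3⟩, a4, a5⟩ := hh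
        funext t
        fin_cases t
        · exact Prod.ext a1 (Prod.ext a2 a4)
        · refine Prod.ext a3 (Prod.ext ?_ a5)
          show (τ 1).2.1 = (τ' 1).2.1
          rw [← h1.1, ← h2.1, a2]
    rw [Finset.card_product, Finset.card_product, Finset.card_product, Finset.card_univ,
      Fintype.card_fin] at hT
    have hcl' : ((Finset.univ.filter (fun yy : Y × Y => clash yy.1 yy.2)).card : ℝ) * p ≤
        (Fintype.card Y : ℝ) ^ 2 := by exact_mod_cast hclash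
    have hT' : (T.card : ℝ) ≤ (n:ℝ) ^ 3 *
        ((Finset.univ.filter (fun yy : Y × Y => clash yy.1 yy.2)).card : ℝ) := by
      calc (T.card : ℝ) ≤ ((n * (n * n) * (Finset.univ.filter
            (fun yy : Y × Y => clash yy.1 yy.2)).card : ℕ) : ℝ) := by exact_mod_cast hT
        _ = _ := by push_cast; ring
    rw [div_le_div_iff₀ (by positivity) (by positivity), one_mul]
    calc (T.card : ℝ) * (n * p) ≤ ((n:ℝ) ^ 3 *
          ((Finset.univ.filter (fun yy : Y × Y => clash yy.1 yy.2)).card : ℝ)) * (n * p) := by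
          gcongr
      _ = (n:ℝ) ^ 4 * (((Finset.univ.filter (fun yy : Y × Y => clash yy.1 yy.2)).card : ℝ) *
          p) := by ring
      _ ≤ (n:ℝ) ^ 4 * (Fintype.card Y : ℝ) ^ 2 := by gcongr
      _ = _ := by ring
  refine (Finset.sum_le_sum hk).trans ?_
  rw [Finset.sum_const, nsmul_eq_mul]
  have hc : ((clashConf n Δ).card : ℝ) ≤ (Δ * n) ^ 2 := by
    have h1 : (clashConf n Δ).card ≤ (Finset.univ : Finset (Fin (Δ * n) × Fin (Δ * n))).card :=
      Finset.card_le_card (Finset.filter_subset _ _)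
    rw [Finset.card_univ, Fintype.card_prod, Fintype.card_fin] at h1
    calc ((clashConf n Δ).card : ℝ) ≤ ((Δ * n * (Δ * n) : ℕ) : ℝ) := by exact_mod_cast h1
      _ = _ := by push_cast; ring
  calc ((clashConf n Δ).card : ℝ) * (1 / (n * p)) ≤ (Δ * n) ^ 2 * (1 / (n * p)) := by gcongr
    _ = _ := by field_simp

end

end Pool.H17.LC
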