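import Pool.Agent.H17.LC5

/-!
Deleting the bad indices of a random multigraph.
-/

namespace Pool.H17.LC

open Finset
open scoped Classical

set_option linter.unusedSectionVars false
set_option linter.unusedFintypeInType false
set_option linter.style.haveILetI false

noncomputable section

variable {Y Λl Λr : Type} [Fintype Y] [Fintype Λl] [Fintype Λr]

theorem exists_omega [Nonempty Y] (π : Y → Λr → Λl) (clash : Y → Y → Prop) (p Δ Q T : ℕ)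
    (hp : 0 < p) (hΔ : 0 < Δ) (hQ : 0 < Q) (hpΔ : 8 * Δ ≤ p)
    (hsat : ∀ b c, (Finset.univ.filter (fun y => π y b = c)).card * p ≤ Fintype.card Y)
    (hclash : (Finset.univ.filter (fun yy : Y × Y => clash yy.1 yy.2)).card * p ≤
      Fintype.card Y ^ 2)
    (hA : (Fintype.card Λl : ℝ) * Fintype.card Λr * (3 * Δ / 8 / p) ^ 8 ≤ 1 / 4) :
    ∃ n₀ : ℕ, ∀ n ≥ n₀, 0 < n ∧ ∀ N : ℕ, (36 * Δ) ^ Q * (3 * Δ) * N ≤ n →
      ∃ (ω : Fin (Δ * n) → Fin n × Fin n × Y) (I : Finset (Fin (Δ * n))),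
        Δ * n ≤ 2 * I.card ∧
        (∀ (f : Fin n → Λl) (g : Fin n → Λr) (K : Finset (Fin (Δ * n))),
          (∀ i ∈ K, π (ω i).2.2 (g (ω i).2.1) = f (ω i).1) → K.card < 8 * n) ∧
        (∀ S : Finset (Fin n ⊕ Fin n), S.Nonempty → S.card ≤ N →
          (I.filter (fun i => inside (ω i) S)).card < S.card + tq Q S.card) ∧
        (∀ ℓ, 2 ≤ ℓ → ℓ ≤ T → ∀ (c : Fin ℓ → Fin n ⊕ Fin n) (e : Fin ℓ → Fin (Δ * n)),
          Function.Injective e → (∀ t, e t ∈ I) → ¬ ∀ t, joins (ω (e t)) (c t) (c (cyc t))) ∧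
        (∀ i ∈ I, ∀ j ∈ I, i ≠ j → (ω i).2.1 = (ω j).2.1 →
          ¬ clash (ω i).2.2 (ω j).2.2) := by
  have hp' : (0:ℝ) < p := by exact_mod_cast hp
  have hΔ' : (0:ℝ) < Δ := by exact_mod_cast hΔ
  set B : ℝ := 1 + ∑ ℓ ∈ Finset.Icc 2 T, (2 * Δ : ℝ) ^ ℓ with hB
  obtain ⟨n₁, hn₁⟩ := exists_nat_ge (8 * B)
  refine ⟨n₁ + 1, fun n hn => ⟨by omega, fun N hN => ?_⟩⟩
  have hn0 : 0 < n := by omega
  have hn' : (0:ℝ) < n := by exact_mod_cast hn0
  haveI : Nonempty (Fin n) := ⟨⟨0, hn0⟩⟩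
  set Ω := Fin (Δ * n) → Fin n × Fin n × Y with hΩ
  -- number of bad configurations
  let ZD : Ω → ℕ → Finset (Finset (Fin n ⊕ Fin n) × Finset (Fin (Δ * n))) := fun ω s =>
    (denseConf n Δ Q s).filter (fun k => ∀ i ∈ k.2, inside (ω i) k.1)
  let ZC : Ω → (ℓ : ℕ) → Finset ((Fin ℓ → Fin n ⊕ Fin n) × (Fin ℓ → Fin (Δ * n))) := fun ω ℓ =>
    (cycConf n Δ ℓ).filter (fun k => ∀ t, joins (ω (k.2 t)) (k.1 t) (k.1 (cyc t)))
  let ZX : Ω → Finset (Fin (Δ * n) × Fin (Δ * n)) := fun ω =>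
    (clashConf n Δ).filter (fun k => (ω k.1).2.1 = (ω k.2).2.1 ∧ clash (ω k.1).2.2 (ω k.2).2.2)
  let Z : Ω → ℝ := fun ω => (∑ s ∈ Finset.Icc 1 N, ((ZD ω s).card : ℝ)) +
    (∑ ℓ ∈ Finset.Icc 2 T, ((ZC ω ℓ).card : ℝ)) + ((ZX ω).card : ℝ)
  have hZ0 : ∀ ω, 0 ≤ Z ω := fun ω =>
    add_nonneg (add_nonneg (Finset.sum_nonneg fun _ _ => Nat.cast_nonneg _)
      (Finset.sum_nonneg fun _ _ => Nat.cast_nonneg _)) (Nat.cast_nonneg _)
  have hΩ0 : (0:ℝ) ≤ Fintype.card Ω := Nat.cast_nonneg _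
  have hZsum : ∑ ω, Z ω ≤ (Δ * n / 2 : ℝ) / 2 * Fintype.card Ω := by
    have e1 : ∑ ω : Ω, (∑ s ∈ Finset.Icc 1 N, ((ZD ω s).card : ℝ)) ≤ 1 * Fintype.card Ω := by
      rw [Finset.sum_comm]
      have : ∀ s ∈ Finset.Icc 1 N, (∑ ω : Ω, ((ZD ω s).card : ℝ)) =
          (∑ k ∈ denseConf n Δ Q s, pr (fun ω : Ω => ∀ i ∈ k.2, inside (ω i) k.1)) *
            Fintype.card Ω := by
        intro s _
        exact sum_card_filter (denseConf n Δ Q s) (fun k (ω : Ω) => ∀ i ∈ k.2, inside (ω i) k.1)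
      rw [Finset.sum_congr rfl this, ← Finset.sum_mul]
      exact mul_le_mul_of_nonneg_right (sum_dense hn0 hQ hΔ hN) hΩ0
    have e2 : ∑ ω : Ω, (∑ ℓ ∈ Finset.Icc 2 T, ((ZC ω ℓ).card : ℝ)) ≤
        (∑ ℓ ∈ Finset.Icc 2 T, (2 * Δ : ℝ) ^ ℓ) * Fintype.card Ω := by
      rw [Finset.sum_comm, Finset.sum_mul]
      refine Finset.sum_le_sum fun ℓ _ => ?_
      have : (∑ ω : Ω, ((ZC ω ℓ).card : ℝ)) =
          (∑ k ∈ cycConf n Δ ℓ, pr (fun ω : Ω => ∀ t, joins (ω (k.2 t)) (k.1 t)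
            (k.1 (cyc t)))) * Fintype.card Ω :=
        sum_card_filter (cycConf n Δ ℓ)
          (fun k (ω : Ω) => ∀ t, joins (ω (k.2 t)) (k.1 t) (k.1 (cyc t)))
      rw [this]
      exact mul_le_mul_of_nonneg_right (sum_cyc hn0 ℓ) hΩ0
    have e3 : ∑ ω : Ω, ((ZX ω).card : ℝ) ≤ ((Δ:ℝ) ^ 2 * n / p) * Fintype.card Ω := by
      have : (∑ ω : Ω, ((ZX ω).card : ℝ)) =
          (∑ k ∈ clashConf n Δ, pr (fun ω : Ω =>
            (ω k.1).2.1 = (ω k.2).2.1 ∧ clash (ω k.1).2.2 (ω k.2).2.2)) * Fintype.card Ω :=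
        sum_card_filter (clashConf n Δ)
          (fun k (ω : Ω) => (ω k.1).2.1 = (ω k.2).2.1 ∧ clash (ω k.1).2.2 (ω k.2).2.2)
      rw [this]
      exact mul_le_mul_of_nonneg_right (sum_clash hn0 hp clash hclash) hΩ0
    have e4 : (Δ:ℝ) ^ 2 * n / p ≤ Δ * n / 8 := by
      rw [div_le_div_iff₀ hp' (by norm_num)]
      have : (8:ℝ) * Δ ≤ p := by exact_mod_cast hpΔ
      nlinarith [mul_nonneg (mul_nonneg hΔ'.le hn'.le) (sub_nonneg.2 this)]
    have e5 : B ≤ Δ * n / 8 := by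
      have h1 : (n₁ : ℝ) ≤ n := by
        have : n₁ ≤ n := by omega
        exact_mod_cast this
      have h2 : (1:ℝ) ≤ Δ := by exact_mod_cast hΔ
      have h3 : (n:ℝ) ≤ Δ * n := by nlinarith
      linarith
    calc ∑ ω, Z ω = (∑ ω : Ω, (∑ s ∈ Finset.Icc 1 N, ((ZD ω s).card : ℝ))) +
          (∑ ω : Ω, (∑ ℓ ∈ Finset.Icc 2 T, ((ZC ω ℓ).card : ℝ))) +
          ∑ ω : Ω, ((ZX ω).card : ℝ) := by
          simp only [Z]
          rw [Finset.sum_add_distrib, Finset.sum_add_distrib]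
      _ ≤ 1 * Fintype.card Ω + (∑ ℓ ∈ Finset.Icc 2 T, (2 * Δ : ℝ) ^ ℓ) * Fintype.card Ω +
          ((Δ:ℝ) ^ 2 * n / p) * Fintype.card Ω := add_le_add (add_le_add e1 e2) e3
      _ = (B + (Δ:ℝ) ^ 2 * n / p) * Fintype.card Ω := by rw [hB]; ring
      _ ≤ (Δ * n / 2 : ℝ) / 2 * Fintype.card Ω := by
          apply mul_le_mul_of_nonneg_right _ hΩ0
          linarith
  obtain ⟨ω, hωA, hωZ⟩ := exists_good
    (fun ω : Ω => ∀ (f : Fin n → Λl) (g : Fin n → Λr),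
      (Finset.univ.filter (fun i => π (ω i).2.2 (g (ω i).2.1) = f (ω i).1)).card < 8 * n)
    Z (Δ * n / 2) (by positivity) (pr_sound π p Δ hp hn0 hsat hA) hZ0 hZsum
  -- deleted indices
  have hm : 0 < Δ * n := Nat.mul_pos hΔ hn0
  let i₀ : Fin (Δ * n) := ⟨0, hm⟩
  let pick : Finset (Fin (Δ * n)) → Fin (Δ * n) := fun K => if h : K.Nonempty then h.choose else i₀
  have hpick : ∀ K : Finset (Fin (Δ * n)), K.Nonempty → pick K ∈ K := by
    intro K hK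
    simp only [pick, dif_pos hK]
    exact hK.choose_spec
  let fst : (ℓ : ℕ) → (Fin ℓ → Fin (Δ * n)) → Fin (Δ * n) := fun ℓ e =>
    if h : 0 < ℓ then e ⟨0, h⟩ else i₀
  let D1 : Finset (Fin (Δ * n)) := (Finset.Icc 1 N).biUnion (fun s =>
    (ZD ω s).image (fun k => pick k.2))
  let D2 : Finset (Fin (Δ * n)) := (Finset.Icc 2 T).biUnion (fun ℓ =>
    (ZC ω ℓ).image (fun k => fst ℓ k.2))
  let D3 : Finset (Fin (Δ * n)) := (ZX ω).image Prod.fst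
  have hD1 : (D1.card : ℝ) ≤ ∑ s ∈ Finset.Icc 1 N, ((ZD ω s).card : ℝ) := by
    rw [← Nat.cast_sum]
    norm_cast
    exact Finset.card_biUnion_le.trans (Finset.sum_le_sum fun s _ => Finset.card_image_le)
  have hD2 : (D2.card : ℝ) ≤ ∑ ℓ ∈ Finset.Icc 2 T, ((ZC ω ℓ).card : ℝ) := by
    rw [← Nat.cast_sum]
    norm_cast
    exact Finset.card_biUnion_le.trans (Finset.sum_le_sum fun s _ => Finset.card_image_le)
  have hD3 : (D3.card : ℝ) ≤ ((ZX ω).card : ℝ) := by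
    norm_cast
    exact Finset.card_image_le
  have hD : ((D1 ∪ D2 ∪ D3).card : ℝ) ≤ Δ * n / 2 := by
    have h1 : ((D1 ∪ D2 ∪ D3).card : ℝ) ≤ D1.card + D2.card + D3.card := by
      have h2 := Finset.card_union_le (D1 ∪ D2) D3
      have h3 := Finset.card_union_le D1 D2
      have : (D1 ∪ D2 ∪ D3).card ≤ D1.card + D2.card + D3.card := by omega
      exact_mod_cast this
    have h4 : Z ω = (∑ s ∈ Finset.Icc 1 N, ((ZD ω s).card : ℝ)) +
      (∑ ℓ ∈ Finset.Icc 2 T, ((ZC ω ℓ).card : ℝ)) + ((ZX ω).card : ℝ) := rfl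
    linarith
  refine ⟨ω, (D1 ∪ D2 ∪ D3)ᶜ, ?_, fun f g K hK => lt_of_le_of_lt (Finset.card_le_card
    (fun i hi => Finset.mem_filter.2 ⟨Finset.mem_univ _, hK i hi⟩)) (hωA f g), ?_, ?_, ?_⟩
  · have h1 : (D1 ∪ D2 ∪ D3).card + ((D1 ∪ D2 ∪ D3)ᶜ).card = Δ * n := by
      rw [Finset.card_add_card_compl, Fintype.card_fin]
    have h2 : 2 * (D1 ∪ D2 ∪ D3).card ≤ Δ * n := by
      have : (2:ℝ) * (D1 ∪ D2 ∪ D3).card ≤ Δ * n := by linarith
      exact_mod_cast this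
    omega
  · intro S hS hSN
    by_contra hcon
    push Not at hcon
    obtain ⟨K, hK, hKc⟩ := Finset.exists_subset_card_eq hcon
    have hKne : K.Nonempty := by
      rw [← Finset.card_pos, hKc]
      have := Finset.card_pos.2 hS
      omega
    have h1 := hK (hpick K hKne)
    have h2 := (Finset.mem_filter.1 h1).1
    rw [Finset.mem_compl] at h2
    apply h2
    apply Finset.mem_union_left
    apply Finset.mem_union_left
    refine Finset.mem_biUnion.2 ⟨S.card, Finset.mem_Icc.2 ⟨Finset.card_pos.2 hS, hSN⟩, ?_⟩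
    refine Finset.mem_image.2 ⟨(S, K), ?_, rfl⟩
    refine Finset.mem_filter.2 ⟨?_, ?_⟩
    · exact Finset.mem_product.2 ⟨Finset.mem_powersetCard.2 ⟨Finset.subset_univ _, rfl⟩,
        Finset.mem_powersetCard.2 ⟨Finset.subset_univ _, hKc⟩⟩
    · intro i hi
      exact (Finset.mem_filter.1 (hK hi)).2
  · intro ℓ h2 hT c e he heI hall
    have h3 := heI ⟨0, by omega⟩
    rw [Finset.mem_compl] at h3
    apply h3
    apply Finset.mem_union_left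
    apply Finset.mem_union_right
    refine Finset.mem_biUnion.2 ⟨ℓ, Finset.mem_Icc.2 ⟨h2, hT⟩, ?_⟩
    refine Finset.mem_image.2 ⟨(c, e), ?_, ?_⟩
    · exact Finset.mem_filter.2 ⟨Finset.mem_filter.2 ⟨Finset.mem_univ _, he⟩, hall⟩
    · have : 0 < ℓ := by omega
      simp only [fst, dif_pos this]
  · intro i hi j hj hij hw hc
    rw [Finset.mem_compl] at hi
    apply hi
    apply Finset.mem_union_right
    refine Finset.mem_image.2 ⟨(i, j), ?_, rfl⟩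
    exact Finset.mem_filter.2 ⟨Finset.mem_filter.2 ⟨Finset.mem_univ _, hij⟩, hw, hc⟩

end

end Pool.H17.LC
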