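import Pool.Agent.H17.LC6
import Pool.Agent.H17.LC3

/-!
From a good random multigraph to a bipartite graph with a flexible constraint system.
-/

namespace Pool.H17.LC

open Finset
open scoped Classical

set_option linter.unusedSectionVars false
set_option linter.unusedFintypeInType false
set_option linter.style.haveILetI false

noncomputable section

section graph

variable {Y : Type} {n m : ℕ}

/-- Edges of the kept multigraph. -/
def kE (ω : Fin m → Fin n × Fin n × Y) (I : Finset (Fin m)) (v w : Fin n) : Prop :=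
  ∃ i ∈ I, (ω i).1 = v ∧ (ω i).2.1 = w

/-- No short closed configurations. -/
def NoCyc (ω : Fin m → Fin n × Fin n × Y) (I : Finset (Fin m)) (T : ℕ) : Prop :=
  ∀ ℓ, 2 ≤ ℓ → ℓ ≤ T → ∀ (c : Fin ℓ → Fin n ⊕ Fin n) (e : Fin ℓ → Fin m),
    Function.Injective e → (∀ t, e t ∈ I) → ¬ ∀ t, joins (ω (e t)) (c t) (c (cyc t))

lemma kE_unique {ω : Fin m → Fin n × Fin n × Y} {I : Finset (Fin m)} {T : ℕ} (hT : 2 ≤ T)
    (h : NoCyc ω I T) {i j : Fin m} (hi : i ∈ I) (hj : j ∈ I) (h1 : (ω i).1 = (ω j).1)
    (h2 : (ω i).2.1 = (ω j).2.1) : i = j := by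
  by_contra hne
  refine h 2 le_rfl hT ![Sum.inl (ω i).1, Sum.inr (ω i).2.1] ![i, j] ?_ ?_ ?_
  · intro a b hab
    fin_cases a <;> fin_cases b
    · rfl
    · exact absurd hab hne
    · exact absurd hab.symm hne
    · rfl
  · intro t
    fin_cases t
    · exact hi
    · exact hj
  · intro t
    fin_cases t
    · exact Or.inl ⟨rfl, rfl⟩
    · refine Or.inr ⟨?_, ?_⟩
      · show Sum.inr (ω i).2.1 = Sum.inr (ω j).2.1
        rw [h2]
      · show Sum.inl (ω i).1 = Sum.inl (ω j).1
        rw [h1]

lemma adj_iff_joins {ω : Fin m → Fin n × Fin n × Y} {I : Finset (Fin m)} {x y : Fin n ⊕ Fin n} :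
    (bip (kE ω I)).Adj x y ↔ ∃ i ∈ I, joins (ω i) x y := by
  constructor
  · rintro (⟨v, w, rfl, rfl, i, hi, h1, h2⟩ | ⟨v, w, rfl, rfl, i, hi, h1, h2⟩)
    · exact ⟨i, hi, Or.inl ⟨by rw [h1], by rw [h2]⟩⟩
    · exact ⟨i, hi, Or.inr ⟨by rw [h2], by rw [h1]⟩⟩
  · rintro ⟨i, hi, ⟨h1, h2⟩ | ⟨h1, h2⟩⟩
    · exact Or.inl ⟨_, _, h1, h2, i, hi, rfl, rfl⟩
    · exact Or.inr ⟨_, _, h1, h2, i, hi, rfl, rfl⟩

lemma joins_cases {ω : Fin m → Fin n × Fin n × Y} {i : Fin m} {x y x' y' : Fin n ⊕ Fin n}
    (h : joins (ω i) x y) (h' : joins (ω i) x' y') : (x = x' ∧ y = y') ∨ (x = y' ∧ y = x') := by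
  rcases h with ⟨h1, h2⟩ | ⟨h1, h2⟩ <;> rcases h' with ⟨h3, h4⟩ | ⟨h3, h4⟩
  · left; exact ⟨h1.trans h3.symm, h2.trans h4.symm⟩
  · right; exact ⟨h1.trans h4.symm, h2.trans h3.symm⟩
  · right; exact ⟨h1.trans h4.symm, h2.trans h3.symm⟩
  · left; exact ⟨h1.trans h3.symm, h2.trans h4.symm⟩

lemma noShort_of_noCyc {ω : Fin m → Fin n × Fin n × Y} {I : Finset (Fin m)} {T : ℕ}
    (h : NoCyc ω I T) : NoShort (bip (kE ω I)) T := by
  intro ℓ h3 hT c hinj hc0 hadj
  have hadj' : ∀ t : Fin ℓ, ∃ i, i ∈ I ∧ joins (ω i) (c t) (c (t + 1)) := by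
    intro t
    obtain ⟨i, hi, hj⟩ := adj_iff_joins.1 (hadj t.1 t.2)
    exact ⟨i, hi, hj⟩
  choose e heI hej using hadj'
  -- values at successors
  have hsucc : ∀ t : Fin ℓ, c ((cyc t : Fin ℓ) : ℕ) = c (t.1 + 1) := by
    intro t
    have ht := t.2
    show c ((t.1 + 1) % ℓ) = c (t.1 + 1)
    rcases Nat.lt_or_ge (t.1 + 1) ℓ with h | h
    · rw [Nat.mod_eq_of_lt h]
    · have : t.1 + 1 = ℓ := by omega
      rw [this, Nat.mod_self, hc0]
  refine h ℓ (by omega) hT (fun t => c t) e ?_ heI ?_
  · intro t t' htt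
    have h1 := hej t
    have h2 := hej t'
    rw [← htt] at h2
    have ht := t.2
    have ht' := t'.2
    rcases joins_cases h1 h2 with ⟨a, b⟩ | ⟨a, b⟩
    · exact Fin.ext (hinj _ ht _ ht' a)
    · exfalso
      -- c t = c (t'+1), c (t+1) = c t'
      have k1 : t.1 = t'.1 + 1 ∨ (t'.1 + 1 = ℓ ∧ t.1 = 0) := by
        rcases Nat.lt_or_ge (t'.1 + 1) ℓ with h | h
        · left; exact hinj _ ht _ h a
        · right
          have e1 : t'.1 + 1 = ℓ := by omega
          rw [e1, hc0] at a
          exact ⟨e1, hinj _ ht _ (by omega) a⟩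
      have k2 : t'.1 = t.1 + 1 ∨ (t.1 + 1 = ℓ ∧ t'.1 = 0) := by
        rcases Nat.lt_or_ge (t.1 + 1) ℓ with h | h
        · left; exact (hinj _ h _ ht' b).symm
        · right
          have e1 : t.1 + 1 = ℓ := by omega
          rw [e1, hc0] at b
          exact ⟨e1, (hinj _ (by omega) _ ht' b).symm⟩
      omega
  · intro t
    show joins (ω (e t)) (c t) (c ((cyc t : Fin ℓ) : ℕ))
    rw [hsucc]
    exact hej t

lemma dd_le_inside {ω : Fin m → Fin n × Fin n × Y} {I : Finset (Fin m)}
    (S : Finset (Fin n ⊕ Fin n)) :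
    dd (bip (kE ω I)) S S ≤ 2 * (I.filter (fun i => inside (ω i) S)).card := by
  have h1 : dd (bip (kE ω I)) S S =
      ((S ×ˢ S).filter (fun p => (bip (kE ω I)).Adj p.1 p.2)).card := by
    rw [Finset.card_filter, Finset.sum_product]
    rfl
  have h2 : ∀ p : (Fin n ⊕ Fin n) × (Fin n ⊕ Fin n), (bip (kE ω I)).Adj p.1 p.2 →
      ∃ i, i ∈ I ∧ joins (ω i) p.1 p.2 := by
    intro p hp
    obtain ⟨i, hi, hj⟩ := adj_iff_joins.1 hp
    exact ⟨i, hi, hj⟩
  rw [h1]
  rcases Nat.eq_zero_or_pos m with hm | hm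
  · subst hm
    have : (S ×ˢ S).filter (fun p => (bip (kE ω I)).Adj p.1 p.2) = ∅ := by
      apply Finset.filter_eq_empty_iff.2
      intro p _ hp
      obtain ⟨i, -, -⟩ := h2 p hp
      exact i.elim0
    rw [this]
    simp
  · let g : (Fin n ⊕ Fin n) × (Fin n ⊕ Fin n) → Fin m × Bool := fun p =>
      (if h : ∃ i, i ∈ I ∧ joins (ω i) p.1 p.2 then h.choose else ⟨0, hm⟩, p.1.isLeft)
    have hg : ∀ p, (bip (kE ω I)).Adj p.1 p.2 → (g p).1 ∈ I ∧ joins (ω (g p).1) p.1 p.2 := by
      intro p hp
      have h := h2 p hp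
      have e : (g p).1 = h.choose := by simp only [g, dif_pos h]
      rw [e]
      exact h.choose_spec
    calc ((S ×ˢ S).filter (fun p => (bip (kE ω I)).Adj p.1 p.2)).card
        ≤ ((I.filter (fun i => inside (ω i) S)) ×ˢ (Finset.univ : Finset Bool)).card := by
          refine Finset.card_le_card_of_injOn g ?_ ?_
          · intro p hp
            obtain ⟨hpS, hpa⟩ := Finset.mem_filter.1 (Finset.mem_coe.1 hp)
            obtain ⟨hp1, hp2⟩ := Finset.mem_product.1 hpS
            obtain ⟨a, b⟩ := hg p hpa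
            refine Finset.mem_coe.2 (Finset.mem_product.2 ⟨Finset.mem_filter.2 ⟨a, ?_⟩,
              Finset.mem_univ _⟩)
            rcases b with ⟨b1, b2⟩ | ⟨b1, b2⟩
            · exact ⟨by rw [← b1]; exact hp1, by rw [← b2]; exact hp2⟩
            · exact ⟨by rw [← b2]; exact hp2, by rw [← b1]; exact hp1⟩
          · intro p hp p' hp' hpp
            have a1 := (hg p (Finset.mem_filter.1 (Finset.mem_coe.1 hp)).2).2
            have a2 := (hg p' (Finset.mem_filter.1 (Finset.mem_coe.1 hp')).2).2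
            have e1 : (g p).1 = (g p').1 := by rw [hpp]
            have e2 : p.1.isLeft = p'.1.isLeft := congrArg Prod.snd hpp
            rw [← e1] at a2
            rcases a1 with ⟨b1, b2⟩ | ⟨b1, b2⟩ <;> rcases a2 with ⟨b3, b4⟩ | ⟨b3, b4⟩
            · exact Prod.ext (b1.trans b3.symm) (b2.trans b4.symm)
            · rw [b1, b3] at e2; simp at e2
            · rw [b1, b3] at e2; simp at e2
            · exact Prod.ext (b1.trans b3.symm) (b2.trans b4.symm)
      _ = _ := by
          rw [Finset.card_product, Finset.card_univ, Fintype.card_bool, mul_comm]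

lemma sparse_of {ω : Fin m → Fin n × Fin n × Y} {I : Finset (Fin m)} {Q N : ℕ} (hQ : 0 < Q)
    (h : ∀ S : Finset (Fin n ⊕ Fin n), S.Nonempty → S.card ≤ N →
          (I.filter (fun i => inside (ω i) S)).card < S.card + tq Q S.card) :
    Sparse (bip (kE ω I)) Q N := by
  intro S hS hN
  have h1 := h S hS hN
  have h2 := dd_le_inside (ω := ω) (I := I) S
  have h3 := tq_lt hQ (Finset.card_pos.2 hS)
  have h4 : dd (bip (kE ω I)) S S ≤ 2 * (S.card + (tq Q S.card - 1)) := by omega
  calc Q * dd (bip (kE ω I)) S S ≤ Q * (2 * (S.card + (tq Q S.card - 1))) :=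
        Nat.mul_le_mul_left _ h4
    _ = 2 * Q * S.card + 2 * (Q * (tq Q S.card - 1)) := by ring
    _ < 2 * Q * S.card + 2 * S.card := by omega
    _ = 2 * (Q + 1) * S.card := by ring

end graph

section labels

variable {p r d : ℕ}

/-- Data of an edge: a shift vector for the main part, a shift for the padding part. -/
abbrev YY (p r d : ℕ) : Type := (Fin d → ZMod p) × ZMod r

/-- The map attached to an edge. -/
def piY (y : YY p r d) (b : (ZMod p ⊕ ZMod r) × Fin d) : ZMod p ⊕ ZMod r :=
  match b.1 with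
  | Sum.inl x => Sum.inl (x + y.1 b.2)
  | Sum.inr x => Sum.inr (x + y.2)

/-- Two edges at a common right vertex clash if the differences are constant. -/
def clashY (y y' : YY p r d) : Prop := ∀ i i' : Fin d, y'.1 i - y.1 i = y'.1 i' - y.1 i'

lemma piY_sat [NeZero p] [NeZero r] (hpr : p ≤ r) (b : (ZMod p ⊕ ZMod r) × Fin d)
    (c : ZMod p ⊕ ZMod r) (inst : DecidablePred (fun y : YY p r d => piY y b = c)) :
    (@Finset.filter (YY p r d) (fun y => piY y b = c) inst Finset.univ).card * p ≤
      Fintype.card (YY p r d) := by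
  have hinst : @Finset.filter (YY p r d) (fun y => piY y b = c) inst Finset.univ =
      Finset.univ.filter (fun y : YY p r d => piY y b = c) := by
    ext z
    rw [Finset.mem_filter]
  rw [hinst]
  obtain ⟨b1, i⟩ := b
  rcases b1 with x | x <;> rcases c with z | z
  · -- main part
    have hp : (Finset.univ.filter (fun y : YY p r d => piY y (Sum.inl x, i) = Sum.inl z)).card * p
        = ((Finset.univ.filter (fun y : YY p r d => piY y (Sum.inl x, i) = Sum.inl z)) ×ˢ
          (Finset.univ : Finset (ZMod p))).card := by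
      rw [Finset.card_product, Finset.card_univ, ZMod.card]
    rw [hp, ← Finset.card_univ]
    refine Finset.card_le_card_of_injOn
      (fun q => (Function.update q.1.1 i (q.1.1 i + q.2), q.1.2)) (fun _ _ => by simp) ?_
    rintro ⟨⟨a, s⟩, t⟩ h1 ⟨⟨a', s'⟩, t'⟩ h2 heq
    have h1' := (Finset.mem_filter.1 (Finset.mem_product.1 (Finset.mem_coe.1 h1)).1).2
    have h2' := (Finset.mem_filter.1 (Finset.mem_product.1 (Finset.mem_coe.1 h2)).1).2
    simp only [piY, Sum.inl.injEq] at h1' h2'
    simp only [Prod.mk.injEq] at heq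
    obtain ⟨e1, rfl⟩ := heq
    have hai : a i = a' i := by
      have : x + a i = x + a' i := h1'.trans h2'.symm
      exact add_left_cancel this
    have hti : t = t' := by
      have := congrFun e1 i
      rw [Function.update_self, Function.update_self, hai] at this
      exact add_left_cancel this
    have haa : a = a' := by
      funext j
      by_cases hj : j = i
      · rw [hj, hai]
      · have := congrFun e1 j
        rwa [Function.update_of_ne hj, Function.update_of_ne hj] at this
    rw [hti, haa]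
  · have : Finset.univ.filter (fun y : YY p r d => piY y (Sum.inl x, i) = Sum.inr z) = ∅ := by
      apply Finset.filter_eq_empty_iff.2
      intro y _ h
      simp [piY] at h
    rw [this]; simp
  · have : Finset.univ.filter (fun y : YY p r d => piY y (Sum.inr x, i) = Sum.inl z) = ∅ := by
      apply Finset.filter_eq_empty_iff.2
      intro y _ h
      simp [piY] at h
    rw [this]; simp
  · -- padding part
    have h1 : (Finset.univ.filter (fun y : YY p r d => piY y (Sum.inr x, i) = Sum.inr z)).card ≤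
        (Finset.univ : Finset (Fin d → ZMod p)).card := by
      refine Finset.card_le_card_of_injOn (fun y => y.1) (fun _ _ => by simp) ?_
      rintro ⟨a, s⟩ h1 ⟨a', s'⟩ h2 heq
      have h1' := (Finset.mem_filter.1 (Finset.mem_coe.1 h1)).2
      have h2' := (Finset.mem_filter.1 (Finset.mem_coe.1 h2)).2
      simp only [piY, Sum.inr.injEq] at h1' h2'
      have hs : s = s' := add_left_cancel (h1'.trans h2'.symm)
      simp only at heq
      rw [heq, hs]
    calc (Finset.univ.filter (fun y : YY p r d => piY y (Sum.inr x, i) = Sum.inr z)).card * p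
        ≤ (Finset.univ : Finset (Fin d → ZMod p)).card * r := Nat.mul_le_mul h1 hpr
      _ = Fintype.card (YY p r d) := by
          rw [Fintype.card_prod, Finset.card_univ, ZMod.card]

lemma clashY_card [NeZero p] [NeZero r] (hd : 2 ≤ d) :
    (Finset.univ.filter (fun yy : YY p r d × YY p r d => clashY yy.1 yy.2)).card * p ≤
      Fintype.card (YY p r d) ^ 2 := by
  have hp : (Finset.univ.filter (fun yy : YY p r d × YY p r d => clashY yy.1 yy.2)).card * p =
      ((Finset.univ.filter (fun yy : YY p r d × YY p r d => clashY yy.1 yy.2)) ×ˢ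
        (Finset.univ : Finset (ZMod p))).card := by
    rw [Finset.card_product, Finset.card_univ, ZMod.card]
  have e : Fintype.card (YY p r d) ^ 2 = (Finset.univ : Finset (YY p r d × YY p r d)).card := by
    rw [Finset.card_univ, Fintype.card_prod (YY p r d) (YY p r d), sq]
  rw [hp, e]
  let i0 : Fin d := ⟨0, by omega⟩
  let i1 : Fin d := ⟨1, by omega⟩
  have h01 : i0 ≠ i1 := by
    intro h
    have := congrArg Fin.val h
    simp [i0, i1] at this
  refine Finset.card_le_card_of_injOn
    (fun q => (q.1.1, (Function.update q.1.2.1 i1 (q.1.2.1 i1 + q.2), q.1.2.2)))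
    (fun _ _ => by simp) ?_
  rintro ⟨⟨y, a, s⟩, t⟩ h1 ⟨⟨y', a', s'⟩, t'⟩ h2 heq
  have h1' := (Finset.mem_filter.1 (Finset.mem_product.1 (Finset.mem_coe.1 h1)).1).2 i0 i1
  have h2' := (Finset.mem_filter.1 (Finset.mem_product.1 (Finset.mem_coe.1 h2)).1).2 i0 i1
  simp only [Prod.mk.injEq] at heq
  obtain ⟨rfl, e1, rfl⟩ := heq
  simp only at h1' h2'
  have ha0 : a i0 = a' i0 := by
    have := congrFun e1 i0
    rwa [Function.update_of_ne h01, Function.update_of_ne h01] at this
  have ha1 : a i1 = a' i1 := by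
    rw [ha0] at h1'
    have := h1'.symm.trans h2'
    exact sub_left_injective this
  have ht : t = t' := by
    have := congrFun e1 i1
    rw [Function.update_self, Function.update_self, ha1] at this
    exact add_left_cancel this
  have haa : a = a' := by
    funext j
    by_cases hj : j = i1
    · rw [hj, ha1]
    · have := congrFun e1 j
      rwa [Function.update_of_ne hj, Function.update_of_ne hj] at this
  rw [ht, haa]

lemma piY_dto1 [NeZero p] [NeZero r] (y : YY p r d) (c : ZMod p ⊕ ZMod r) :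
    (Finset.univ.filter (fun b => piY y b = c)).card ≤ d := by
  have h : (Finset.univ.filter (fun b => piY y b = c)).card ≤ (Finset.univ : Finset (Fin d)).card := by
    refine Finset.card_le_card_of_injOn (fun b => b.2) (fun _ _ => by simp) ?_
    rintro ⟨b, i⟩ h1 ⟨b', i'⟩ h2 heq
    have h1' := (Finset.mem_filter.1 (Finset.mem_coe.1 h1)).2
    have h2' := (Finset.mem_filter.1 (Finset.mem_coe.1 h2)).2
    simp only at heq
    subst heq
    rw [← h2'] at h1'
    rcases b with x | x <;> rcases b' with x' | x'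
    · simp only [piY, Sum.inl.injEq] at h1'
      rw [add_right_cancel h1']
    · simp [piY] at h1'
    · simp [piY] at h1'
    · simp only [piY, Sum.inr.injEq] at h1'
      rw [add_right_cancel h1']
  rwa [Finset.card_univ, Fintype.card_fin] at h

end labels

end

end Pool.H17.LC
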